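import Mathlib

set_option autoImplicit false

/-!
# The Hamming distance of permutations and near groups of permutations
-/

namespace Pool.Agent.V11100.AD

open Finset

section
variable {X : Type} [Fintype X] [DecidableEq X]

/-- number of points at which two permutations differ -/
def dis (f g : Equiv.Perm X) : ℕ := (univ.filter fun w => f w ≠ g w).card

theorem dis_self (f : Equiv.Perm X) : dis f f = 0 := by simp [dis]

theorem dis_comm (f g : Equiv.Perm X) : dis f g = dis g f := by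
  unfold dis; congr 1; ext w; simp [eq_comm]

theorem dis_tri (f g h : Equiv.Perm X) : dis f h ≤ dis f g + dis g h := by
  unfold dis
  refine (card_le_card ?_).trans (card_union_le _ _)
  intro w hw
  simp only [mem_filter, mem_univ, true_and, mem_union] at hw ⊢
  by_contra hc
  push Not at hc
  exact hw (hc.1.trans hc.2)

theorem dis_mul_left (h f g : Equiv.Perm X) : dis (h * f) (h * g) = dis f g := by
  unfold dis; congr 1; ext w; simp

theorem dis_mul_right (f g h : Equiv.Perm X) : dis (f * h) (g * h) = dis f g := by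
  unfold dis
  refine card_bij (fun w _ => h w) ?_ ?_ ?_
  · intro w hw; simpa using hw
  · intro a _ b _ hab; exact h.injective hab
  · intro b hb
    refine ⟨h.symm b, ?_, ?_⟩
    · simpa using hb
    · simp

theorem dis_mul_mul (f g f' g' : Equiv.Perm X) : dis (f * g) (f' * g') ≤ dis f f' + dis g g' := by
  refine (dis_tri (f * g) (f' * g) (f' * g')).trans ?_
  rw [dis_mul_right, dis_mul_left]

theorem dis_inv (f g : Equiv.Perm X) : dis f⁻¹ g⁻¹ = dis f g := by
  rw [← dis_mul_left f f⁻¹ g⁻¹, ← dis_mul_right (f * f⁻¹) (f * g⁻¹) g]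
  rw [mul_inv_cancel, one_mul, mul_assoc, inv_mul_cancel, mul_one, dis_comm]

/-- A family of permutations which are far from each other and closed up to small errors under
products and inverses is indexed by a group. -/
theorem near_group {Y : Type} (τ : Y → Equiv.Perm X) (e : Y) (B N : ℝ) (hB : 4 * B < N)
    (sep : ∀ x y, x ≠ y → N ≤ dis (τ x) (τ y)) (he : τ e = 1)
    (hm : ∀ x y, ∃ z, (dis (τ x * τ y) (τ z) : ℝ) ≤ B)
    (hi : ∀ x, ∃ z, (dis (τ x)⁻¹ (τ z) : ℝ) ≤ B) :
    ∃ (_ : Group Y), (1 : Y) = e ∧ ∀ x y : Y, (dis (τ x * τ y) (τ (x * y)) : ℝ) ≤ B := by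
  have hB0 : 0 ≤ B := by
    obtain ⟨z, hz⟩ := hm e e
    exact le_trans (Nat.cast_nonneg _) hz
  have key : ∀ x y : Y, (dis (τ x) (τ y) : ℝ) ≤ 4 * B → x = y := by
    intro x y h
    by_contra hne
    exact absurd (sep x y hne) (not_le.2 (lt_of_le_of_lt h hB))
  choose m hm' using hm
  choose i hi' using hi
  let iM : Mul Y := ⟨m⟩
  let iI : Inv Y := ⟨i⟩
  let iO : One Y := ⟨e⟩
  have hmul : ∀ x y : Y, (dis (τ x * τ y) (τ (x * y)) : ℝ) ≤ B := hm'
  have hinv : ∀ x : Y, (dis (τ x)⁻¹ (τ x⁻¹) : ℝ) ≤ B := hi'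
  have hone : τ (1 : Y) = 1 := he
  have T : ∀ f g h : Equiv.Perm X, (dis f h : ℝ) ≤ dis f g + dis g h := by
    intro f g h; exact_mod_cast dis_tri f g h
  have assoc : ∀ a b c : Y, (a * b) * c = a * (b * c) := by
    intro a b c
    apply key
    have h1 : (dis (τ ((a * b) * c)) (τ (a * b) * τ c) : ℝ) ≤ B := by
      rw [dis_comm]; exact hmul _ _
    have h2 : (dis (τ (a * b) * τ c) (τ a * τ b * τ c) : ℝ) ≤ B := by
      rw [dis_mul_right, dis_comm]; exact hmul _ _
    have h3 : (dis (τ a * τ b * τ c) (τ a * τ (b * c)) : ℝ) ≤ B := by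
      rw [mul_assoc, dis_mul_left]; exact hmul _ _
    have h4 := hmul a (b * c)
    have t1 := T (τ ((a * b) * c)) (τ (a * b) * τ c) (τ a * τ b * τ c)
    have t2 := T (τ ((a * b) * c)) (τ a * τ b * τ c) (τ a * τ (b * c))
    have t3 := T (τ ((a * b) * c)) (τ a * τ (b * c)) (τ (a * (b * c)))
    linarith
  have one_mul' : ∀ a : Y, 1 * a = a := by
    intro a
    apply key
    have h1 := hmul 1 a
    rw [hone, one_mul, dis_comm] at h1
    linarith
  have inv_mul' : ∀ a : Y, a⁻¹ * a = 1 := by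
    intro a
    apply key
    have h1 : (dis (τ (a⁻¹ * a)) (τ a⁻¹ * τ a) : ℝ) ≤ B := by
      rw [dis_comm]; exact hmul _ _
    have h2 : (dis (τ a⁻¹ * τ a) ((τ a)⁻¹ * τ a) : ℝ) ≤ B := by
      rw [dis_mul_right, dis_comm]; exact hinv a
    rw [inv_mul_cancel, ← hone] at h2
    have t1 := T (τ (a⁻¹ * a)) (τ a⁻¹ * τ a) (τ 1)
    linarith
  refine ⟨Group.ofLeftAxioms assoc one_mul' inv_mul', rfl, hmul⟩

end

end Pool.Agent.V11100.AD
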