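import Mathlib
import Pool.Agent.V11100.AD.Dis

set_option autoImplicit false

/-!
# Affine planes, and the near translations attached to the points
-/

namespace Pool.Agent.V11100.AD

open Finset

/-- The affine plane obtained from a projective plane by removing a line: `X` are the points, `A`
the directions, `ln D x` is the line with direction `D` through `x`. -/
structure Aff (X A M : Type) where
  ln : A → X → M
  ex : ∀ D E, D ≠ E → ∀ x y, ∃ w, ln D w = ln D x ∧ ln E w = ln E y
  un : ∀ D E, D ≠ E → ∀ w w', ln D w = ln D w' → ln E w = ln E w' → w = w'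
  dr : ∀ x y, ∃ D, ln D x = ln D y

namespace Aff

variable {X A M : Type} (P : Aff X A M)

noncomputable def dir (x y : X) : A := (P.dr x y).choose

theorem dir_spec (x y : X) : P.ln (P.dir x y) x = P.ln (P.dir x y) y := (P.dr x y).choose_spec

theorem dir_unique {x y : X} (h : x ≠ y) {D : A} (hD : P.ln D x = P.ln D y) : D = P.dir x y := by
  by_contra hne
  exact h (P.un D _ hne x y hD (P.dir_spec x y))

open Classical in
noncomputable def pt (D : A) (x : X) (E : A) (y : X) : X :=
  if h : D ≠ E then (P.ex D E h x y).choose else x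

theorem pt1 {D E : A} (h : D ≠ E) (x y : X) : P.ln D (P.pt D x E y) = P.ln D x := by
  unfold pt; rw [dif_pos h]; exact (P.ex D E h x y).choose_spec.1

theorem pt2 {D E : A} (h : D ≠ E) (x y : X) : P.ln E (P.pt D x E y) = P.ln E y := by
  unfold pt; rw [dif_pos h]; exact (P.ex D E h x y).choose_spec.2

open Classical in
/-- the fourth vertex of the parallelogram with the vertices `o`, `x`, `w` -/
noncomputable def tf (o x w : X) : X :=
  if x = o then w else if P.ln (P.dir o x) w = P.ln (P.dir o x) o then w else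
    P.pt (P.dir o x) w (P.dir o w) x

theorem dir_ne {o w : X} {D : A} (hw : P.ln D w ≠ P.ln D o) : D ≠ P.dir o w := by
  intro h
  apply hw
  rw [h]
  exact (P.dir_spec o w).symm

theorem tf_line {o x : X} {D : A} (hx : P.ln D x = P.ln D o) (w : X) :
    P.ln D (P.tf o x w) = P.ln D w := by
  unfold tf
  split_ifs with h1 h2
  · rfl
  · rfl
  · have hD : D = P.dir o x := P.dir_unique (fun h => h1 h.symm) hx.symm
    subst hD
    exact P.pt1 (P.dir_ne h2) _ _

theorem tf_spec {o x : X} {D : A} (hx : P.ln D x = P.ln D o) {w : X}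
    (hw : P.ln D w ≠ P.ln D o) : P.ln (P.dir o w) (P.tf o x w) = P.ln (P.dir o w) x := by
  unfold tf
  split_ifs with h1 h2
  · subst h1; exact (P.dir_spec _ w).symm
  · have hD : D = P.dir o x := P.dir_unique (fun h => h1 h.symm) hx.symm
    subst hD
    exact absurd h2 hw
  · have hD : D = P.dir o x := P.dir_unique (fun h => h1 h.symm) hx.symm
    subst hD
    exact P.pt2 (P.dir_ne h2) _ _

theorem tf_on {o x : X} {D : A} (hx : P.ln D x = P.ln D o) {w : X}
    (hw : P.ln D w = P.ln D o) : P.tf o x w = w := by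
  unfold tf
  split_ifs with h1 h2
  · rfl
  · rfl
  · have hD : D = P.dir o x := P.dir_unique (fun h => h1 h.symm) hx.symm
    subst hD
    exact absurd hw h2

theorem tf_inj (o x : X) : Function.Injective (P.tf o x) := by
  intro w1 w2 h
  by_cases hxo : x = o
  · unfold tf at h
    rwa [if_pos hxo, if_pos hxo] at h
  have hx : P.ln (P.dir o x) x = P.ln (P.dir o x) o := (P.dir_spec o x).symm
  have hl : P.ln (P.dir o x) w1 = P.ln (P.dir o x) w2 := by
    rw [← P.tf_line hx w1, ← P.tf_line hx w2, h]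
  by_cases hw1 : P.ln (P.dir o x) w1 = P.ln (P.dir o x) o
  · rw [P.tf_on hx hw1, P.tf_on hx (hl.symm.trans hw1)] at h
    exact h
  have hw2 : P.ln (P.dir o x) w2 ≠ P.ln (P.dir o x) o := fun hc => hw1 (hl.trans hc)
  have e1 := P.tf_spec hx hw1
  have e2 := P.tf_spec hx hw2
  rw [← h] at e2
  have hne : P.tf o x w1 ≠ x := by
    intro hc
    apply hw1
    rw [← P.tf_line hx w1, hc, hx]
  have h1 := P.dir_unique hne e1
  have h2 := P.dir_unique hne e2
  have h12 : P.dir o w1 = P.dir o w2 := h1.trans h2.symm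
  have f1 := P.dir_spec o w1
  have f2 := P.dir_spec o w2
  rw [← h12] at f2
  exact P.un _ _ (P.dir_ne hw1) _ _ hl (f1.symm.trans f2)

variable [Finite X]

/-- the near translation which takes `o` to `x` -/
noncomputable def t (o x : X) : Equiv.Perm X :=
  Equiv.ofBijective (P.tf o x) (Finite.injective_iff_bijective.1 (P.tf_inj o x))

theorem t_apply (o x w : X) : P.t o x w = P.tf o x w := rfl

theorem t_line {o x : X} {D : A} (hx : P.ln D x = P.ln D o) (w : X) :
    P.ln D (P.t o x w) = P.ln D w := P.tf_line hx w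

theorem t_spec {o x : X} {D : A} (hx : P.ln D x = P.ln D o) {w : X}
    (hw : P.ln D w ≠ P.ln D o) : P.ln (P.dir o w) (P.t o x w) = P.ln (P.dir o w) x :=
  P.tf_spec hx hw

theorem t_self (o : X) : P.t o o = 1 := by
  ext w
  rw [t_apply, Equiv.Perm.one_apply]
  unfold tf
  rw [if_pos rfl]

theorem t_sep {o x x' : X} {D : A} (hx : P.ln D x = P.ln D o) (hx' : P.ln D x' = P.ln D o)
    (hne : x ≠ x') {w : X} (hw : P.ln D w ≠ P.ln D o) : P.t o x w ≠ P.t o x' w := by
  intro h
  have h1 := P.t_spec hx hw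
  have h2 := P.t_spec hx' hw
  rw [h] at h1
  exact hne (P.un _ _ (P.dir_ne hw) _ _ (hx.trans hx'.symm) (h1.symm.trans h2))

/-- a pair of points whose direction is not preserved -/
def Bad (f : Equiv.Perm X) (w v : X) : Prop :=
  ∃ D, P.ln D w = P.ln D v ∧ P.ln D (f w) ≠ P.ln D (f v)

theorem not_bad {f : Equiv.Perm X} {w v : X} (h : ¬ P.Bad f w v) {D : A}
    (hD : P.ln D w = P.ln D v) : P.ln D (f w) = P.ln D (f v) := by
  by_contra hc
  exact h ⟨D, hD, hc⟩

theorem off_symm {o x y : X} (hx : x ≠ o) (h : P.ln (P.dir o x) y ≠ P.ln (P.dir o x) o) :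
    P.ln (P.dir o y) x ≠ P.ln (P.dir o y) o := by
  intro hc
  have := P.dir_unique (fun h => hx h.symm) hc.symm
  rw [← this] at h
  exact h (P.dir_spec o y).symm

theorem t_symm {o x y : X} (hx : x ≠ o) (h : P.ln (P.dir o x) y ≠ P.ln (P.dir o x) o) :
    P.t o x y = P.t o y x := by
  have hxx : P.ln (P.dir o x) x = P.ln (P.dir o x) o := (P.dir_spec o x).symm
  have hyy : P.ln (P.dir o y) y = P.ln (P.dir o y) o := (P.dir_spec o y).symm
  refine P.un _ _ (P.dir_ne h) _ _ ?_ ?_
  · rw [P.t_line hxx, P.t_spec hyy (P.off_symm hx h)]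
  · rw [P.t_spec hxx h, P.t_line hyy]

end Aff

end Pool.Agent.V11100.AD
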