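import Mathlib
import Pool.Agent.V11100.AD.Aff

set_option autoImplicit false

/-!
# Composition of near translations with different directions
-/

namespace Pool.Agent.V11100.AD

open Finset Classical

namespace Aff

variable {X A M : Type} (P : Aff X A M) [Fintype X]

/-- `w` is not on the line `ox` -/
def off (o x w : X) : Prop := P.ln (P.dir o x) w ≠ P.ln (P.dir o x) o

theorem assoc_pt {o x y w : X} (hy : y ≠ o) (hxy : P.off o x y)
    (h1 : P.off o x w) (h2 : P.off o y w) (h3 : P.off o (P.t o x y) w)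
    (b1 : ¬ P.Bad (P.t o x) y (P.t o y w)) (b2 : ¬ P.Bad (P.t o w) y (P.t o x y)) :
    P.t o x (P.t o y w) = P.t o (P.t o x y) w := by
  have hxx : P.ln (P.dir o x) x = P.ln (P.dir o x) o := (P.dir_spec o x).symm
  have hyy : P.ln (P.dir o y) y = P.ln (P.dir o y) o := (P.dir_spec o y).symm
  set z := P.t o x y with hz
  have hzz : P.ln (P.dir o z) z = P.ln (P.dir o z) o := (P.dir_spec o z).symm
  have hzo : z ≠ o := by
    intro hc
    apply hxy
    rw [← P.t_line hxx y, ← hz, hc]
  have c1 : P.ln (P.dir o w) y = P.ln (P.dir o w) (P.t o y w) := (P.t_spec hyy h2).symm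
  have d1 : P.ln (P.dir o w) z = P.ln (P.dir o w) (P.t o x (P.t o y w)) := P.not_bad b1 c1
  have c2 : P.ln (P.dir o x) y = P.ln (P.dir o x) z := (P.t_line hxx y).symm
  have d2 : P.ln (P.dir o x) (P.t o w y) = P.ln (P.dir o x) (P.t o w z) := P.not_bad b2 c2
  rw [← P.t_symm hy h2, ← P.t_symm hzo h3] at d2
  refine P.un _ _ (P.dir_ne h1) _ _ ?_ ?_
  · rw [P.t_line hxx, d2]
  · rw [← d1, P.t_spec hzz h3]

/-- failures of the configurations with the vertices `o` and `x` -/
noncomputable def fail (o x : X) : ℕ :=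
  (univ.filter fun p : X × X => P.off o x p.1 ∧ P.off o x p.2 ∧ P.Bad (P.t o x) p.1 p.2).card

noncomputable def e1 (o x y : X) : ℕ :=
  (univ.filter fun w : X => P.off o x y ∧ P.off o x (P.t o y w) ∧
    P.Bad (P.t o x) y (P.t o y w)).card

noncomputable def e2 (o x y : X) : ℕ :=
  (univ.filter fun w : X => x ≠ o ∧ P.off o x y ∧ P.off o w y ∧ P.off o w (P.t o x y) ∧
    P.Bad (P.t o w) y (P.t o x y)).card

theorem sum_card {Y Z : Type} [Fintype Y] [Fintype Z] (p : Y → Z → Prop)
    [i1 : ∀ y, DecidablePred (p y)] [i2 : DecidablePred fun q : Y × Z => p q.1 q.2] :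
    ∑ y, (univ.filter fun z => p y z).card = (univ.filter fun q : Y × Z => p q.1 q.2).card := by
  rw [card_filter, Fintype.sum_prod_type]
  refine sum_congr rfl fun y _ => ?_
  rw [card_filter]
  refine sum_congr rfl fun z _ => ?_
  by_cases h : p y z
  · rw [if_pos h, if_pos h]
  · rw [if_neg h, if_neg h]

theorem sum_e1 (o x : X) : ∑ y, P.e1 o x y ≤ P.fail o x := by
  unfold e1
  rw [sum_card (fun y w => P.off o x y ∧ P.off o x (P.t o y w) ∧
    P.Bad (P.t o x) y (P.t o y w))]
  unfold fail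
  refine card_le_card_of_injOn (fun q => (q.1, P.t o q.1 q.2)) ?_ ?_
  · intro q hq
    simpa using hq
  · rintro ⟨a, b⟩ _ ⟨c, d⟩ _ h
    simp only [Prod.mk.injEq] at h
    obtain ⟨h1, h2⟩ := h
    subst h1
    rw [(P.t o a).injective h2]

theorem sum_e2 (o : X) : ∑ x, ∑ y, P.e2 o x y ≤ ∑ w, P.fail o w := by
  unfold e2
  have h1 : ∀ x : X, ∑ y, (univ.filter fun w : X => x ≠ o ∧ P.off o x y ∧ P.off o w y ∧
      P.off o w (P.t o x y) ∧ P.Bad (P.t o w) y (P.t o x y)).card =
      ∑ w, (univ.filter fun y : X => x ≠ o ∧ P.off o x y ∧ P.off o w y ∧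
      P.off o w (P.t o x y) ∧ P.Bad (P.t o w) y (P.t o x y)).card := by
    intro x
    simp only [card_filter]
    exact sum_comm
  rw [sum_congr rfl (fun x _ => h1 x), sum_comm]
  refine sum_le_sum fun w _ => ?_
  rw [sum_card (fun x y => x ≠ o ∧ P.off o x y ∧ P.off o w y ∧
      P.off o w (P.t o x y) ∧ P.Bad (P.t o w) y (P.t o x y))]
  unfold fail
  refine card_le_card_of_injOn (fun q => (q.2, P.t o q.1 q.2)) ?_ ?_
  · intro q hq
    simp only [coe_filter, mem_univ, true_and, Set.mem_ofPred_eq] at hq ⊢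
    exact ⟨hq.2.2.1, hq.2.2.2.1, hq.2.2.2.2⟩
  · rintro ⟨a, b⟩ h ⟨c, d⟩ h' hh
    simp only [coe_filter, mem_univ, true_and, Set.mem_ofPred_eq] at h h'
    simp only [Prod.mk.injEq] at hh
    obtain ⟨h1, h2⟩ := hh
    subst h1
    rw [P.t_symm h.1 h.2.1, P.t_symm h'.1 h'.2.1] at h2
    rw [(P.t o b).injective h2]

/-- all lines have `n` points -/
def Lines (n : ℕ) : Prop := ∀ (D : A) (x : X), (univ.filter fun y => P.ln D y = P.ln D x).card = n

theorem dis_assoc {n : ℕ} (hn : P.Lines n) {o x y : X} (hx : x ≠ o) (hy : y ≠ o)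
    (hxy : P.off o x y) :
    dis (P.t o x * P.t o y) (P.t o (P.t o x y)) ≤ 4 * n + (P.e1 o x y + P.e2 o x y) := by
  have hsub : (univ.filter fun w => (P.t o x * P.t o y) w ≠ P.t o (P.t o x y) w) ⊆
      ((univ.filter fun w => P.ln (P.dir o x) w = P.ln (P.dir o x) o) ∪
      (univ.filter fun w => P.ln (P.dir o y) w = P.ln (P.dir o y) o)) ∪
      ((univ.filter fun w => P.ln (P.dir o (P.t o x y)) w = P.ln (P.dir o (P.t o x y)) o) ∪
      (univ.filter fun w => P.ln (P.dir o x) (P.t o y w) = P.ln (P.dir o x) o)) ∪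
      ((univ.filter fun w : X => P.off o x y ∧ P.off o x (P.t o y w) ∧
        P.Bad (P.t o x) y (P.t o y w)) ∪
      (univ.filter fun w : X => x ≠ o ∧ P.off o x y ∧ P.off o w y ∧ P.off o w (P.t o x y) ∧
        P.Bad (P.t o w) y (P.t o x y))) := by
    intro w hw
    simp only [mem_filter, mem_univ, true_and, mem_union] at hw ⊢
    by_contra hc
    push Not at hc
    obtain ⟨⟨⟨c1, c2⟩, c3, c4⟩, c5, c6⟩ := hc
    have hxx : P.ln (P.dir o x) x = P.ln (P.dir o x) o := (P.dir_spec o x).symm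
    have hzo : P.t o x y ≠ o := by
      intro hc
      apply hxy
      rw [← P.t_line hxx y, hc]
    apply hw
    rw [Equiv.Perm.mul_apply]
    refine P.assoc_pt hy hxy c1 c2 c3 (c5 hxy c4) (c6 hx hxy (P.off_symm hy c2)
      (P.off_symm hzo c3))
  have hle := card_le_card hsub
  have k1 := hn (P.dir o x) o
  have k2 := hn (P.dir o y) o
  have k3 := hn (P.dir o (P.t o x y)) o
  have k4 : (univ.filter fun w => P.ln (P.dir o x) (P.t o y w) = P.ln (P.dir o x) o).card ≤ n := by
    rw [← k1]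
    refine card_le_card_of_injOn (fun w => P.t o y w) ?_ ?_
    · intro w hw; simpa using hw
    · intro a _ b _ h; exact (P.t o y).injective h
  have u1 := card_union_le
    ((univ.filter fun w => P.ln (P.dir o x) w = P.ln (P.dir o x) o) ∪
      (univ.filter fun w => P.ln (P.dir o y) w = P.ln (P.dir o y) o) ∪
      ((univ.filter fun w => P.ln (P.dir o (P.t o x y)) w = P.ln (P.dir o (P.t o x y)) o) ∪
      (univ.filter fun w => P.ln (P.dir o x) (P.t o y w) = P.ln (P.dir o x) o)))
      ((univ.filter fun w : X => P.off o x y ∧ P.off o x (P.t o y w) ∧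
        P.Bad (P.t o x) y (P.t o y w)) ∪
      (univ.filter fun w : X => x ≠ o ∧ P.off o x y ∧ P.off o w y ∧ P.off o w (P.t o x y) ∧
        P.Bad (P.t o w) y (P.t o x y)))
  have u2 := card_union_le
    ((univ.filter fun w => P.ln (P.dir o x) w = P.ln (P.dir o x) o) ∪
      (univ.filter fun w => P.ln (P.dir o y) w = P.ln (P.dir o y) o))
      ((univ.filter fun w => P.ln (P.dir o (P.t o x y)) w = P.ln (P.dir o (P.t o x y)) o) ∪
      (univ.filter fun w => P.ln (P.dir o x) (P.t o y w) = P.ln (P.dir o x) o))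
  have u3 := card_union_le
    (univ.filter fun w => P.ln (P.dir o x) w = P.ln (P.dir o x) o)
      (univ.filter fun w => P.ln (P.dir o y) w = P.ln (P.dir o y) o)
  have u4 := card_union_le
      (univ.filter fun w => P.ln (P.dir o (P.t o x y)) w = P.ln (P.dir o (P.t o x y)) o)
      (univ.filter fun w => P.ln (P.dir o x) (P.t o y w) = P.ln (P.dir o x) o)
  have u5 := card_union_le
      (univ.filter fun w : X => P.off o x y ∧ P.off o x (P.t o y w) ∧
        P.Bad (P.t o x) y (P.t o y w))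
      (univ.filter fun w : X => x ≠ o ∧ P.off o x y ∧ P.off o w y ∧ P.off o w (P.t o x y) ∧
        P.Bad (P.t o w) y (P.t o x y))
  unfold dis e1 e2
  omega

end Aff

end Pool.Agent.V11100.AD
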