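import Mathlib
import Pool.Agent.V11100.AD.Assoc

set_option autoImplicit false

/-!
# Permutations which preserve most directions and all lines of one direction
-/

namespace Pool.Agent.V11100.AD

open Finset Classical

namespace Aff

variable {X A M : Type} (P : Aff X A M) [Fintype X]

/-- number of pairs whose direction is not preserved -/
noncomputable def S (f : Equiv.Perm X) : ℕ :=
  (univ.filter fun p : X × X => P.Bad f p.1 p.2).card

omit [Fintype X] in
theorem app_inv (f : Equiv.Perm X) (w : X) : f (f⁻¹ w) = w := f.apply_symm_apply w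

theorem S_mul (f g : Equiv.Perm X) : P.S (f * g) ≤ P.S f + P.S g := by
  have h1 : P.S (f * g) ≤ (univ.filter fun p : X × X => P.Bad f (g p.1) (g p.2)).card +
      (univ.filter fun p : X × X => P.Bad g p.1 p.2).card := by
    refine (card_le_card ?_).trans (card_union_le _ _)
    intro p hp
    simp only [mem_filter, mem_univ, true_and, mem_union] at hp ⊢
    by_contra hc
    push Not at hc
    obtain ⟨D, h1, h2⟩ := hp
    exact h2 (P.not_bad hc.1 (P.not_bad hc.2 h1))
  refine h1.trans (Nat.add_le_add_right ?_ _)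
  refine card_le_card_of_injOn (fun p => (g p.1, g p.2)) ?_ ?_
  · intro p hp; simpa using hp
  · rintro ⟨a, b⟩ _ ⟨c, d⟩ _ h
    simp only [Prod.mk.injEq, EmbeddingLike.apply_eq_iff_eq] at h
    rw [h.1, h.2]

theorem S_inv (f : Equiv.Perm X) : P.S f⁻¹ ≤ P.S f := by
  refine card_le_card_of_injOn (fun p => (f⁻¹ p.1, f⁻¹ p.2)) ?_ ?_
  · intro p hp
    simp only [coe_filter, mem_univ, true_and, Set.mem_ofPred_eq] at hp ⊢
    obtain ⟨D, h1, h2⟩ := hp
    by_contra hc
    -- directions of `w, v` against those of the preimages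
    by_cases hwv : p.1 = p.2
    · apply h2; rw [hwv]
    have hne : f⁻¹ p.1 ≠ f⁻¹ p.2 := fun h => hwv (f⁻¹.injective h)
    obtain ⟨E, hE⟩ := P.dr (f⁻¹ p.1) (f⁻¹ p.2)
    have h3 := P.not_bad hc hE
    rw [app_inv, app_inv] at h3
    have h4 : D = E := (P.dir_unique hwv h1).trans (P.dir_unique hwv h3).symm
    rw [h4] at h2
    exact h2 hE
  · rintro ⟨a, b⟩ _ ⟨c, d⟩ _ h
    simp only [Prod.mk.injEq, EmbeddingLike.apply_eq_iff_eq] at h
    rw [h.1, h.2]

theorem S_one : P.S 1 = 0 := by
  unfold S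
  rw [card_eq_zero, filter_eq_empty_iff]
  rintro p _ ⟨D, h1, h2⟩
  exact h2 h1

theorem S_t {n : ℕ} (hn : P.Lines n) (hX : Fintype.card X = n ^ 2) (o x : X) :
    P.S (P.t o x) ≤ P.fail o x + 2 * n ^ 3 := by
  have h1 : P.S (P.t o x) ≤ (univ.filter fun p : X × X => P.off o x p.1 ∧ P.off o x p.2 ∧
      P.Bad (P.t o x) p.1 p.2).card +
      ((univ.filter fun p : X × X => P.ln (P.dir o x) p.1 = P.ln (P.dir o x) o).card +
      (univ.filter fun p : X × X => P.ln (P.dir o x) p.2 = P.ln (P.dir o x) o).card) := by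
    refine (card_le_card ?_).trans ((card_union_le _ _).trans
      (Nat.add_le_add_left (card_union_le _ _) _))
    intro p hp
    simp only [mem_filter, mem_univ, true_and, mem_union] at hp ⊢
    by_contra hc
    push Not at hc
    exact hc.1 hc.2.1 hc.2.2 hp
  have h2 : (univ.filter fun p : X × X => P.ln (P.dir o x) p.1 = P.ln (P.dir o x) o).card =
      n ^ 3 := by
    have e : (univ.filter fun p : X × X => P.ln (P.dir o x) p.1 = P.ln (P.dir o x) o) =
        (univ.filter fun w => P.ln (P.dir o x) w = P.ln (P.dir o x) o) ×ˢ (univ : Finset X) := by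
      ext p; simp
    rw [e, card_product, hn, card_univ, hX]; ring
  have h3 : (univ.filter fun p : X × X => P.ln (P.dir o x) p.2 = P.ln (P.dir o x) o).card =
      n ^ 3 := by
    have e : (univ.filter fun p : X × X => P.ln (P.dir o x) p.2 = P.ln (P.dir o x) o) =
        (univ : Finset X) ×ˢ (univ.filter fun w => P.ln (P.dir o x) w = P.ln (P.dir o x) o) := by
      ext p; simp
    rw [e, card_product, hn, card_univ, hX]; ring
  rw [h2, h3] at h1
  unfold fail
  omega

/-- the sum of the failures over the points of the line with direction `D` through `o` -/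
noncomputable def Fl (o : X) (D : A) : ℕ :=
  ∑ z ∈ univ.filter (fun z => P.ln D z = P.ln D o), P.fail o z

theorem claim {n : ℕ} (hn : P.Lines n) (hX : Fintype.card X = n ^ 2) (h2 : 2 ≤ n)
    (o : X) (D : A) (f : Equiv.Perm X) (hf : ∀ w, P.ln D (f w) = P.ln D w) :
    ∃ z, P.ln D z = P.ln D o ∧
      (n ^ 2 - n) * dis f (P.t o z) ≤ P.S f + P.Fl o D + 2 * n * (n ^ 2 - n) := by
  set Off : Finset X := univ.filter (fun w => P.ln D w ≠ P.ln D o) with hOff
  have hOc : Off.card = n ^ 2 - n := by
    have h := card_filter_add_card_filter_not (s := (univ : Finset X)) (fun w => P.ln D w = P.ln D o)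
    rw [hn, card_univ, hX] at h
    have : Off.card = (univ.filter fun w => ¬ P.ln D w = P.ln D o).card := rfl
    omega
  have hOn : Off.Nonempty := by
    rw [← card_pos, hOc]
    have : n < n ^ 2 := by nlinarith
    omega
  set zz : X → X := fun w => P.pt D o (P.dir o w) (f w) with hzz
  set b1 : X → ℕ := fun w => (univ.filter fun v => P.Bad f w v).card with hb1
  set b2 : X → ℕ := fun w => ∑ z ∈ univ.filter (fun z => P.ln D z = P.ln D o),
    (univ.filter fun v => P.ln D v ≠ P.ln D o ∧ P.Bad (P.t o z) w v).card with hb2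
  have hpt : ∀ w ∈ Off, dis f (P.t o (zz w)) ≤ b1 w + b2 w + 2 * n := by
    intro w hw
    have hw' : P.ln D w ≠ P.ln D o := by simpa [hOff] using hw
    have z1 : P.ln D (zz w) = P.ln D o := P.pt1 (P.dir_ne hw') _ _
    have z2 : P.ln (P.dir o w) (zz w) = P.ln (P.dir o w) (f w) := P.pt2 (P.dir_ne hw') _ _
    have z3 : P.t o (zz w) w = f w := by
      refine P.un _ _ (P.dir_ne hw') _ _ ?_ ?_
      · rw [P.t_line z1, hf]
      · rw [P.t_spec z1 hw', z2]
    have hsub : (univ.filter fun v => f v ≠ P.t o (zz w) v) ⊆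
        ((univ.filter fun v => P.Bad f w v) ∪
        (univ.filter fun v => P.ln D v ≠ P.ln D o ∧ P.Bad (P.t o (zz w)) w v)) ∪
        ((univ.filter fun v => P.ln D v = P.ln D o) ∪
        (univ.filter fun v => P.ln D v = P.ln D w)) := by
      intro v hv
      simp only [mem_filter, mem_univ, true_and, mem_union] at hv ⊢
      by_contra hc
      push Not at hc
      obtain ⟨⟨c1, c2⟩, c3, c4⟩ := hc
      have hDD : D ≠ P.dir w v := by
        intro h
        apply c4
        rw [h]; exact (P.dir_spec w v).symm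
      have q1 := P.not_bad c1 (P.dir_spec w v)
      have q2 := P.not_bad (c2 c3) (P.dir_spec w v)
      rw [z3] at q2
      apply hv
      refine P.un _ _ hDD _ _ ?_ (q1.symm.trans q2)
      rw [hf, P.t_line z1]
    have hle := card_le_card hsub
    have u1 := card_union_le ((univ.filter fun v => P.Bad f w v) ∪
        (univ.filter fun v => P.ln D v ≠ P.ln D o ∧ P.Bad (P.t o (zz w)) w v))
        ((univ.filter fun v => P.ln D v = P.ln D o) ∪
        (univ.filter fun v => P.ln D v = P.ln D w))
    have u2 := card_union_le (univ.filter fun v => P.Bad f w v)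
        (univ.filter fun v => P.ln D v ≠ P.ln D o ∧ P.Bad (P.t o (zz w)) w v)
    have u3 := card_union_le (univ.filter fun v => P.ln D v = P.ln D o)
        (univ.filter fun v => P.ln D v = P.ln D w)
    have k1 := hn D o
    have k2 := hn D w
    have k3 : (univ.filter fun v => P.ln D v ≠ P.ln D o ∧ P.Bad (P.t o (zz w)) w v).card ≤ b2 w := by
      refine single_le_sum (f := fun z => (univ.filter fun v => P.ln D v ≠ P.ln D o ∧
        P.Bad (P.t o z) w v).card) (fun _ _ => Nat.zero_le _) ?_
      simpa using z1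
    have k4 : b1 w = (univ.filter fun v => P.Bad f w v).card := rfl
    unfold dis
    omega
  have hs1 : ∑ w ∈ Off, b1 w ≤ P.S f := by
    refine (sum_le_sum_of_subset (subset_univ Off)).trans ?_
    have := sum_card (fun w v => P.Bad f w v)
    unfold S
    rw [← this]
  have hs2 : ∑ w ∈ Off, b2 w ≤ P.Fl o D := by
    rw [hb2]
    simp only
    rw [sum_comm]
    unfold Fl
    refine sum_le_sum fun z hz => ?_
    have hz' : P.ln D z = P.ln D o := by simpa using hz
    by_cases hzo : z = o
    · have : ∀ w ∈ Off, (univ.filter fun v => P.ln D v ≠ P.ln D o ∧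
          P.Bad (P.t o z) w v).card = 0 := by
        intro w _
        rw [card_eq_zero, filter_eq_empty_iff]
        rintro v _ ⟨_, E, h1, h2⟩
        rw [hzo, P.t_self] at h2
        exact h2 h1
      rw [sum_eq_zero this]
      exact Nat.zero_le _
    · have hD : D = P.dir o z := P.dir_unique (fun h => hzo h.symm) hz'.symm
      unfold fail
      rw [← sum_card (fun w v => P.off o z w ∧ P.off o z v ∧ P.Bad (P.t o z) w v)]
      refine le_trans (sum_le_sum (fun w hw => ?_)) (sum_le_sum_of_subset (subset_univ Off))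
      refine card_le_card ?_
      intro v hv
      have hw' : P.ln D w ≠ P.ln D o := by simpa [hOff] using hw
      simp only [mem_filter, mem_univ, true_and] at hv ⊢
      refine ⟨?_, ?_, hv.2⟩
      · unfold off; rw [← hD]; exact hw'
      · unfold off; rw [← hD]; exact hv.1
  obtain ⟨w, hw, hle⟩ := exists_le_of_sum_le (s := Off)
    (f := fun w => Off.card * (b1 w + b2 w + 2 * n))
    (g := fun _ => P.S f + P.Fl o D + 2 * n * Off.card) hOn (by
      rw [← mul_sum, sum_add_distrib, sum_add_distrib, sum_const, sum_const, smul_eq_mul,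
        smul_eq_mul]
      refine Nat.mul_le_mul_left _ ?_
      have : Off.card * (2 * n) = 2 * n * Off.card := by ring
      omega)
  have hw' : P.ln D w ≠ P.ln D o := by simpa [hOff] using hw
  refine ⟨zz w, P.pt1 (P.dir_ne hw') _ _, ?_⟩
  rw [← hOc]
  exact (Nat.mul_le_mul_left _ (hpt w hw)).trans hle

/-- the points of the line with direction `D` through `o` -/
def Z (o : X) (D : A) : Type := {z : X // P.ln D z = P.ln D o}

theorem sep {n : ℕ} (hn : P.Lines n) (hX : Fintype.card X = n ^ 2) (o : X) (D : A) {x y : X}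
    (hx : P.ln D x = P.ln D o) (hy : P.ln D y = P.ln D o) (hne : x ≠ y) :
    n ^ 2 - n ≤ dis (P.t o x) (P.t o y) := by
  have h := card_filter_add_card_filter_not (s := (univ : Finset X)) (fun w => P.ln D w = P.ln D o)
  rw [hn, card_univ, hX] at h
  have h2 : (univ.filter fun w => ¬ P.ln D w = P.ln D o).card ≤ dis (P.t o x) (P.t o y) := by
    unfold dis
    refine card_le_card ?_
    intro w hw
    simp only [mem_filter, mem_univ, true_and] at hw ⊢
    exact P.t_sep hx hy hne hw
  omega

theorem fail_le {o x : X} {D : A} (hx : P.ln D x = P.ln D o) : P.fail o x ≤ P.Fl o D := by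
  unfold Fl
  refine single_le_sum (f := fun z => P.fail o z) (fun _ _ => Nat.zero_le _) ?_
  simpa using hx

theorem group_line {n : ℕ} (hn : P.Lines n) (hX : Fintype.card X = n ^ 2) (h2 : 2 ≤ n)
    (o : X) (D : A) (B : ℝ) (hB : 3 * (P.Fl o D : ℝ) + 6 * (n : ℝ) ^ 3 ≤ ((n : ℝ) ^ 2 - n) * B)
    (hB4 : 4 * B < (n : ℝ) ^ 2 - n) :
    ∃ (_ : Group (P.Z o D)), (1 : P.Z o D) = ⟨o, rfl⟩ ∧
      ∀ x y : P.Z o D, (dis (P.t o x.1 * P.t o y.1) (P.t o (x * y).1) : ℝ) ≤ B := by
  have hnn : (n : ℝ) < (n : ℝ) ^ 2 := by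
    have : (2 : ℝ) ≤ n := by exact_mod_cast h2
    nlinarith
  have hsubc : ((n ^ 2 - n : ℕ) : ℝ) = (n : ℝ) ^ 2 - n := by
    rw [Nat.cast_sub (by nlinarith), Nat.cast_pow]
  have hc : ∀ f : Equiv.Perm X, (∀ w, P.ln D (f w) = P.ln D w) →
      P.S f ≤ 2 * (P.Fl o D + 2 * n ^ 3) → ∃ z : P.Z o D, (dis f (P.t o z.1) : ℝ) ≤ B := by
    intro f hf hS
    obtain ⟨z, hz, hle⟩ := P.claim hn hX h2 o D f hf
    refine ⟨⟨z, hz⟩, ?_⟩
    have h1 : (n ^ 2 - n) * dis f (P.t o z) ≤ 3 * P.Fl o D + 6 * n ^ 3 := by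
      have : 2 * n * (n ^ 2 - n) ≤ 2 * n ^ 3 := by
        calc 2 * n * (n ^ 2 - n) ≤ 2 * n * n ^ 2 := Nat.mul_le_mul_left _ (Nat.sub_le _ _)
          _ = 2 * n ^ 3 := by ring
      omega
    have h3 : ((n : ℝ) ^ 2 - n) * (dis f (P.t o z) : ℝ) ≤ 3 * (P.Fl o D : ℝ) + 6 * (n : ℝ) ^ 3 := by
      rw [← hsubc]; exact_mod_cast h1
    have h4 := h3.trans hB
    exact le_of_mul_le_mul_left h4 (by linarith)
  have hSt : ∀ x : P.Z o D, P.S (P.t o x.1) ≤ P.Fl o D + 2 * n ^ 3 := by
    intro x
    have h1 := P.S_t hn hX o x.1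
    have h3 := P.fail_le x.2
    omega
  refine near_group (fun x : P.Z o D => P.t o x.1) ⟨o, rfl⟩ B ((n : ℝ) ^ 2 - n) hB4 ?_
    (P.t_self o) ?_ ?_
  · intro x y hxy
    have := P.sep hn hX o D x.2 y.2 (fun h => hxy (Subtype.ext h))
    rw [← hsubc]; exact_mod_cast this
  · intro x y
    refine hc _ ?_ ?_
    · intro w
      rw [Equiv.Perm.mul_apply, P.t_line x.2, P.t_line y.2]
    · have h1 := P.S_mul (P.t o x.1) (P.t o y.1)
      have h3 := hSt x
      have h4 := hSt y
      omega
  · intro x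
    refine hc _ ?_ ?_
    · intro w
      rw [← P.t_line x.2 ((P.t o x.1)⁻¹ w), app_inv]
    · have h1 := P.S_inv (P.t o x.1)
      have h3 := hSt x
      omega

end Aff

end Pool.Agent.V11100.AD
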