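import Mathlib
import Pool.Agent.V11100.AD.Claim

set_option autoImplicit false

/-!
# Comparison of the groups of three directions
-/

namespace Pool.Agent.V11100.AD

open Finset Classical

namespace Aff

variable {X A M : Type} (P : Aff X A M) [Fintype X]

theorem sep_pair {n : ℕ} (hn : P.Lines n) (hX : Fintype.card X = n ^ 2) {o : X} {D1 D2 : A}
    (h12 : D1 ≠ D2) (x x' : P.Z o D1) (y y' : P.Z o D2)
    (h : dis (P.t o x.1 * P.t o y.1) (P.t o x'.1 * P.t o y'.1) < n ^ 2 - n) :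
    x = x' ∧ y = y' := by
  have hag : n < (univ.filter fun w => (P.t o x.1 * P.t o y.1) w =
      (P.t o x'.1 * P.t o y'.1) w).card := by
    have h1 := card_filter_add_card_filter_not (s := (univ : Finset X))
      (fun w => (P.t o x.1 * P.t o y.1) w = (P.t o x'.1 * P.t o y'.1) w)
    rw [card_univ, hX] at h1
    unfold dis at h
    simp only [ne_eq] at h
    omega
  have key : ∀ w, (P.t o x.1 * P.t o y.1) w = (P.t o x'.1 * P.t o y'.1) w →
      P.t o y.1 w = P.t o y'.1 w := by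
    intro w hw
    rw [Equiv.Perm.mul_apply, Equiv.Perm.mul_apply] at hw
    refine P.un _ _ h12 _ _ ?_ ?_
    · rw [← P.t_line x.2 (P.t o y.1 w), hw, P.t_line x'.2]
    · rw [P.t_line y.2, P.t_line y'.2]
  have hy : y = y' := by
    by_contra hne
    have hne' : y.1 ≠ y'.1 := fun hc => hne (Subtype.ext hc)
    have hle : (univ.filter fun w => (P.t o x.1 * P.t o y.1) w =
        (P.t o x'.1 * P.t o y'.1) w).card ≤ (univ.filter fun w => P.ln D2 w = P.ln D2 o).card := by
      refine card_le_card ?_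
      intro w hw
      simp only [mem_filter, mem_univ, true_and] at hw ⊢
      by_contra hc
      exact P.t_sep y.2 y'.2 hne' hc (key w hw)
    rw [hn] at hle
    omega
  refine ⟨?_, hy⟩
  by_contra hne
  have hne' : x.1 ≠ x'.1 := fun hc => hne (Subtype.ext hc)
  have hle : (univ.filter fun w => (P.t o x.1 * P.t o y.1) w =
      (P.t o x'.1 * P.t o y'.1) w).card ≤ (univ.filter fun w => P.ln D1 w = P.ln D1 o).card := by
    refine card_le_card_of_injOn (fun w => P.t o y.1 w) ?_ ?_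
    · intro w hw
      simp only [coe_filter, mem_univ, true_and, Set.mem_ofPred_eq] at hw ⊢
      by_contra hc
      have h3 := key w hw
      rw [Equiv.Perm.mul_apply, Equiv.Perm.mul_apply, ← h3] at hw
      exact P.t_sep x.2 x'.2 hne' hc hw
    · intro a _ b _ hab
      exact (P.t o y.1).injective hab
  rw [hn] at hle
  omega

/-- first component -/
noncomputable def al {o : X} {D D1 D2 : A} (h12 : D1 ≠ D2) (z : P.Z o D) : P.Z o D1 :=
  ⟨P.pt D1 o D2 z.1, P.pt1 h12 _ _⟩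

theorem al2 {o : X} {D D1 D2 : A} (h12 : D1 ≠ D2) (z : P.Z o D) :
    P.ln D2 (P.al h12 z).1 = P.ln D2 z.1 := P.pt2 h12 _ _

theorem al_ne {o : X} {D D1 D2 : A} (h12 : D1 ≠ D2) (hD : D ≠ D2) (z : P.Z o D)
    (hz : z.1 ≠ o) : (P.al h12 z).1 ≠ o := by
  intro hc
  have h := P.al2 h12 z
  rw [hc] at h
  exact hz (P.un D D2 hD _ _ z.2 h.symm)

theorem al_t {o : X} {D D1 D2 : A} (h12 : D1 ≠ D2) (hD1 : D ≠ D1) (hD2 : D ≠ D2) (z : P.Z o D)
    (hz : z.1 ≠ o) : P.off o (P.al h12 z).1 (P.al h12.symm z).1 ∧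
    P.t o (P.al h12 z).1 (P.al h12.symm z).1 = z.1 := by
  have hx := P.al_ne h12 hD2 z hz
  have hy := P.al_ne h12.symm hD1 z hz
  have hx1 : P.ln D1 (P.al h12 z).1 = P.ln D1 o := (P.al h12 z).2
  have hy1 : P.ln D2 (P.al h12.symm z).1 = P.ln D2 o := (P.al h12.symm z).2
  have hx2 := P.al2 h12 z
  have hy2 := P.al2 h12.symm z
  have d1 : D1 = P.dir o (P.al h12 z).1 := P.dir_unique (fun h => hx h.symm) hx1.symm
  have d2 : D2 = P.dir o (P.al h12.symm z).1 := P.dir_unique (fun h => hy h.symm) hy1.symm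
  have hoff : P.ln D1 (P.al h12.symm z).1 ≠ P.ln D1 o := by
    intro hc
    exact hy (P.un D1 D2 h12 _ _ hc hy1)
  refine ⟨?_, ?_⟩
  · unfold off; rw [← d1]; exact hoff
  · refine P.un D1 D2 h12 _ _ ?_ ?_
    · rw [P.t_line hx1, hy2]
    · have := P.t_spec hx1 hoff
      rw [← d2] at this
      rw [this, hx2]

theorem transfer {n : ℕ} (hn : P.Lines n) (hX : Fintype.card X = n ^ 2) (h2 : 2 ≤ n) {o : X}
    {D D1 D2 : A} (h12 : D1 ≠ D2) (hD1 : D ≠ D1) (hD2 : D ≠ D2)
    [Group (P.Z o D1)] [Group (P.Z o D2)] [Group (P.Z o D)] (B B' C : ℝ)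
    (m1 : ∀ x y : P.Z o D1, (dis (P.t o x.1 * P.t o y.1) (P.t o (x * y).1) : ℝ) ≤ B)
    (m2 : ∀ x y : P.Z o D2, (dis (P.t o x.1 * P.t o y.1) (P.t o (x * y).1) : ℝ) ≤ B)
    (mD : ∀ x y : P.Z o D, (dis (P.t o x.1 * P.t o y.1) (P.t o (x * y).1) : ℝ) ≤ B)
    (hC : ∀ (x : P.Z o D1) (y : P.Z o D2),
      (dis (P.t o x.1 * P.t o y.1) (P.t o y.1 * P.t o x.1) : ℝ) ≤ C)
    (hg : ∀ z : P.Z o D,
      (dis (P.t o z.1) (P.t o (P.al h12 z).1 * P.t o (P.al h12.symm z).1) : ℝ) ≤ B')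
    (hsum : 3 * B' + 3 * B + C < (n : ℝ) ^ 2 - n) (x : P.Z o D1) :
    ∃ (y : P.Z o D2) (z : X), orderOf y = orderOf x ∧ P.ln D z = P.ln D o ∧
      P.ln D2 z = P.ln D2 x.1 ∧ P.ln D1 z = P.ln D1 y.1 := by
  have T : ∀ f g h : Equiv.Perm X, (dis f h : ℝ) ≤ dis f g + dis g h := by
    intro f g h; exact_mod_cast dis_tri f g h
  have MM : ∀ f g f' g' : Equiv.Perm X, (dis (f * g) (f' * g') : ℝ) ≤ dis f f' + dis g g' := by
    intro f g f' g'; exact_mod_cast dis_mul_mul f g f' g'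
  have hsubc : ((n ^ 2 - n : ℕ) : ℝ) = (n : ℝ) ^ 2 - n := by
    rw [Nat.cast_sub (by nlinarith), Nat.cast_pow]
  have hom : ∀ z z' : P.Z o D, P.al h12 (z * z') = P.al h12 z * P.al h12 z' ∧
      P.al h12.symm (z * z') = P.al h12.symm z * P.al h12.symm z' := by
    intro z z'
    apply P.sep_pair hn hX h12
    rw [← Nat.cast_lt (α := ℝ), hsubc]
    refine lt_of_le_of_lt ?_ hsum
    set a := P.t o (P.al h12 z).1
    set b := P.t o (P.al h12.symm z).1
    set a' := P.t o (P.al h12 z').1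
    set b' := P.t o (P.al h12.symm z').1
    have s1 : (dis (P.t o (P.al h12 (z * z')).1 * P.t o (P.al h12.symm (z * z')).1)
        (P.t o (z * z').1) : ℝ) ≤ B' := by
      rw [dis_comm]; exact hg _
    have s2 : (dis (P.t o (z * z').1) (P.t o z.1 * P.t o z'.1) : ℝ) ≤ B := by
      rw [dis_comm]; exact mD _ _
    have s3 : (dis (P.t o z.1 * P.t o z'.1) ((a * b) * (a' * b')) : ℝ) ≤ B' + B' :=
      (MM _ _ _ _).trans (add_le_add (hg z) (hg z'))
    have s4 : (dis ((a * b) * (a' * b')) ((a * a') * (b * b')) : ℝ) ≤ C := by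
      have e1 : (a * b) * (a' * b') = a * (b * a') * b' := by group
      have e2 : (a * a') * (b * b') = a * (a' * b) * b' := by group
      rw [e1, e2, dis_mul_right, dis_mul_left, dis_comm]
      exact hC _ _
    have s5 : (dis ((a * a') * (b * b')) (P.t o (P.al h12 z * P.al h12 z').1 *
        P.t o (P.al h12.symm z * P.al h12.symm z').1) : ℝ) ≤ B + B :=
      (MM _ _ _ _).trans (add_le_add (m1 _ _) (m2 _ _))
    have t1 := T (P.t o (P.al h12 (z * z')).1 * P.t o (P.al h12.symm (z * z')).1)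
        (P.t o (z * z').1) (P.t o z.1 * P.t o z'.1)
    have t2 := T (P.t o (P.al h12 (z * z')).1 * P.t o (P.al h12.symm (z * z')).1)
        (P.t o z.1 * P.t o z'.1) ((a * b) * (a' * b'))
    have t3 := T (P.t o (P.al h12 (z * z')).1 * P.t o (P.al h12.symm (z * z')).1)
        ((a * b) * (a' * b')) ((a * a') * (b * b'))
    have t4 := T (P.t o (P.al h12 (z * z')).1 * P.t o (P.al h12.symm (z * z')).1)
        ((a * a') * (b * b')) (P.t o (P.al h12 z * P.al h12 z').1 *
        P.t o (P.al h12.symm z * P.al h12.symm z').1)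
    linarith
  let fa : P.Z o D →* P.Z o D1 := MonoidHom.mk' (fun z => P.al h12 z) (fun z z' => (hom z z').1)
  let fb : P.Z o D →* P.Z o D2 :=
    MonoidHom.mk' (fun z => P.al h12.symm z) (fun z z' => (hom z z').2)
  have ia : Function.Injective fa := by
    intro z z' h
    have h' : P.al h12 z = P.al h12 z' := h
    have h1 := P.al2 h12 z
    have h3 := P.al2 h12 z'
    rw [h'] at h1
    exact Subtype.ext (P.un D D2 hD2 _ _ (z.2.trans z'.2.symm) (h1.symm.trans h3))
  have ib : Function.Injective fb := by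
    intro z z' h
    have h' : P.al h12.symm z = P.al h12.symm z' := h
    have h1 := P.al2 h12.symm z
    have h3 := P.al2 h12.symm z'
    rw [h'] at h1
    exact Subtype.ext (P.un D D1 hD1 _ _ (z.2.trans z'.2.symm) (h1.symm.trans h3))
  have hz1 : P.ln D (P.pt D o D2 x.1) = P.ln D o := P.pt1 hD2 _ _
  have hz2 : P.ln D2 (P.pt D o D2 x.1) = P.ln D2 x.1 := P.pt2 hD2 _ _
  set z : P.Z o D := ⟨P.pt D o D2 x.1, hz1⟩ with hz
  have hfa : fa z = x := by
    apply Subtype.ext
    refine P.un D1 D2 h12 _ _ ((P.al h12 z).2.trans x.2.symm) ?_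
    have := P.al2 h12 z
    exact this.trans hz2
  refine ⟨fb z, z.1, ?_, hz1, hz2, ?_⟩
  · rw [orderOf_injective fb ib z, ← hfa, orderOf_injective fa ia z]
  · exact (P.al2 h12.symm z).symm

end Aff

end Pool.Agent.V11100.AD
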