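import Mathlib
import Pool.Agent.V11100.AD.Transfer

set_option autoImplicit false

/-!
# The order of an affine plane in which most parallelogram configurations at a point close
-/

namespace Pool.Agent.V11100.AD

open Finset Classical

namespace Aff

variable {X A M : Type} (P : Aff X A M) [Fintype X] [Fintype A]

theorem fiber {Y K : Type} [Fintype K] (s : Finset Y) (g : Y → K) (f : Y → ℕ)
    [∀ j, DecidablePred fun i => g i = j] :
    ∑ j, ∑ i ∈ s.filter (fun i => g i = j), f i = ∑ i ∈ s, f i := by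
  simp only [sum_filter]
  rw [sum_comm]
  refine sum_congr rfl fun i _ => ?_
  rw [Finset.sum_eq_single (g i)]
  · rw [if_pos rfl]
  · intro b _ hb
    rw [if_neg (fun h => hb h.symm)]
  · intro h
    exact absurd (mem_univ _) h

/-- the points different from `o` of the line with direction `D` through `o` -/
noncomputable def L (o : X) (D : A) : Finset X :=
  (univ.filter fun x => x ≠ o).filter fun x => P.dir o x = D

theorem mem_L {o x : X} {D : A} : x ∈ P.L o D ↔ x ≠ o ∧ P.ln D x = P.ln D o := by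
  unfold L
  simp only [mem_filter, mem_univ, true_and]
  constructor
  · rintro ⟨h1, h2⟩
    exact ⟨h1, by rw [← h2]; exact (P.dir_spec o x).symm⟩
  · rintro ⟨h1, h2⟩
    exact ⟨h1, (P.dir_unique (fun h => h1 h.symm) h2.symm).symm⟩

theorem fail_self (o : X) : P.fail o o = 0 := by
  unfold fail
  rw [card_eq_zero, filter_eq_empty_iff]
  rintro p _ ⟨_, _, D, h1, h2⟩
  rw [P.t_self] at h2
  exact h2 h1

theorem sum_Fl (o : X) : ∑ D, P.Fl o D ≤ ∑ x, P.fail o x := by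
  have h1 : ∀ D, P.Fl o D = ∑ z ∈ P.L o D, P.fail o z := by
    intro D
    unfold Fl
    rw [← sum_erase (univ.filter fun z => P.ln D z = P.ln D o) (P.fail_self o)]
    refine sum_congr ?_ fun _ _ => rfl
    ext z
    rw [mem_erase, P.mem_L]
    simp
  rw [sum_congr rfl fun D _ => h1 D]
  unfold L
  rw [fiber]
  exact sum_le_sum_of_subset (subset_univ _)

/-- failures for a pair of points -/
noncomputable def ee (o x y : X) : ℕ :=
  (P.e1 o x y + P.e2 o x y) + (P.e1 o y x + P.e2 o y x)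

theorem sum_ee (o : X) : ∑ x, ∑ y, P.ee o x y ≤ 4 * ∑ x, P.fail o x := by
  unfold ee
  have h1 : ∑ x, ∑ y, P.e1 o x y ≤ ∑ x, P.fail o x := sum_le_sum fun x _ => P.sum_e1 o x
  have h2 := P.sum_e2 o
  have h3 : ∑ x, ∑ y, P.e1 o y x = ∑ x, ∑ y, P.e1 o x y := sum_comm
  have h4 : ∑ x, ∑ y, P.e2 o y x = ∑ x, ∑ y, P.e2 o x y := sum_comm
  simp only [sum_add_distrib]
  omega

noncomputable def Q (o : X) (D E : A) : ℕ := ∑ x ∈ P.L o D, ∑ y ∈ P.L o E, P.ee o x y

theorem sum_Q (o : X) : ∑ D, ∑ E, P.Q o D E ≤ 4 * ∑ x, P.fail o x := by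
  refine le_trans ?_ (P.sum_ee o)
  have h1 : ∀ D, ∑ E, P.Q o D E = ∑ x ∈ P.L o D, ∑ y ∈ univ.filter (fun x => x ≠ o),
      P.ee o x y := by
    intro D
    unfold Q
    rw [sum_comm]
    refine sum_congr rfl fun x _ => ?_
    unfold L
    rw [fiber]
  rw [sum_congr rfl fun D _ => h1 D]
  unfold L
  rw [fiber]
  refine (sum_le_sum_of_subset (subset_univ _)).trans ?_
  refine sum_le_sum fun x _ => ?_
  exact sum_le_sum_of_subset (subset_univ _)

theorem choice {n : ℕ} (hA : Fintype.card A = n + 1) (hn : 1000 ≤ n)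
    (o : X) (hF : 10 ^ 4 * ∑ x, P.fail o x ≤ n ^ 5) :
    ∃ (D1 D2 : A) (N : Finset A) (W : Finset (X × X)), D1 ≠ D2 ∧
      100 * P.Fl o D1 ≤ n ^ 4 ∧ 100 * P.Fl o D2 ≤ n ^ 4 ∧ n < 2 * N.card ∧
      (∀ D ∈ N, 100 * P.Fl o D ≤ n ^ 4 ∧ D ≠ D1 ∧ D ≠ D2 ∧
        ∀ p ∈ W, P.dir o (P.t o p.1 p.2) ≠ D) ∧ 100 * W.card ≤ 8 * n ∧
      ∀ x ∈ P.L o D1, ∀ y ∈ P.L o D2, (x, y) ∉ W → 100 * P.ee o x y ≤ n ^ 2 := by
  set Φ := ∑ x, P.fail o x with hΦ
  set Gd : Finset A := univ.filter fun D => 100 * P.Fl o D ≤ n ^ 4 with hGd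
  set Bd : Finset A := univ.filter fun D => ¬ 100 * P.Fl o D ≤ n ^ 4 with hBd
  have hn4 : 0 < n ^ 4 := by positivity
  have hn2 : 0 < n ^ 2 := by positivity
  have hcard : Gd.card + Bd.card = n + 1 := by
    rw [← hA, ← card_univ]
    exact card_filter_add_card_filter_not _
  have hBc : 100 * Bd.card ≤ n := by
    have h1 : Bd.card * n ^ 4 ≤ ∑ D ∈ Bd, 100 * P.Fl o D := by
      rw [← smul_eq_mul, ← sum_const]
      refine sum_le_sum fun D hD => ?_
      have : ¬ 100 * P.Fl o D ≤ n ^ 4 := by simpa [hBd] using hD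
      omega
    have h2 : ∑ D ∈ Bd, 100 * P.Fl o D ≤ 100 * Φ := by
      rw [← mul_sum]
      refine Nat.mul_le_mul_left _ (le_trans (sum_le_sum_of_subset (subset_univ _)) (P.sum_Fl o))
    have h3 : (100 * Bd.card) * n ^ 4 ≤ n * n ^ 4 := by
      calc (100 * Bd.card) * n ^ 4 = 100 * (Bd.card * n ^ 4) := by ring
        _ ≤ 100 * (100 * Φ) := Nat.mul_le_mul_left _ (h1.trans h2)
        _ = 10 ^ 4 * Φ := by ring
        _ ≤ n ^ 5 := hF
        _ = n * n ^ 4 := by ring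
    exact Nat.le_of_mul_le_mul_right h3 hn4
  have hGc : 99 * n + 100 ≤ 100 * Gd.card := by omega
  have hoff : n ^ 2 ≤ 2 * Gd.offDiag.card := by
    rw [offDiag_card]
    have h1 : Gd.card ≤ Gd.card * Gd.card := Nat.le_mul_self _
    zify [h1]
    have h2 : (99 * n + 100 : ℤ) ≤ 100 * Gd.card := by exact_mod_cast hGc
    nlinarith
  have hone : Gd.offDiag.Nonempty := by
    rw [← card_pos]; omega
  obtain ⟨⟨D1, D2⟩, hmem, hQ⟩ := exists_le_of_sum_le (s := Gd.offDiag)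
    (f := fun p => Gd.offDiag.card * P.Q o p.1 p.2) (g := fun _ => 4 * Φ) hone (by
      rw [← mul_sum, sum_const, smul_eq_mul]
      refine Nat.mul_le_mul_left _ (le_trans ?_ (P.sum_Q o))
      rw [← Fintype.sum_prod_type' (f := fun D E => P.Q o D E)]
      exact sum_le_sum_of_subset (subset_univ _))
  simp only at hQ
  rw [mem_offDiag] at hmem
  obtain ⟨hD1, hD2, h12⟩ := hmem
  simp only at hD1 hD2 h12
  have hg1 : 100 * P.Fl o D1 ≤ n ^ 4 := by simpa [hGd] using hD1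
  have hg2 : 100 * P.Fl o D2 ≤ n ^ 4 := by simpa [hGd] using hD2
  have hQ2 : 10 ^ 4 * P.Q o D1 D2 ≤ 8 * n ^ 3 := by
    have h3 : (10 ^ 4 * P.Q o D1 D2) * n ^ 2 ≤ (8 * n ^ 3) * n ^ 2 := by
      calc (10 ^ 4 * P.Q o D1 D2) * n ^ 2 ≤ (10 ^ 4 * P.Q o D1 D2) * (2 * Gd.offDiag.card) :=
            Nat.mul_le_mul_left _ hoff
        _ = 2 * 10 ^ 4 * (Gd.offDiag.card * P.Q o D1 D2) := by ring
        _ ≤ 2 * 10 ^ 4 * (4 * Φ) := Nat.mul_le_mul_left _ hQ
        _ = 8 * (10 ^ 4 * Φ) := by ring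
        _ ≤ 8 * n ^ 5 := Nat.mul_le_mul_left _ hF
        _ = (8 * n ^ 3) * n ^ 2 := by ring
    exact Nat.le_of_mul_le_mul_right h3 hn2
  set W : Finset (X × X) := (P.L o D1 ×ˢ P.L o D2).filter fun p => n ^ 2 < 100 * P.ee o p.1 p.2
    with hW
  have hWc : 100 * W.card ≤ 8 * n := by
    have h1 : W.card * n ^ 2 ≤ 100 * P.Q o D1 D2 := by
      calc W.card * n ^ 2 = ∑ p ∈ W, n ^ 2 := by rw [sum_const, smul_eq_mul]
        _ ≤ ∑ p ∈ W, 100 * P.ee o p.1 p.2 := by
            refine sum_le_sum fun p hp => ?_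
            have := (mem_filter.1 hp).2
            omega
        _ ≤ ∑ p ∈ P.L o D1 ×ˢ P.L o D2, 100 * P.ee o p.1 p.2 :=
            sum_le_sum_of_subset (filter_subset _ _)
        _ = 100 * P.Q o D1 D2 := by
            rw [← mul_sum, sum_product]; rfl
    have h3 : (100 * W.card) * n ^ 2 ≤ (8 * n) * n ^ 2 := by
      calc (100 * W.card) * n ^ 2 = 100 * (W.card * n ^ 2) := by ring
        _ ≤ 100 * (100 * P.Q o D1 D2) := Nat.mul_le_mul_left _ h1
        _ = 10 ^ 4 * P.Q o D1 D2 := by ring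
        _ ≤ 8 * n ^ 3 := hQ2
        _ = (8 * n) * n ^ 2 := by ring
    exact Nat.le_of_mul_le_mul_right h3 hn2
  set N : Finset A := univ.filter fun D => 100 * P.Fl o D ≤ n ^ 4 ∧ D ≠ D1 ∧ D ≠ D2 ∧
        ∀ p ∈ W, P.dir o (P.t o p.1 p.2) ≠ D with hN
  refine ⟨D1, D2, N, W, h12, hg1, hg2, ?_, ?_, hWc, ?_⟩
  · have hsub : (univ : Finset A) ⊆ N ∪ (Bd ∪ ({D1, D2} ∪
        W.image fun p => P.dir o (P.t o p.1 p.2))) := by
      intro D _
      simp only [hN, hBd, mem_union, mem_filter, mem_univ, true_and, mem_insert, mem_singleton,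
        mem_image]
      by_contra hc
      push Not at hc
      obtain ⟨c1, c2, c3, c4⟩ := hc
      obtain ⟨p, hp, hpe⟩ := c1 c2 c3.1 c3.2
      exact c4 p hp hpe
    have h1 := card_le_card hsub
    rw [card_univ, hA] at h1
    have u1 := card_union_le N (Bd ∪ ({D1, D2} ∪ W.image fun p => P.dir o (P.t o p.1 p.2)))
    have u2 := card_union_le Bd ({D1, D2} ∪ W.image fun p => P.dir o (P.t o p.1 p.2))
    have u3 := card_union_le {D1, D2} (W.image fun p => P.dir o (P.t o p.1 p.2))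
    have u4 := card_image_le (s := W) (f := fun p => P.dir o (P.t o p.1 p.2))
    have u5 : ({D1, D2} : Finset A).card ≤ 2 := card_le_two
    omega
  · intro D hD
    exact (mem_filter.1 hD).2
  · intro x hx y hy hxy
    by_contra hc
    exact hxy (mem_filter.2 ⟨mem_product.2 ⟨hx, hy⟩, by simpa using hc⟩)

end Aff

end Pool.Agent.V11100.AD
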