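import Mathlib
import Pool.Agent.V11100.AD.Main

set_option autoImplicit false

/-!
# The order is a prime power
-/

namespace Pool.Agent.V11100.AD

open Finset Classical

namespace Aff

variable {X A M : Type} (P : Aff X A M) [Fintype X] [Fintype A]

noncomputable instance instFZ (o : X) (D : A) : Fintype (P.Z o D) :=
  inferInstanceAs (Fintype {z : X // P.ln D z = P.ln D o})

omit [Fintype A] in
theorem card_Z {n : ℕ} (hn : P.Lines n) (o : X) (D : A) : Fintype.card (P.Z o D) = n := by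
  rw [← hn D o]
  exact Fintype.card_subtype _

theorem affine_main {n : ℕ} (hn : P.Lines n) (hX : Fintype.card X = n ^ 2)
    (hA : Fintype.card A = n + 1) (h1000 : 1000 ≤ n) (o : X)
    (hF : 10 ^ 4 * ∑ x, P.fail o x ≤ n ^ 5) : IsPrimePow n := by
  obtain ⟨D1, D2, N, W, h12, hg1, hg2, hNc, hN, hWc, hgood⟩ := P.choice hA h1000 o hF
  have hnR : (1000 : ℝ) ≤ n := by exact_mod_cast h1000
  have T : ∀ f g h : Equiv.Perm X, (dis f h : ℝ) ≤ dis f g + dis g h := by
    intro f g h; exact_mod_cast dis_tri f g h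
  have hB4 : 4 * ((n : ℝ) ^ 2 / 25) < (n : ℝ) ^ 2 - n := by nlinarith
  have hBD : ∀ D, 100 * P.Fl o D ≤ n ^ 4 →
      3 * (P.Fl o D : ℝ) + 6 * (n : ℝ) ^ 3 ≤ ((n : ℝ) ^ 2 - n) * ((n : ℝ) ^ 2 / 25) := by
    intro D hD
    have h1 : 100 * (P.Fl o D : ℝ) ≤ (n : ℝ) ^ 4 := by exact_mod_cast hD
    have h2 : 1000 * (n : ℝ) ^ 3 ≤ (n : ℝ) ^ 4 := by
      have : (0 : ℝ) ≤ (n : ℝ) ^ 3 := by positivity
      nlinarith
    have h3 : ((n : ℝ) ^ 2 - n) * ((n : ℝ) ^ 2 / 25) = (n : ℝ) ^ 4 / 25 - (n : ℝ) ^ 3 / 25 := by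
      ring
    rw [h3]
    linarith
  have h2n : 2 ≤ n := by omega
  obtain ⟨g1, e1, m1⟩ := P.group_line hn hX h2n o D1 ((n : ℝ) ^ 2 / 25) (hBD D1 hg1) hB4
  obtain ⟨g2, e2, m2⟩ := P.group_line hn hX h2n o D2 ((n : ℝ) ^ 2 / 25) (hBD D2 hg2) hB4
  have hgp : ∀ x ∈ P.L o D1, ∀ y ∈ P.L o D2, (x, y) ∉ W →
      (dis (P.t o x * P.t o y) (P.t o (P.t o x y)) : ℝ) ≤ (n : ℝ) ^ 2 / 50 ∧
      (dis (P.t o y * P.t o x) (P.t o (P.t o x y)) : ℝ) ≤ (n : ℝ) ^ 2 / 50 := by
    intro x hx y hy hxy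
    have hx' := P.mem_L.1 hx
    have hy' := P.mem_L.1 hy
    have dx : D1 = P.dir o x := P.dir_unique (fun h => hx'.1 h.symm) hx'.2.symm
    have hoff : P.off o x y := by
      unfold off
      rw [← dx]
      intro hc
      exact hy'.1 (P.un D1 D2 h12 _ _ hc hy'.2)
    have hoff' : P.off o y x := P.off_symm hx'.1 hoff
    have hsy : P.t o x y = P.t o y x := P.t_symm hx'.1 hoff
    have he := hgood x hx y hy hxy
    have a1 := P.dis_assoc hn hx'.1 hy'.1 hoff
    have a2 := P.dis_assoc hn hy'.1 hx'.1 hoff'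
    rw [← hsy] at a2
    unfold ee at he
    have b1 : 100 * dis (P.t o x * P.t o y) (P.t o (P.t o x y)) ≤ 400 * n + n ^ 2 := by omega
    have b2 : 100 * dis (P.t o y * P.t o x) (P.t o (P.t o x y)) ≤ 400 * n + n ^ 2 := by omega
    have c1 : 100 * (dis (P.t o x * P.t o y) (P.t o (P.t o x y)) : ℝ) ≤
      400 * n + (n : ℝ) ^ 2 := by exact_mod_cast b1
    have c2 : 100 * (dis (P.t o y * P.t o x) (P.t o (P.t o x y)) : ℝ) ≤
      400 * n + (n : ℝ) ^ 2 := by exact_mod_cast b2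
    constructor <;> nlinarith
  have hcomm0 : ∀ (x : P.Z o D1) (y : P.Z o D2), ¬ (x.1 ≠ o ∧ y.1 ≠ o ∧ (x.1, y.1) ∈ W) →
      (dis (P.t o x.1 * P.t o y.1) (P.t o y.1 * P.t o x.1) : ℝ) ≤ (n : ℝ) ^ 2 / 25 := by
    intro x y h
    by_cases hx : x.1 = o
    · rw [hx, P.t_self, one_mul, mul_one, dis_self]
      simp only [CharP.cast_eq_zero]; positivity
    by_cases hy : y.1 = o
    · rw [hy, P.t_self, one_mul, mul_one, dis_self]
      simp only [CharP.cast_eq_zero]; positivity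
    have hW' : (x.1, y.1) ∉ W := fun hc => h ⟨hx, hy, hc⟩
    obtain ⟨h1, h2⟩ := hgp x.1 (P.mem_L.2 ⟨hx, x.2⟩) y.1 (P.mem_L.2 ⟨hy, y.2⟩) hW'
    have h3 := T (P.t o x.1 * P.t o y.1) (P.t o (P.t o x.1 y.1)) (P.t o y.1 * P.t o x.1)
    rw [dis_comm (P.t o (P.t o x.1 y.1))] at h3
    linarith
  have hcomm : ∀ (x : P.Z o D1) (y : P.Z o D2),
      (dis (P.t o x.1 * P.t o y.1) (P.t o y.1 * P.t o x.1) : ℝ) ≤ 4 * (n : ℝ) ^ 2 / 25 := by
    intro x y
    set U : Finset (P.Z o D1) := univ.filter fun u => u.1 ≠ o ∧ y.1 ≠ o ∧ (u.1, y.1) ∈ W with hU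
    have hUc : U.card ≤ W.card := by
      refine card_le_card_of_injOn (fun u => (u.1, y.1)) ?_ ?_
      · intro u hu
        have := (mem_filter.1 (mem_coe.1 hu)).2
        exact this.2.2
      · intro a _ b _ h
        simp only [Prod.mk.injEq, and_true] at h
        exact Subtype.ext h
    obtain ⟨u, hu⟩ : ∃ u : P.Z o D1, u ∉ U ∧ u⁻¹ * x ∉ U := by
      by_contra hc
      push Not at hc
      have hsub : (univ : Finset (P.Z o D1)) ⊆ U ∪ U.image fun v => x * v⁻¹ := by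
        intro u _
        rw [mem_union]
        by_cases hu : u ∈ U
        · exact Or.inl hu
        · refine Or.inr (mem_image.2 ⟨u⁻¹ * x, hc u hu, ?_⟩)
          group
      have h1 := card_le_card hsub
      rw [card_univ, P.card_Z hn] at h1
      have u1 := card_union_le U (U.image fun v => x * v⁻¹)
      have u2 := card_image_le (s := U) (f := fun v => x * v⁻¹)
      omega
    set v : P.Z o D1 := u⁻¹ * x with hv
    have hx : u * v = x := by rw [hv]; group
    have k1 := hcomm0 u y (fun h => hu.1 (mem_filter.2 ⟨mem_univ _, h⟩))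
    have k2 := hcomm0 v y (fun h => hu.2 (mem_filter.2 ⟨mem_univ _, h⟩))
    have k3 := m1 u v
    rw [hx] at k3
    have s1 : (dis (P.t o x.1 * P.t o y.1) (P.t o u.1 * P.t o v.1 * P.t o y.1) : ℝ) ≤
        (n : ℝ) ^ 2 / 25 := by
      rw [dis_mul_right, dis_comm]; exact k3
    have s2 : (dis (P.t o u.1 * P.t o v.1 * P.t o y.1) (P.t o u.1 * P.t o y.1 * P.t o v.1) : ℝ) ≤
        (n : ℝ) ^ 2 / 25 := by
      rw [mul_assoc, mul_assoc, dis_mul_left]; exact k2
    have s3 : (dis (P.t o u.1 * P.t o y.1 * P.t o v.1) (P.t o y.1 * P.t o u.1 * P.t o v.1) : ℝ) ≤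
        (n : ℝ) ^ 2 / 25 := by
      rw [dis_mul_right]; exact k1
    have s4 : (dis (P.t o y.1 * P.t o u.1 * P.t o v.1) (P.t o y.1 * P.t o x.1) : ℝ) ≤
        (n : ℝ) ^ 2 / 25 := by
      rw [mul_assoc, dis_mul_left]; exact k3
    have t1 := T (P.t o x.1 * P.t o y.1) (P.t o u.1 * P.t o v.1 * P.t o y.1)
      (P.t o u.1 * P.t o y.1 * P.t o v.1)
    have t2 := T (P.t o x.1 * P.t o y.1) (P.t o u.1 * P.t o y.1 * P.t o v.1)
      (P.t o y.1 * P.t o u.1 * P.t o v.1)
    have t3 := T (P.t o x.1 * P.t o y.1) (P.t o y.1 * P.t o u.1 * P.t o v.1)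
      (P.t o y.1 * P.t o x.1)
    linarith
  have htr : ∀ (x : P.Z o D1), ∀ D ∈ N, ∃ (y : P.Z o D2) (z : X), orderOf y = orderOf x ∧
      P.ln D z = P.ln D o ∧ P.ln D2 z = P.ln D2 x.1 ∧ P.ln D1 z = P.ln D1 y.1 := by
    intro x D hD
    obtain ⟨hDg, hD1, hD2, hDW⟩ := hN D hD
    obtain ⟨gD, eD, mD⟩ := P.group_line hn hX h2n o D ((n : ℝ) ^ 2 / 25) (hBD D hDg) hB4
    refine P.transfer hn hX h2n h12 hD1 hD2 ((n : ℝ) ^ 2 / 25) ((n : ℝ) ^ 2 / 50)
      (4 * (n : ℝ) ^ 2 / 25) m1 m2 mD hcomm ?_ (by nlinarith) x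
    intro z
    by_cases hz : z.1 = o
    · have q1 : (P.al h12 z).1 = o := by
        refine P.un D1 D2 h12 _ _ (P.al h12 z).2 ?_
        rw [P.al2 h12 z, hz]
      have q2 : (P.al h12.symm z).1 = o := by
        refine P.un D2 D1 h12.symm _ _ (P.al h12.symm z).2 ?_
        rw [P.al2 h12.symm z, hz]
      rw [hz, q1, q2, P.t_self, one_mul, dis_self]
      simp only [CharP.cast_eq_zero]; positivity
    · have hx0 := P.al_ne h12 hD2 z hz
      have hy0 := P.al_ne h12.symm hD1 z hz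
      obtain ⟨_, ht⟩ := P.al_t h12 hD1 hD2 z hz
      have hnW : ((P.al h12 z).1, (P.al h12.symm z).1) ∉ W := by
        intro hc
        apply hDW _ hc
        simp only
        rw [ht]
        exact (P.dir_unique (fun h => hz h.symm) z.2.symm).symm
      have := (hgp _ (P.mem_L.2 ⟨hx0, (P.al h12 z).2⟩) _
        (P.mem_L.2 ⟨hy0, (P.al h12.symm z).2⟩) hnW).1
      rw [ht, dis_comm] at this
      exact this
  have hprime : ∀ p : ℕ, p.Prime → p ∣ n →
      N.card ≤ (univ.filter fun y : P.Z o D2 => orderOf y = p).card := by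
    intro p hp hpn
    have hpf : Fact p.Prime := ⟨hp⟩
    obtain ⟨x, hx⟩ := exists_prime_orderOf_dvd_card (G := P.Z o D1) p (by
      rw [P.card_Z hn]; exact hpn)
    have hne : Nonempty X := ⟨o⟩
    choose! y z hy hz1 hz2 hz3 using htr x
    refine card_le_card_of_injOn y ?_ ?_
    · intro D hD
      simp only [coe_filter, mem_univ, true_and, Set.mem_ofPred_eq]
      rw [hy D hD, hx]
    · intro D hD D' hD' hDD
      by_contra hne
      have hzz : z D = z D' := by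
        refine P.un D1 D2 h12 _ _ ?_ ((hz2 D hD).trans (hz2 D' hD').symm)
        rw [hz3 D hD, hz3 D' hD', hDD]
      have hz0 : z D = o := by
        refine P.un D D' hne _ _ (hz1 D hD) ?_
        rw [hzz]; exact hz1 D' hD'
      have hx0 : x.1 = o := by
        refine P.un D1 D2 h12 _ _ x.2 ?_
        rw [← hz2 D hD, hz0]
      have hx1 : x = 1 := by
        rw [e1]; exact Subtype.ext hx0
      rw [hx1, orderOf_one] at hx
      exact hp.one_lt.ne hx
  rw [isPrimePow_iff_unique_prime_dvd]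
  refine ⟨n.minFac, ⟨Nat.minFac_prime (by omega), Nat.minFac_dvd n⟩, ?_⟩
  rintro q ⟨hq, hqn⟩
  by_contra hne
  have h1 := hprime q hq hqn
  have h2 := hprime n.minFac (Nat.minFac_prime (by omega)) (Nat.minFac_dvd n)
  have hdisj : Disjoint (univ.filter fun y : P.Z o D2 => orderOf y = q)
      (univ.filter fun y : P.Z o D2 => orderOf y = n.minFac) := by
    rw [disjoint_left]
    intro y hy hy'
    rw [mem_filter] at hy hy'
    exact hne (hy.2.symm.trans hy'.2)
  have h3 := card_union_of_disjoint hdisj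
  have h4 : ((univ.filter fun y : P.Z o D2 => orderOf y = q) ∪
      (univ.filter fun y : P.Z o D2 => orderOf y = n.minFac)).card ≤ n := by
    rw [← P.card_Z hn o D2, ← card_univ]
    exact card_le_card (subset_univ _)
  omega

end Aff

end Pool.Agent.V11100.AD
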