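import Mathlib
import Pool.Agent.V11100.AD.Final

set_option autoImplicit false

/-!
# Projective planes
-/

namespace Pool.Agent.V11100.AD

open Configuration Configuration.ProjectivePlane Finset Classical

section
variable {P L : Type} [Membership P L] [ProjectivePlane P L]

/-- the line through a point of `a` and a point off `a` -/
noncomputable def join (a : L) (D : {p : P // p ∈ a}) (x : {p : P // p ∉ a}) : L :=
  HasLines.mkLine (L := L) (p₁ := D.1) (p₂ := x.1) (fun h => x.2 (h ▸ D.2))

theorem join_l (a : L) (D : {p : P // p ∈ a}) (x : {p : P // p ∉ a}) : D.1 ∈ join a D x :=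
  (HasLines.mkLine_ax (L := L) (p₁ := D.1) (p₂ := x.1) (fun h => x.2 (h ▸ D.2))).1

theorem join_r (a : L) (D : {p : P // p ∈ a}) (x : {p : P // p ∉ a}) : x.1 ∈ join a D x :=
  (HasLines.mkLine_ax (L := L) (p₁ := D.1) (p₂ := x.1) (fun h => x.2 (h ▸ D.2))).2

theorem join_eq {a : L} {D : {p : P // p ∈ a}} {x : {p : P // p ∉ a}} {g : L} (hD : D.1 ∈ g)
    (hx : x.1 ∈ g) : join a D x = g := by
  rcases Nondegenerate.eq_or_eq (join_l a D x) (join_r a D x) hD hx with h | h
  · exact absurd D.2 (h ▸ x.2)
  · exact h

theorem join_ne_a (a : L) (D : {p : P // p ∈ a}) (x : {p : P // p ∉ a}) : join a D x ≠ a := by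
  intro h
  have h1 := join_r a D x
  rw [h] at h1
  exact x.2 h1

theorem join_eq_iff {a : L} {D : {p : P // p ∈ a}} {x y : {p : P // p ∉ a}} :
    join a D x = join a D y ↔ y.1 ∈ join a D x := by
  constructor
  · intro h; rw [h]; exact join_r a D y
  · intro h; exact (join_eq (join_l a D x) h).symm

theorem join_ne {a : L} {D E : {p : P // p ∈ a}} (h : D ≠ E) (x y : {p : P // p ∉ a}) :
    join a D x ≠ join a E y := by
  intro hc
  have h1 : E.1 ∈ join a D x := by rw [hc]; exact join_l a E y
  rcases Nondegenerate.eq_or_eq (join_l a D x) h1 D.2 E.2 with h2 | h2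
  · exact h (Subtype.ext h2)
  · exact join_ne_a a D x h2

variable [Finite P] [Finite L]

theorem exists_on (a : L) : ∃ p : P, p ∈ a := by
  have h := pointCount_eq (P := P) a
  unfold pointCount at h
  have : Nonempty {p : P // p ∈ a} := by
    have hpos : 0 < Nat.card {p : P // p ∈ a} := by rw [h]; omega
    exact (Nat.card_pos_iff.1 hpos).1
  exact ⟨this.some.1, this.some.2⟩

/-- the affine plane obtained by removing the line `a` -/
noncomputable def aff (a : L) : Aff {p : P // p ∉ a} {p : P // p ∈ a} L where
  ln := fun D x => join a D x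
  ex := by
    intro D E h x y
    have hne := join_ne h x y
    obtain ⟨h1, h2⟩ := HasPoints.mkPoint_ax (P := P) hne
    set w := HasPoints.mkPoint (P := P) hne
    have hw : w ∉ a := by
      intro hc
      have e1 : w = D.1 := (Nondegenerate.eq_or_eq h1 (join_l a D x) hc D.2).resolve_right
        (join_ne_a a D x)
      have e2 : w = E.1 := (Nondegenerate.eq_or_eq h2 (join_l a E y) hc E.2).resolve_right
        (join_ne_a a E y)
      exact h (Subtype.ext (e1.symm.trans e2))
    exact ⟨⟨w, hw⟩, join_eq (join_l a D x) h1, join_eq (join_l a E y) h2⟩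
  un := by
    intro D E h w w' h1 h2
    have e1 : w'.1 ∈ join a D w := join_eq_iff.1 h1
    have e2 : w'.1 ∈ join a E w := join_eq_iff.1 h2
    exact Subtype.ext ((Nondegenerate.eq_or_eq (join_r a D w) e1 (join_r a E w) e2).resolve_right
      (join_ne h w w))
  dr := by
    intro x y
    by_cases hxy : x = y
    · obtain ⟨p, hp⟩ := exists_on (P := P) a
      exact ⟨⟨p, hp⟩, by rw [hxy]⟩
    have hxy' : x.1 ≠ y.1 := fun h => hxy (Subtype.ext h)
    obtain ⟨g, g1, g2⟩ : ∃ g : L, x.1 ∈ g ∧ y.1 ∈ g := ⟨_, HasLines.mkLine_ax (L := L) hxy'⟩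
    have hga : g ≠ a := by
      intro h
      rw [h] at g1
      exact x.2 g1
    obtain ⟨c, c1, c2⟩ : ∃ c : P, c ∈ g ∧ c ∈ a := ⟨_, HasPoints.mkPoint_ax (P := P) hga⟩
    refine ⟨⟨c, c2⟩, ?_⟩
    rw [join_eq (x := x) c1 g1, join_eq (x := y) c1 g2]

theorem aff_ln (a : L) (D : {p : P // p ∈ a}) (x : {p : P // p ∉ a}) :
    (aff a).ln D x = join a D x := rfl

end

section
variable {P L : Type} [Membership P L] [ProjectivePlane P L] [Fintype P] [Finite L]

theorem card_on (a : L) : Fintype.card {p : P // p ∈ a} = order P L + 1 := by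
  rw [← Nat.card_eq_fintype_card]
  exact pointCount_eq (P := P) a

theorem card_off (a : L) : Fintype.card {p : P // p ∉ a} = order P L ^ 2 := by
  have h1 := Fintype.card_subtype_compl (fun p : P => p ∈ a)
  rw [card_on, card_points P L] at h1
  rw [h1]
  omega

theorem lines (a : L) : (aff (P := P) a).Lines (order P L) := by
  intro D x
  have h1 : (univ.filter fun y : {p : P // p ∉ a} => (aff a).ln D y = (aff a).ln D x).card =
      ((univ.filter fun p : P => p ∈ join a D x).erase D.1).card := by
    refine card_bij (fun y _ => y.1) ?_ ?_ ?_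
    · intro y hy
      simp only [mem_filter, mem_univ, true_and, aff_ln] at hy
      rw [mem_erase]
      refine ⟨fun h => y.2 (h ▸ D.2), ?_⟩
      simp only [mem_filter, mem_univ, true_and]
      rw [← hy]
      exact join_r a D y
    · intro y _ z _ h
      exact Subtype.ext h
    · intro p hp
      rw [mem_erase, mem_filter] at hp
      have hpa : p ∉ a := by
        intro hc
        exact hp.1 ((Nondegenerate.eq_or_eq hp.2.2 (join_l a D x) hc D.2).resolve_right
          (join_ne_a a D x))
      refine ⟨⟨p, hpa⟩, ?_, rfl⟩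
      simp only [mem_filter, mem_univ, true_and, aff_ln]
      exact (join_eq_iff.2 hp.2.2).symm
  rw [h1, card_erase_of_mem (by simp [join_l])]
  have h2 : (univ.filter fun p : P => p ∈ join a D x).card = order P L + 1 := by
    rw [← card_on (join a D x)]
    exact (Fintype.card_subtype _).symm
  omega

end

end Pool.Agent.V11100.AD
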