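import Mathlib
import Pool.Agent.V11100.AD.Plane

set_option autoImplicit false
set_option linter.unusedSectionVars false

/-!
# Hessenberg's argument for one minor Desargues configuration
-/

namespace Pool.Agent.V11100.AD

open Configuration

section
variable {P L : Type} [Membership P L]

/-- The line through `p` and `q` and the line through `r` and `s` meet in a point of `a`. -/
def MOn (a : L) (p q r s : P) : Prop :=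
  ∃ b : P, b ∈ a ∧ ∃ g h : L, (p ∈ g ∧ q ∈ g ∧ b ∈ g) ∧ (r ∈ h ∧ s ∈ h ∧ b ∈ h)

def Hx (L : Type) [Membership P L] (p1 p2 p3 q1 q2 q3 : P) : Prop :=
  ∃ g h : L, (p1 ∈ g ∧ p2 ∈ g ∧ p3 ∈ g) ∧ (q1 ∈ h ∧ q2 ∈ h ∧ q3 ∈ h) ∧
    (p1 ∉ h ∧ p2 ∉ h ∧ p3 ∉ h) ∧ (q1 ∉ g ∧ q2 ∉ g ∧ q3 ∉ g) ∧
    (p1 ≠ p2 ∧ p1 ≠ p3 ∧ p2 ≠ p3) ∧ (q1 ≠ q2 ∧ q1 ≠ q3 ∧ q2 ≠ q3)

def OHx (L : Type) [Membership P L] (p1 p2 p3 q1 q2 q3 : P) : Prop :=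
  Hx L p1 p2 p3 q1 q2 q3 ∧
    ¬ ∃ j : L, MOn j p1 q2 p2 q1 ∧ MOn j p1 q3 p3 q1 ∧ MOn j p2 q3 p3 q2

variable [ProjectivePlane P L]

theorem ll {p q : P} {g h : L} (n : p ≠ q) (a1 : p ∈ g) (a2 : q ∈ g) (a3 : p ∈ h) (a4 : q ∈ h) :
    g = h := (Nondegenerate.eq_or_eq a1 a2 a3 a4).resolve_left n

theorem pp {g h : L} {p q : P} (n : g ≠ h) (a1 : p ∈ g) (a2 : p ∈ h) (a3 : q ∈ g) (a4 : q ∈ h) :
    p = q := (Nondegenerate.eq_or_eq a1 a3 a2 a4).resolve_right n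

theorem MOn.elim {j : L} {p q r s b : P} {g h : L} (H : MOn j p q r s) (pq : p ≠ q) (rs : r ≠ s)
    (pg : p ∈ g) (qg : q ∈ g) (rh : r ∈ h) (sh : s ∈ h) (gh : g ≠ h) (bg : b ∈ g) (bh : b ∈ h) :
    b ∈ j := by
  obtain ⟨b', hb, g', h', ⟨i1, i2, i3⟩, i4, i5, i6⟩ := H
  have e1 : g' = g := ll pq i1 i2 pg qg
  have e2 : h' = h := ll rs i4 i5 rh sh
  subst e1 e2
  rw [pp gh bg bh i3 i6]
  exact hb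

structure Cfg (a : L) (c s t o x w w' v v' : P) (l m k g1 h1 g2 h2 : L) : Prop where
  ca : c ∈ a
  sa : s ∈ a
  ta : t ∈ a
  oa : o ∉ a
  xa : x ∉ a
  wa : w ∉ a
  wa' : w' ∉ a
  va : v ∉ a
  va' : v' ∉ a
  cl : c ∈ l
  ol : o ∈ l
  xl : x ∈ l
  cm : c ∈ m
  wm : w ∈ m
  wm' : w' ∈ m
  ck : c ∈ k
  vk : v ∈ k
  vk' : v' ∈ k
  lm : l ≠ m
  lk : l ≠ k
  nmk : m ≠ k
  ox : o ≠ x
  og1 : o ∈ g1
  wg1 : w ∈ g1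
  sg1 : s ∈ g1
  xh1 : x ∈ h1
  wh1 : w' ∈ h1
  sh1 : s ∈ h1
  og2 : o ∈ g2
  vg2 : v ∈ g2
  tg2 : t ∈ g2
  xh2 : x ∈ h2
  vh2 : v' ∈ h2
  th2 : t ∈ h2
  op : ¬ MOn a w v w' v'
  e1 : w' ∉ g2
  e2 : v ∉ h1

namespace Cfg
variable {a : L} {c s t o x w w' v v' : P} {l m k g1 h1 g2 h2 : L}
  (H : Cfg a c s t o x w w' v v' l m k g1 h1 g2 h2)
include H

theorem co : c ≠ o := fun h => H.oa (h ▸ H.ca)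
theorem cx : c ≠ x := fun h => H.xa (h ▸ H.ca)
theorem cw : c ≠ w := fun h => H.wa (h ▸ H.ca)
theorem cw' : c ≠ w' := fun h => H.wa' (h ▸ H.ca)
theorem cv : c ≠ v := fun h => H.va (h ▸ H.ca)
theorem cv' : c ≠ v' := fun h => H.va' (h ▸ H.ca)
theorem so : s ≠ o := fun h => H.oa (h ▸ H.sa)
theorem sx : s ≠ x := fun h => H.xa (h ▸ H.sa)
theorem sw : s ≠ w := fun h => H.wa (h ▸ H.sa)
theorem sw' : s ≠ w' := fun h => H.wa' (h ▸ H.sa)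
theorem to_ : t ≠ o := fun h => H.oa (h ▸ H.ta)
theorem tx : t ≠ x := fun h => H.xa (h ▸ H.ta)
theorem tv : t ≠ v := fun h => H.va (h ▸ H.ta)
theorem tv' : t ≠ v' := fun h => H.va' (h ▸ H.ta)
theorem om : o ∉ m := fun h => H.lm (ll H.co H.cl H.ol H.cm h)
theorem ok : o ∉ k := fun h => H.lk (ll H.co H.cl H.ol H.ck h)
theorem xm : x ∉ m := fun h => H.lm (ll H.cx H.cl H.xl H.cm h)
theorem xk : x ∉ k := fun h => H.lk (ll H.cx H.cl H.xl H.ck h)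
theorem wl : w ∉ l := fun h => H.lm (ll H.cw H.cl h H.cm H.wm)
theorem wk : w ∉ k := fun h => H.nmk (ll H.cw H.cm H.wm H.ck h)
theorem wl' : w' ∉ l := fun h => H.lm (ll H.cw' H.cl h H.cm H.wm')
theorem wk' : w' ∉ k := fun h => H.nmk (ll H.cw' H.cm H.wm' H.ck h)
theorem vl : v ∉ l := fun h => H.lk (ll H.cv H.cl h H.ck H.vk)
theorem vm : v ∉ m := fun h => H.nmk (ll H.cv H.cm h H.ck H.vk)
theorem vl' : v' ∉ l := fun h => H.lk (ll H.cv' H.cl h H.ck H.vk')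
theorem vm' : v' ∉ m := fun h => H.nmk (ll H.cv' H.cm h H.ck H.vk')
theorem ow : o ≠ w := fun h => H.om (h ▸ H.wm)
theorem ov : o ≠ v := fun h => H.ok (h ▸ H.vk)
theorem xw' : x ≠ w' := fun h => H.xm (h ▸ H.wm')
theorem xv' : x ≠ v' := fun h => H.xk (h ▸ H.vk')
theorem wv : w ≠ v := fun h => H.wk (h ▸ H.vk)
theorem wv' : w' ≠ v' := fun h => H.wk' (h ▸ H.vk')
theorem w'v : w' ≠ v := fun h => H.wk' (h ▸ H.vk)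
theorem cg1 : c ∉ g1 := fun h => H.wl (ll H.co h H.og1 H.cl H.ol ▸ H.wg1)
theorem ch1 : c ∉ h1 := fun h => H.wl' (ll H.cx h H.xh1 H.cl H.xl ▸ H.wh1)
theorem cg2 : c ∉ g2 := fun h => H.vl (ll H.co h H.og2 H.cl H.ol ▸ H.vg2)
theorem ch2 : c ∉ h2 := fun h => H.vl' (ll H.cx h H.xh2 H.cl H.xl ▸ H.vh2)
theorem cs : c ≠ s := fun h => H.cg1 (h ▸ H.sg1)
theorem ct : c ≠ t := fun h => H.cg2 (h ▸ H.tg2)
theorem xg1 : x ∉ g1 := fun h => H.cg1 (ll H.ox H.ol H.xl H.og1 h ▸ H.cl)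
theorem oh1 : o ∉ h1 := fun h => H.ch1 (ll H.ox H.ol H.xl h H.xh1 ▸ H.cl)
theorem xg2 : x ∉ g2 := fun h => H.cg2 (ll H.ox H.ol H.xl H.og2 h ▸ H.cl)
theorem oh2 : o ∉ h2 := fun h => H.ch2 (ll H.ox H.ol H.xl h H.xh2 ▸ H.cl)
theorem gh1 : g1 ≠ h1 := fun h => H.oh1 (h ▸ H.og1)
theorem gh2 : g2 ≠ h2 := fun h => H.oh2 (h ▸ H.og2)
theorem ww' : w ≠ w' := fun h => H.gh1 (ll H.sw H.sg1 H.wg1 H.sh1 (h ▸ H.wh1))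
theorem vv' : v ≠ v' := fun h => H.gh2 (ll H.tv H.tg2 H.vg2 H.th2 (h ▸ H.vh2))
theorem ag1 : a ≠ g1 := fun h => H.oa (h ▸ H.og1)
theorem ah1 : a ≠ h1 := fun h => H.xa (h ▸ H.xh1)
theorem ag2 : a ≠ g2 := fun h => H.oa (h ▸ H.og2)
theorem ah2 : a ≠ h2 := fun h => H.xa (h ▸ H.xh2)

theorem st : s ≠ t := by
  intro h
  subst h
  have i1 : g1 = g2 := ll H.so H.sg1 H.og1 H.tg2 H.og2
  have i2 : h1 = h2 := ll H.sx H.sh1 H.xh1 H.th2 H.xh2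
  exact H.op ⟨s, H.sa, g1, h1, ⟨H.wg1, i1 ▸ H.vg2, H.sg1⟩, H.wh1, i2 ▸ H.vh2, H.sh1⟩

theorem wg2 : w ∉ g2 := by
  intro h
  have h1 : g1 = g2 := ll H.ow H.og1 H.wg1 H.og2 h
  exact H.st (pp H.ag2 H.sa (h1 ▸ H.sg1) H.ta H.tg2)

theorem vh1' : v' ∉ h1 := by
  intro h
  have h1 : h2 = h1 := ll H.xv' H.xh2 H.vh2 H.xh1 h
  exact H.st (pp H.ah1 H.sa H.sh1 H.ta (h1 ▸ H.th2))

theorem gh : g2 ≠ h1 := fun h => H.e2 (h ▸ H.vg2)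

/-! the point `S` -/

variable {S : P} (hS : S ∈ g2) (hS' : S ∈ h1)
include hS hS'

theorem Sm : S ∉ m := by
  intro h
  have h1 : h1 ≠ m := fun e => H.xm (e ▸ H.xh1)
  have : S = w' := pp h1 hS' h H.wh1 H.wm'
  exact H.e1 (this ▸ hS)

theorem Sk : S ∉ k := by
  intro h
  have h1 : g2 ≠ k := fun e => H.ok (e ▸ H.og2)
  have : S = v := pp h1 hS h H.vg2 H.vk
  exact H.e2 (this ▸ hS')

theorem Sv : v ≠ S := fun h => H.Sk hS hS' (h ▸ H.vk)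
theorem Sw' : w' ≠ S := fun h => H.Sm hS hS' (h ▸ H.wm')

theorem So : S ≠ o := fun h => H.oh1 (h ▸ hS')
theorem Sx : x ≠ S := fun h => H.xg2 (h ▸ hS)
theorem Sc : c ≠ S := fun h => H.cg2 (h ▸ hS)

theorem Sl : S ∉ l := by
  intro h
  have h1 : g2 ≠ l := fun e => H.cg2 (e ▸ H.cl)
  exact H.So hS hS' (pp h1 hS h H.og2 H.ol)

theorem Sa : S ∉ a := by
  intro h
  exact H.st ((pp H.ah1 H.sa H.sh1 h hS').trans (pp H.ag2 h hS H.ta H.tg2))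

theorem hx1 : Hx L c w w' v S o :=
  ⟨m, g2, ⟨H.cm, H.wm, H.wm'⟩, ⟨H.vg2, hS, H.og2⟩, ⟨H.cg2, H.wg2, H.e1⟩,
    ⟨H.vm, H.Sm hS hS', H.om⟩, ⟨H.cw, H.cw', H.ww'⟩, H.Sv hS hS', H.ov.symm, H.So hS hS'⟩

theorem hx2 : Hx L c v v' w' x S :=
  ⟨k, h1, ⟨H.ck, H.vk, H.vk'⟩, ⟨H.wh1, H.xh1, hS'⟩, ⟨H.ch1, H.e2, H.vh1'⟩,
    ⟨H.wk', H.xk, H.Sk hS hS'⟩, ⟨H.cv, H.cv', H.vv'⟩, H.xw'.symm, H.Sw' hS hS', H.Sx hS hS'⟩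

omit hS hS'

/-! the lines `y = cS`, `e = w'v`, `f = wv`, `f' = w'v'` and the points `T`, `U`, `V` -/

structure Ext (a : L) (c s t o x w w' v v' : P) (l m k g1 h1 g2 h2 : L) (S T U V : P)
    (y e f f' : L) : Prop extends Cfg a c s t o x w w' v v' l m k g1 h1 g2 h2 where
  S2 : S ∈ g2
  S1 : S ∈ h1
  cy : c ∈ y
  Sy : S ∈ y
  we : w' ∈ e
  ve : v ∈ e
  wf : w ∈ f
  vf : v ∈ f
  wf' : w' ∈ f'
  vf' : v' ∈ f'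
  Ty : T ∈ y
  Tf : T ∈ f
  Ul : U ∈ l
  Ue : U ∈ e
  Vy : V ∈ y
  Vf : V ∈ f'

omit H

variable {T U V : P} {y e f f' : L} (E : Ext a c s t o x w w' v v' l m k g1 h1 g2 h2 S T U V y e f f')
include E

namespace Ext

theorem wy : w ∉ y := fun h =>
  E.toCfg.Sm E.S2 E.S1 (ll E.toCfg.cw E.cy h E.cm E.wm ▸ E.Sy)
theorem wy' : w' ∉ y := fun h =>
  E.toCfg.Sm E.S2 E.S1 (ll E.toCfg.cw' E.cy h E.cm E.wm' ▸ E.Sy)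
theorem vy : v ∉ y := fun h =>
  E.toCfg.Sk E.S2 E.S1 (ll E.toCfg.cv E.cy h E.ck E.vk ▸ E.Sy)
theorem vy' : v' ∉ y := fun h =>
  E.toCfg.Sk E.S2 E.S1 (ll E.toCfg.cv' E.cy h E.ck E.vk' ▸ E.Sy)
theorem yl : y ≠ l := fun h => E.toCfg.Sl E.S2 E.S1 (h ▸ E.Sy)
theorem yf : y ≠ f := fun h => E.vy (h ▸ E.vf)
theorem yf' : y ≠ f' := fun h => E.vy' (h ▸ E.vf')
theorem ye : y ≠ e := fun h => E.vy (h ▸ E.ve)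
theorem wnf' : w' ∉ f := fun h => E.toCfg.vm (ll E.toCfg.ww' E.wf h E.wm E.wm' ▸ E.vf)
theorem vnf : v ∉ f' := fun h => E.toCfg.wk' (ll E.toCfg.vv' h E.vf' E.vk E.vk' ▸ E.wf')
theorem fe : f ≠ e := fun h => E.wnf' (h ▸ E.we)
theorem fe' : f' ≠ e := fun h => E.vnf (h ▸ E.ve)
theorem ff : f ≠ f' := fun h => E.vnf (h ▸ E.vf)
theorem eh1 : e ≠ h1 := fun h => E.e2 (h ▸ E.ve)
theorem eg2 : e ≠ g2 := fun h => E.e1 (h ▸ E.we)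
theorem el : e ≠ l := fun h => E.toCfg.vl (h ▸ E.ve)
theorem fg2 : f ≠ g2 := fun h => E.toCfg.wg2 (h ▸ E.wf)
theorem fh1' : f' ≠ h1 := fun h => E.toCfg.vh1' (h ▸ E.vf')
theorem Tv : v ≠ T := fun h => E.vy (h ▸ E.Ty)
theorem Vw' : w' ≠ V := fun h => E.wy' (h ▸ E.Vy)
theorem Te : T ∉ e := fun h => E.Tv (pp E.fe E.vf E.ve E.Tf h)
theorem Ve : V ∉ e := fun h => E.Vw' (pp E.fe' E.wf' E.we E.Vf h)
theorem Se : S ∉ e := fun h => E.toCfg.Sw' E.S2 E.S1 (pp E.eh1 E.we E.wh1 h E.S1)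
theorem Uw' : w' ≠ U := fun h => E.toCfg.wl' (h ▸ E.Ul)
theorem Uv : v ≠ U := fun h => E.toCfg.vl (h ▸ E.Ul)
theorem ce : c ∉ e := fun h => E.toCfg.vm (ll E.toCfg.cw' h E.we E.cm E.wm' ▸ E.ve)
theorem cU : c ≠ U := fun h => E.ce (h ▸ E.Ue)
theorem Uy : U ∉ y := fun h => E.cU (pp E.yl E.cy E.cl h E.Ul)
theorem UT : U ≠ T := fun h => E.Te (h ▸ E.Ue)
theorem UV : U ≠ V := fun h => E.Ve (h ▸ E.Ue)
theorem TS : T ≠ S := fun h => E.toCfg.Sv E.S2 E.S1 (pp E.fg2 E.vf E.vg2 (h ▸ E.Tf) E.S2)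
theorem VS : V ≠ S := fun h => E.toCfg.Sw' E.S2 E.S1 (pp E.fh1' E.wf' E.wh1 (h ▸ E.Vf) E.S1)
theorem Uh1 : U ∉ h1 := fun h => E.Uw' (pp E.eh1 E.we E.wh1 E.Ue h)
theorem Ug2 : U ∉ g2 := fun h => E.Uv (pp E.eg2 E.ve E.vg2 E.Ue h)
theorem lg2 : l ≠ g2 := fun h => E.toCfg.vl (h ▸ E.vg2)
theorem lh1 : l ≠ h1 := fun h => E.toCfg.wl' (h ▸ E.wh1)

/-- the closing line of the first hexagon -/
theorem cl1 (h : ¬ OHx L c w w' v S o) : ∃ j : L, T ∈ j ∧ U ∈ j ∧ s ∈ j := by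
  have hx := E.toCfg.hx1 E.S2 E.S1
  have : ∃ j : L, MOn j c S w v ∧ MOn j c o w' v ∧ MOn j w o w' S := by
    by_contra hc
    exact h ⟨hx, hc⟩
  obtain ⟨j, h1, h2, h3⟩ := this
  refine ⟨j, h1.elim (E.toCfg.Sc E.S2 E.S1) E.toCfg.wv E.cy E.Sy E.wf E.vf E.yf E.Ty E.Tf,
    h2.elim E.toCfg.co E.toCfg.w'v E.cl E.ol E.we E.ve E.el.symm E.Ul E.Ue,
    h3.elim E.toCfg.ow.symm (E.toCfg.Sw' E.S2 E.S1) E.wg1 E.og1 E.wh1 E.S1 E.toCfg.gh1 E.sg1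
      E.sh1⟩

/-- the closing line of the second hexagon -/
theorem cl2 (h : ¬ OHx L c v v' w' x S) : ∃ j : L, U ∈ j ∧ V ∈ j ∧ t ∈ j := by
  have hx := E.toCfg.hx2 E.S2 E.S1
  have : ∃ j : L, MOn j c x v w' ∧ MOn j c S v' w' ∧ MOn j v S v' x := by
    by_contra hc
    exact h ⟨hx, hc⟩
  obtain ⟨j, h1, h2, h3⟩ := this
  refine ⟨j, h1.elim E.toCfg.cx E.toCfg.w'v.symm E.cl E.xl E.ve E.we E.el.symm E.Ul E.Ue,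
    h2.elim (E.toCfg.Sc E.S2 E.S1) E.toCfg.wv'.symm E.cy E.Sy E.vf' E.wf' E.yf' E.Vy E.Vf,
    h3.elim (E.toCfg.Sv E.S2 E.S1) E.toCfg.xv'.symm E.vg2 E.S2 E.vh2 E.xh2 E.toCfg.gh2 E.tg2
      E.th2⟩

theorem TV {j1 j2 : L} (T1 : T ∈ j1) (U1 : U ∈ j1) (s1 : s ∈ j1) (U2 : U ∈ j2) (V2 : V ∈ j2)
    (t2 : t ∈ j2) : T ≠ V := by
  intro h
  have h12 : j1 = j2 := ll E.UT U1 T1 U2 (h ▸ V2)
  subst h12
  have h3 : a = j1 := ll E.toCfg.st E.sa E.ta s1 t2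
  exact E.op ⟨T, h3 ▸ T1, f, f', ⟨E.wf, E.vf, E.Tf⟩, E.wf', E.vf', h ▸ E.Vf⟩

theorem open3 (h1 : ¬ OHx L c w w' v S o) (h2 : ¬ OHx L c v v' w' x S) :
    OHx L w' v U T V S := by
  obtain ⟨j1, T1, U1, s1⟩ := E.cl1 h1
  obtain ⟨j2, U2, V2, t2⟩ := E.cl2 h2
  refine ⟨⟨e, y, ⟨E.we, E.ve, E.Ue⟩, ⟨E.Ty, E.Vy, E.Sy⟩, ⟨E.wy', E.vy, E.Uy⟩, ⟨E.Te, E.Ve, E.Se⟩,
    ⟨E.toCfg.w'v, E.Uw', E.Uv⟩, E.TV T1 U1 s1 U2 V2 t2, E.TS, E.VS⟩, ?_⟩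
  rintro ⟨j, ⟨b, bj, g, h, ⟨i1, i2, i3⟩, i4, i5, i6⟩, m2, m3⟩
  have hs : s ∈ j := m2.elim (E.toCfg.Sw' E.S2 E.S1) E.UT E.wh1 E.S1 U1 T1
    (fun h => E.Uh1 (h ▸ U1)) E.sh1 s1
  have ht : t ∈ j := m3.elim (E.toCfg.Sv E.S2 E.S1) E.UV E.vg2 E.S2 U2 V2
    (fun h => E.Ug2 (h ▸ U2)) E.tg2 t2
  have hj : j = a := ll E.toCfg.st hs ht E.sa E.ta
  have hg : g = f' := ll E.Vw' i1 i2 E.wf' E.Vf
  have hh : h = f := ll E.Tv i4 i5 E.vf E.Tf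
  exact E.op ⟨b, hj ▸ bj, f, f', ⟨E.wf, E.vf, hh ▸ i6⟩, E.wf', E.vf', hg ▸ i3⟩

end Ext

end Cfg

/-! recovering the configuration from the hexagons -/

section
variable {a : L} {c s t o x w w' v v' : P} {l m k g1 h1 g2 h2 : L} {S T U V : P} {y e f f' : L}
  (E : Cfg.Ext a c s t o x w w' v v' l m k g1 h1 g2 h2 S T U V y e f f')
include E

theorem rec1 {a_ : L} {s_ t_ x_ v'_ : P} {l_ m_ k_ g1_ h1_ g2_ h2_ : L} {T_ U_ V_ : P}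
    {y_ e_ f_ f'_ : L}
    (F : Cfg.Ext a_ c s_ t_ o x_ w w' v v'_ l_ m_ k_ g1_ h1_ g2_ h2_ S T_ U_ V_ y_ e_ f_ f'_) :
    a = a_ ∧ x = x_ := by
  have q1 : g1 = g1_ := ll E.toCfg.ow E.og1 E.wg1 F.og1 F.wg1
  have q2 : h1 = h1_ := ll (E.toCfg.Sw' E.S2 E.S1) E.wh1 E.S1 F.wh1 F.S1
  subst q1 q2
  have q3 : s = s_ := pp E.toCfg.gh1 E.sg1 E.sh1 F.sg1 F.sh1
  subst q3
  have q4 : l = l_ := ll E.toCfg.co E.cl E.ol F.cl F.ol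
  subst q4
  exact ⟨ll E.toCfg.cs E.ca E.sa F.ca F.sa, pp E.lh1 E.xl E.xh1 F.xl F.xh1⟩

theorem rec2 {a_ : L} {s_ t_ o_ w_ : P} {l_ m_ k_ g1_ h1_ g2_ h2_ : L} {T_ U_ V_ : P}
    {y_ e_ f_ f'_ : L}
    (F : Cfg.Ext a_ c s_ t_ o_ x w_ w' v v' l_ m_ k_ g1_ h1_ g2_ h2_ S T_ U_ V_ y_ e_ f_ f'_) :
    a = a_ ∧ o = o_ ∧ w = w_ := by
  have q1 : h1 = h1_ := ll E.toCfg.xw' E.xh1 E.wh1 F.xh1 F.wh1
  have q2 : g2 = g2_ := ll (E.toCfg.Sv E.S2 E.S1) E.vg2 E.S2 F.vg2 F.S2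
  have q3 : h2 = h2_ := ll E.toCfg.xv' E.xh2 E.vh2 F.xh2 F.vh2
  subst q1 q2 q3
  have q4 : t = t_ := pp E.toCfg.gh2 E.tg2 E.th2 F.tg2 F.th2
  subst q4
  have q5 : a = a_ := ll E.toCfg.ct E.ca E.ta F.ca F.ta
  subst q5
  have q6 : l = l_ := ll E.toCfg.cx E.cl E.xl F.cl F.xl
  subst q6
  have q7 : o = o_ := pp E.lg2 E.ol E.og2 F.ol F.og2
  subst q7
  have q8 : s = s_ := pp E.toCfg.ah1 E.sa E.sh1 F.sa F.sh1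
  subst q8
  have q9 : g1 = g1_ := ll E.toCfg.so E.sg1 E.og1 F.sg1 F.og1
  subst q9
  have q10 : m = m_ := ll E.toCfg.cw' E.cm E.wm' F.cm F.wm'
  subst q10
  have hgm : g1 ≠ m := fun h => E.toCfg.om (h ▸ E.og1)
  exact ⟨rfl, rfl, pp hgm E.wg1 E.wm F.wg1 F.wm⟩

theorem rec3 {a_ : L} {c_ s_ t_ o_ x_ w_ v'_ : P} {l_ m_ k_ g1_ h1_ g2_ h2_ : L}
    {y_ e_ f_ f'_ : L}
    (F : Cfg.Ext a_ c_ s_ t_ o_ x_ w_ w' v v'_ l_ m_ k_ g1_ h1_ g2_ h2_ S T U V y_ e_ f_ f'_)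
    (h1' : ¬ OHx L c w w' v S o) (h2' : ¬ OHx L c v v' w' x S)
    (h1'_ : ¬ OHx L c_ w_ w' v S o_) (h2'_ : ¬ OHx L c_ v v'_ w' x_ S) :
    a = a_ ∧ o = o_ ∧ x = x_ ∧ w = w_ := by
  obtain ⟨j1, T1, U1, s1⟩ := E.cl1 h1'
  obtain ⟨j2, U2, V2, t2⟩ := E.cl2 h2'
  obtain ⟨i1, T1_, U1_, s1_⟩ := F.cl1 h1'_
  obtain ⟨i2, U2_, V2_, t2_⟩ := F.cl2 h2'_
  have q1 : j1 = i1 := ll E.UT U1 T1 U1_ T1_
  have q2 : j2 = i2 := ll E.UV U2 V2 U2_ V2_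
  have q3 : h1 = h1_ := ll (E.toCfg.Sw' E.S2 E.S1) E.wh1 E.S1 F.wh1 F.S1
  have q4 : g2 = g2_ := ll (E.toCfg.Sv E.S2 E.S1) E.vg2 E.S2 F.vg2 F.S2
  subst q1 q2 q3 q4
  have n1 : h1 ≠ j1 := fun h => E.Uh1 (h ▸ U1)
  have n2 : g2 ≠ j2 := fun h => E.Ug2 (h ▸ U2)
  have q5 : s = s_ := pp n1 E.sh1 s1 F.sh1 s1_
  have q6 : t = t_ := pp n2 E.tg2 t2 F.tg2 t2_
  subst q5 q6
  have q7 : a = a_ := ll E.toCfg.st E.sa E.ta F.sa F.ta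
  subst q7
  have q8 : y = y_ := ll E.TS E.Ty E.Sy F.Ty F.Sy
  subst q8
  have hya : y ≠ a := fun h => E.toCfg.Sa E.S2 E.S1 (h ▸ E.Sy)
  have q9 : c = c_ := pp hya E.cy E.ca F.cy F.ca
  subst q9
  have q10 : l = l_ := ll E.cU E.cl E.Ul F.cl F.Ul
  subst q10
  have q11 : o = o_ := pp E.lg2 E.ol E.og2 F.ol F.og2
  have q12 : x = x_ := pp E.lh1 E.xl E.xh1 F.xl F.xh1
  have q13 : m = m_ := ll E.toCfg.cw' E.cm E.wm' F.cm F.wm'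
  subst q13
  have q14 : f = f_ := ll E.Tv E.vf E.Tf F.vf F.Tf
  subst q14
  have nfm : f ≠ m := fun h => E.toCfg.vm (h ▸ E.vf)
  exact ⟨rfl, q11, q12, pp nfm E.wf E.wm F.wf F.wm⟩

end

end

end Pool.Agent.V11100.AD
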