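import Mathlib
import Pool.Agent.V11100.AD.Hess

set_option autoImplicit false
set_option linter.unusedSectionVars false

/-!
# From minor Desargues configurations to Desargues configurations with centre off the axis
-/

namespace Pool.Agent.V11100.AD

open Configuration

section
variable {P L : Type} [Membership P L]

/-- Desargues configuration with axis `a` and centre `c` off the axis -/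
structure GD (a : L) (c o x w w' v v' : P) : Prop where
  off : c ∉ a ∧ (o ∉ a ∧ x ∉ a) ∧ (w ∉ a ∧ w' ∉ a) ∧ (v ∉ a ∧ v' ∉ a)
  ne : (c ≠ o ∧ c ≠ x) ∧ (c ≠ w ∧ c ≠ w') ∧ (c ≠ v ∧ c ≠ v')
  ox : o ≠ x
  lines : ∃ l m k : L, l ≠ m ∧ l ≠ k ∧ m ≠ k ∧
    (c ∈ l ∧ o ∈ l ∧ x ∈ l) ∧ (c ∈ m ∧ w ∈ m ∧ w' ∈ m) ∧ (c ∈ k ∧ v ∈ k ∧ v' ∈ k)
  sides : MOn a o w x w' ∧ MOn a o v x v'

/-- it does not close -/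
def OGD (a : L) (c o x w w' v v' : P) : Prop := GD a c o x w w' v v' ∧ ¬ MOn a w v w' v'

structure Df (a : L) (c s t o x w w' v v' : P) (l m k g1 h1 g2 h2 : L) : Prop where
  ca : c ∈ a
  sa : s ∈ a
  ta : t ∈ a
  oa : o ∉ a
  xa : x ∉ a
  wa : w ∉ a
  wa' : w' ∉ a
  va : v ∉ a
  va' : v' ∉ a
  cl : c ∈ l
  ol : o ∈ l
  xl : x ∈ l
  cm : c ∈ m
  wm : w ∈ m
  wm' : w' ∈ m
  ck : c ∈ k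
  vk : v ∈ k
  vk' : v' ∈ k
  lm : l ≠ m
  lk : l ≠ k
  nmk : m ≠ k
  ox : o ≠ x
  og1 : o ∈ g1
  wg1 : w ∈ g1
  sg1 : s ∈ g1
  xh1 : x ∈ h1
  wh1 : w' ∈ h1
  sh1 : s ∈ h1
  og2 : o ∈ g2
  vg2 : v ∈ g2
  tg2 : t ∈ g2
  xh2 : x ∈ h2
  vh2 : v' ∈ h2
  th2 : t ∈ h2
  op : ¬ MOn a w v w' v'


variable [ProjectivePlane P L]

namespace Df
variable {a : L} {c s t o x w w' v v' : P} {l m k g1 h1 g2 h2 : L}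
  (H : Df a c s t o x w w' v v' l m k g1 h1 g2 h2)
include H

theorem co : c ≠ o := fun h => H.oa (h ▸ H.ca)
theorem cx : c ≠ x := fun h => H.xa (h ▸ H.ca)
theorem cw : c ≠ w := fun h => H.wa (h ▸ H.ca)
theorem cw' : c ≠ w' := fun h => H.wa' (h ▸ H.ca)
theorem cv : c ≠ v := fun h => H.va (h ▸ H.ca)
theorem cv' : c ≠ v' := fun h => H.va' (h ▸ H.ca)
theorem so : s ≠ o := fun h => H.oa (h ▸ H.sa)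
theorem sx : s ≠ x := fun h => H.xa (h ▸ H.sa)
theorem sw : s ≠ w := fun h => H.wa (h ▸ H.sa)
theorem sw' : s ≠ w' := fun h => H.wa' (h ▸ H.sa)
theorem to_ : t ≠ o := fun h => H.oa (h ▸ H.ta)
theorem tx : t ≠ x := fun h => H.xa (h ▸ H.ta)
theorem tv : t ≠ v := fun h => H.va (h ▸ H.ta)
theorem tv' : t ≠ v' := fun h => H.va' (h ▸ H.ta)
theorem om : o ∉ m := fun h => H.lm (ll H.co H.cl H.ol H.cm h)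
theorem ok : o ∉ k := fun h => H.lk (ll H.co H.cl H.ol H.ck h)
theorem xm : x ∉ m := fun h => H.lm (ll H.cx H.cl H.xl H.cm h)
theorem xk : x ∉ k := fun h => H.lk (ll H.cx H.cl H.xl H.ck h)
theorem wl : w ∉ l := fun h => H.lm (ll H.cw H.cl h H.cm H.wm)
theorem wk : w ∉ k := fun h => H.nmk (ll H.cw H.cm H.wm H.ck h)
theorem wl' : w' ∉ l := fun h => H.lm (ll H.cw' H.cl h H.cm H.wm')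
theorem wk' : w' ∉ k := fun h => H.nmk (ll H.cw' H.cm H.wm' H.ck h)
theorem vl : v ∉ l := fun h => H.lk (ll H.cv H.cl h H.ck H.vk)
theorem vm : v ∉ m := fun h => H.nmk (ll H.cv H.cm h H.ck H.vk)
theorem vl' : v' ∉ l := fun h => H.lk (ll H.cv' H.cl h H.ck H.vk')
theorem vm' : v' ∉ m := fun h => H.nmk (ll H.cv' H.cm h H.ck H.vk')
theorem ow : o ≠ w := fun h => H.om (h ▸ H.wm)
theorem ov : o ≠ v := fun h => H.ok (h ▸ H.vk)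
theorem xw' : x ≠ w' := fun h => H.xm (h ▸ H.wm')
theorem xv' : x ≠ v' := fun h => H.xk (h ▸ H.vk')
theorem wv : w ≠ v := fun h => H.wk (h ▸ H.vk)
theorem wv' : w' ≠ v' := fun h => H.wk' (h ▸ H.vk')
theorem w'v : w' ≠ v := fun h => H.wk' (h ▸ H.vk)
theorem cg1 : c ∉ g1 := fun h => H.wl (ll H.co h H.og1 H.cl H.ol ▸ H.wg1)
theorem ch1 : c ∉ h1 := fun h => H.wl' (ll H.cx h H.xh1 H.cl H.xl ▸ H.wh1)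
theorem cg2 : c ∉ g2 := fun h => H.vl (ll H.co h H.og2 H.cl H.ol ▸ H.vg2)
theorem ch2 : c ∉ h2 := fun h => H.vl' (ll H.cx h H.xh2 H.cl H.xl ▸ H.vh2)
theorem cs : c ≠ s := fun h => H.cg1 (h ▸ H.sg1)
theorem ct : c ≠ t := fun h => H.cg2 (h ▸ H.tg2)
theorem xg1 : x ∉ g1 := fun h => H.cg1 (ll H.ox H.ol H.xl H.og1 h ▸ H.cl)
theorem oh1 : o ∉ h1 := fun h => H.ch1 (ll H.ox H.ol H.xl h H.xh1 ▸ H.cl)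
theorem xg2 : x ∉ g2 := fun h => H.cg2 (ll H.ox H.ol H.xl H.og2 h ▸ H.cl)
theorem oh2 : o ∉ h2 := fun h => H.ch2 (ll H.ox H.ol H.xl h H.xh2 ▸ H.cl)
theorem gh1 : g1 ≠ h1 := fun h => H.oh1 (h ▸ H.og1)
theorem gh2 : g2 ≠ h2 := fun h => H.oh2 (h ▸ H.og2)
theorem ww' : w ≠ w' := fun h => H.gh1 (ll H.sw H.sg1 H.wg1 H.sh1 (h ▸ H.wh1))
theorem vv' : v ≠ v' := fun h => H.gh2 (ll H.tv H.tg2 H.vg2 H.th2 (h ▸ H.vh2))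
theorem ag1 : a ≠ g1 := fun h => H.oa (h ▸ H.og1)
theorem ah1 : a ≠ h1 := fun h => H.xa (h ▸ H.xh1)
theorem ag2 : a ≠ g2 := fun h => H.oa (h ▸ H.og2)
theorem ah2 : a ≠ h2 := fun h => H.xa (h ▸ H.xh2)

theorem st : s ≠ t := by
  intro h
  subst h
  have i1 : g1 = g2 := ll H.so H.sg1 H.og1 H.tg2 H.og2
  have i2 : h1 = h2 := ll H.sx H.sh1 H.xh1 H.th2 H.xh2
  exact H.op ⟨s, H.sa, g1, h1, ⟨H.wg1, i1 ▸ H.vg2, H.sg1⟩, H.wh1, i2 ▸ H.vh2, H.sh1⟩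

theorem wg2 : w ∉ g2 := by
  intro h
  have h1 : g1 = g2 := ll H.ow H.og1 H.wg1 H.og2 h
  exact H.st (pp H.ag2 H.sa (h1 ▸ H.sg1) H.ta H.tg2)

theorem vh1' : v' ∉ h1 := by
  intro h
  have h1 : h2 = h1 := ll H.xv' H.xh2 H.vh2 H.xh1 h
  exact H.st (pp H.ah1 H.sa H.sh1 H.ta (h1 ▸ H.th2))


theorem of2 {f : L} (wf : w ∈ f) (vf : v ∈ f) : o ∉ f := by
  intro h
  have i1 : f = g2 := ll H.ov h vf H.og2 H.vg2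
  exact H.wg2 (i1 ▸ wf)

end Df

structure DE (a : L) (c s t o x w w' v v' : P) (l m k g1 h1 g2 h2 f : L) (C o1 w1 v1 C2 : P)
    (p0 p1 p2 u1 u2 j q0 : L) : Prop extends Df a c s t o x w w' v v' l m k g1 h1 g2 h2 where
  wf : w ∈ f
  vf : v ∈ f
  Ca : C ∉ a
  Cl : C ∉ l
  Cg1 : C ∉ g1
  Cg2 : C ∉ g2
  Cf : C ∉ f
  Cm : C ∉ m
  Ck : C ∉ k
  Cp0 : C ∈ p0
  op0 : o ∈ p0
  o1p0 : o1 ∈ p0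
  Co1 : C ≠ o1
  oo1 : o ≠ o1
  o1a : o1 ∉ a
  o1h1 : o1 ∉ h1
  o1h2 : o1 ∉ h2
  Cp1 : C ∈ p1
  wp1 : w ∈ p1
  Cp2 : C ∈ p2
  vp2 : v ∈ p2
  su1 : s ∈ u1
  o1u1 : o1 ∈ u1
  tu2 : t ∈ u2
  o1u2 : o1 ∈ u2
  w1p1 : w1 ∈ p1
  w1u1 : w1 ∈ u1
  v1p2 : v1 ∈ p2
  v1u2 : v1 ∈ u2
  cj : c ∈ j
  Cj : C ∈ j
  xq0 : x ∈ q0
  o1q0 : o1 ∈ q0
  C2q0 : C2 ∈ q0
  C2j : C2 ∈ j

namespace DE
variable {a : L} {c s t o x w w' v v' : P} {l m k g1 h1 g2 h2 f : L} {C o1 w1 v1 C2 : P}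
    {p0 p1 p2 u1 u2 j q0 : L}
  (E : DE a c s t o x w w' v v' l m k g1 h1 g2 h2 f C o1 w1 v1 C2 p0 p1 p2 u1 u2 j q0)
include E

theorem p0g1 : p0 ≠ g1 := fun h => E.Cg1 (h ▸ E.Cp0)
theorem p0g2 : p0 ≠ g2 := fun h => E.Cg2 (h ▸ E.Cp0)
theorem p0l : p0 ≠ l := fun h => E.Cl (h ▸ E.Cp0)
theorem p1g1 : p1 ≠ g1 := fun h => E.Cg1 (h ▸ E.Cp1)
theorem p2g2 : p2 ≠ g2 := fun h => E.Cg2 (h ▸ E.Cp2)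
theorem Co : C ≠ o := fun h => E.Cl (h ▸ E.ol)
theorem Cw : C ≠ w := fun h => E.Cm (h ▸ E.wm)
theorem Cv : C ≠ v := fun h => E.Ck (h ▸ E.vk)
theorem u1a : a ≠ u1 := fun h => E.o1a (h ▸ E.o1u1)
theorem u2a : a ≠ u2 := fun h => E.o1a (h ▸ E.o1u2)
theorem w1a : w1 ∉ a := by
  intro h
  have h1 : w1 = s := pp E.u1a h E.w1u1 E.sa E.su1
  exact E.p1g1 (ll E.toDf.sw (h1 ▸ E.w1p1) E.wp1 E.sg1 E.wg1)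
theorem v1a : v1 ∉ a := by
  intro h
  have h1 : v1 = t := pp E.u2a h E.v1u2 E.ta E.tu2
  exact E.p2g2 (ll E.toDf.tv (h1 ▸ E.v1p2) E.vp2 E.tg2 E.vg2)
theorem Cw1 : C ≠ w1 := by
  intro h
  have h1 : u1 = p0 := ll E.Co1 (h ▸ E.w1u1) E.o1u1 E.Cp0 E.o1p0
  exact E.p0g1 (ll E.toDf.so (h1 ▸ E.su1) E.op0 E.sg1 E.og1)
theorem Cv1 : C ≠ v1 := by
  intro h
  have h1 : u2 = p0 := ll E.Co1 (h ▸ E.v1u2) E.o1u2 E.Cp0 E.o1p0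
  exact E.p0g2 (ll E.toDf.to_ (h1 ▸ E.tu2) E.op0 E.tg2 E.og2)
theorem p01 : p0 ≠ p1 := fun h => E.p0g1 (ll E.toDf.ow E.op0 (h ▸ E.wp1) E.og1 E.wg1)
theorem p02 : p0 ≠ p2 := fun h => E.p0g2 (ll E.toDf.ov E.op0 (h ▸ E.vp2) E.og2 E.vg2)
theorem p12 : p1 ≠ p2 := fun h => E.Cf (ll E.toDf.wv E.wp1 (h ▸ E.vp2) E.wf E.vf ▸ E.Cp1)

theorem gd1 : GD a C o o1 w w1 v v1 :=
  ⟨⟨E.Ca, ⟨E.oa, E.o1a⟩, ⟨E.wa, E.w1a⟩, E.va, E.v1a⟩, ⟨⟨E.Co, E.Co1⟩, ⟨E.Cw, E.Cw1⟩, E.Cv, E.Cv1⟩,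
    E.oo1, ⟨p0, p1, p2, E.p01, E.p02, E.p12, ⟨E.Cp0, E.op0, E.o1p0⟩, ⟨E.Cp1, E.wp1, E.w1p1⟩,
      E.Cp2, E.vp2, E.v1p2⟩,
    ⟨s, E.sa, g1, u1, ⟨E.og1, E.wg1, E.sg1⟩, E.o1u1, E.w1u1, E.su1⟩,
    ⟨t, E.ta, g2, u2, ⟨E.og2, E.vg2, E.tg2⟩, E.o1u2, E.v1u2, E.tu2⟩⟩

theorem ja : j ≠ a := fun h => E.Ca (h ▸ E.Cj)
theorem jl : j ≠ l := fun h => E.Cl (h ▸ E.Cj)
theorem sj : s ∉ j := fun h => E.ja (ll E.toDf.cs E.cj h E.ca E.sa)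
theorem tj : t ∉ j := fun h => E.ja (ll E.toDf.ct E.cj h E.ca E.ta)
theorem oj : o ∉ j := fun h => E.jl (ll E.toDf.co E.cj h E.cl E.ol)
theorem xj : x ∉ j := fun h => E.jl (ll E.toDf.cx E.cj h E.cl E.xl)
theorem wj : w ∉ j := fun h => E.Cm (ll E.toDf.cw E.cj h E.cm E.wm ▸ E.Cj)
theorem wj' : w' ∉ j := fun h => E.Cm (ll E.toDf.cw' E.cj h E.cm E.wm' ▸ E.Cj)
theorem vj : v ∉ j := fun h => E.Ck (ll E.toDf.cv E.cj h E.ck E.vk ▸ E.Cj)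
theorem vj' : v' ∉ j := fun h => E.Ck (ll E.toDf.cv' E.cj h E.ck E.vk' ▸ E.Cj)
theorem o1j : o1 ∉ j := fun h => E.oj (ll E.Co1 E.Cj h E.Cp0 E.o1p0 ▸ E.op0)
theorem w1j : w1 ∉ j := fun h => E.wj (ll E.Cw1 E.Cj h E.Cp1 E.w1p1 ▸ E.wp1)
theorem v1j : v1 ∉ j := fun h => E.vj (ll E.Cv1 E.Cj h E.Cp2 E.v1p2 ▸ E.vp2)
theorem so1 : s ≠ o1 := fun h => E.o1a (h ▸ E.sa)
theorem sw1 : s ≠ w1 := fun h => E.w1a (h ▸ E.sa)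
theorem to1 : t ≠ o1 := fun h => E.o1a (h ▸ E.ta)
theorem tv1 : t ≠ v1 := fun h => E.v1a (h ▸ E.ta)
theorem g1u1 : g1 ≠ u1 := fun h => E.oo1 (pp E.p0g1 E.op0 E.og1 E.o1p0 (h ▸ E.o1u1))
theorem g2u2 : g2 ≠ u2 := fun h => E.oo1 (pp E.p0g2 E.op0 E.og2 E.o1p0 (h ▸ E.o1u2))
theorem h1u1 : h1 ≠ u1 := fun h => E.o1h1 (h ▸ E.o1u1)
theorem h2u2 : h2 ≠ u2 := fun h => E.o1h2 (h ▸ E.o1u2)

theorem gd3 : GD j s o w x w' o1 w1 :=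
  ⟨⟨E.sj, ⟨E.oj, E.wj⟩, ⟨E.xj, E.wj'⟩, E.o1j, E.w1j⟩,
    ⟨⟨E.toDf.so, E.toDf.sw⟩, ⟨E.toDf.sx, E.toDf.sw'⟩, E.so1, E.sw1⟩, E.toDf.ow,
    ⟨g1, h1, u1, E.toDf.gh1, E.g1u1, E.h1u1, ⟨E.sg1, E.og1, E.wg1⟩, ⟨E.sh1, E.xh1, E.wh1⟩,
      E.su1, E.o1u1, E.w1u1⟩,
    ⟨c, E.cj, l, m, ⟨E.ol, E.xl, E.cl⟩, E.wm, E.wm', E.cm⟩,
    ⟨C, E.Cj, p0, p1, ⟨E.op0, E.o1p0, E.Cp0⟩, E.wp1, E.w1p1, E.Cp1⟩⟩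

theorem gd4 : GD j t o v x v' o1 v1 :=
  ⟨⟨E.tj, ⟨E.oj, E.vj⟩, ⟨E.xj, E.vj'⟩, E.o1j, E.v1j⟩,
    ⟨⟨E.toDf.to_, E.toDf.tv⟩, ⟨E.toDf.tx, E.toDf.tv'⟩, E.to1, E.tv1⟩, E.toDf.ov,
    ⟨g2, h2, u2, E.toDf.gh2, E.g2u2, E.h2u2, ⟨E.tg2, E.og2, E.vg2⟩, ⟨E.th2, E.xh2, E.vh2⟩,
      E.tu2, E.o1u2, E.v1u2⟩,
    ⟨c, E.cj, l, k, ⟨E.ol, E.xl, E.cl⟩, E.vk, E.vk', E.ck⟩,
    ⟨C, E.Cj, p0, p2, ⟨E.op0, E.o1p0, E.Cp0⟩, E.vp2, E.v1p2, E.Cp2⟩⟩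

theorem xo1 : x ≠ o1 := fun h => E.o1h1 (h ▸ E.xh1)
theorem q0j : q0 ≠ j := fun h => E.xj (h ▸ E.xq0)

theorem co1 (h : ¬ OGD j s o w x w' o1 w1) : ∃ q1 : L, C2 ∈ q1 ∧ w1 ∈ q1 ∧ w' ∈ q1 := by
  have h1 : MOn j x o1 w' w1 := by
    by_contra hc
    exact h ⟨E.gd3, hc⟩
  obtain ⟨b, hb, g, r, ⟨i1, i2, i3⟩, i4, i5, i6⟩ := h1
  have e1 : g = q0 := ll E.xo1 i1 i2 E.xq0 E.o1q0
  subst e1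
  have e2 : b = C2 := pp E.q0j i3 hb E.C2q0 E.C2j
  exact ⟨r, e2 ▸ i6, i5, i4⟩

theorem co2 (h : ¬ OGD j t o v x v' o1 v1) : ∃ q2 : L, C2 ∈ q2 ∧ v1 ∈ q2 ∧ v' ∈ q2 := by
  have h1 : MOn j x o1 v' v1 := by
    by_contra hc
    exact h ⟨E.gd4, hc⟩
  obtain ⟨b, hb, g, r, ⟨i1, i2, i3⟩, i4, i5, i6⟩ := h1
  have e1 : g = q0 := ll E.xo1 i1 i2 E.xq0 E.o1q0
  subst e1
  have e2 : b = C2 := pp E.q0j i3 hb E.C2q0 E.C2j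
  exact ⟨r, e2 ▸ i6, i5, i4⟩

theorem al : a ≠ l := fun h => E.oa (h ▸ E.ol)

theorem C2a : C2 ∉ a := by
  intro h
  have h1 : C2 = c := pp E.ja E.C2j h E.cj E.ca
  have h2 : q0 = l := ll E.toDf.cx (h1 ▸ E.C2q0) E.xq0 E.cl E.xl
  exact E.oo1 (pp E.p0l E.op0 E.ol E.o1p0 (h2 ▸ E.o1q0))

theorem o1w1 : o1 ≠ w1 := fun h => E.Co1 (pp E.p01 E.Cp0 E.Cp1 E.o1p0 (h ▸ E.w1p1))
theorem o1v1 : o1 ≠ v1 := fun h => E.Co1 (pp E.p02 E.Cp0 E.Cp2 E.o1p0 (h ▸ E.v1p2))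
theorem w1v1 : w1 ≠ v1 := fun h => E.Cw1 (pp E.p12 E.Cp1 E.Cp2 E.w1p1 (h ▸ E.v1p2))

theorem open2 (n1 : ¬ OGD a C o o1 w w1 v v1) (n3 : ¬ OGD j s o w x w' o1 w1)
    (n4 : ¬ OGD j t o v x v' o1 v1) : OGD a C2 o1 x w1 w' v1 v' := by
  obtain ⟨q1, r1, r2, r3⟩ := E.co1 n3
  obtain ⟨q2, z1, z2, z3⟩ := E.co2 n4
  have h1 : MOn a w v w1 v1 := by
    by_contra hc
    exact n1 ⟨E.gd1, hc⟩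
  obtain ⟨b, hb, g, r, ⟨i1, i2, i3⟩, i4, i5, i6⟩ := h1
  have e01 : q0 ≠ q1 := by
    intro h
    have k1 : q0 = u1 := ll E.o1w1 E.o1q0 (h ▸ r2) E.o1u1 E.w1u1
    exact E.h1u1 (ll E.toDf.sx E.sh1 E.xh1 E.su1 (k1 ▸ E.xq0))
  have e02 : q0 ≠ q2 := by
    intro h
    have k1 : q0 = u2 := ll E.o1v1 E.o1q0 (h ▸ z2) E.o1u2 E.v1u2
    exact E.h2u2 (ll E.toDf.tx E.th2 E.xh2 E.tu2 (k1 ▸ E.xq0))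
  have e12 : q1 ≠ q2 := by
    intro h
    subst h
    have k1 : r = q1 := ll E.w1v1 i4 i5 r2 z2
    subst k1
    exact E.op ⟨b, hb, g, r, ⟨i1, i2, i3⟩, r3, z3, i6⟩
  refine ⟨⟨⟨E.C2a, ⟨E.o1a, E.xa⟩, ⟨E.w1a, E.wa'⟩, E.v1a, E.va'⟩,
    ⟨⟨fun h => E.o1j (h ▸ E.C2j), fun h => E.xj (h ▸ E.C2j)⟩,
      ⟨fun h => E.w1j (h ▸ E.C2j), fun h => E.wj' (h ▸ E.C2j)⟩,
      fun h => E.v1j (h ▸ E.C2j), fun h => E.vj' (h ▸ E.C2j)⟩, E.xo1.symm,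
    ⟨q0, q1, q2, e01, e02, e12, ⟨E.C2q0, E.o1q0, E.xq0⟩, ⟨r1, r2, r3⟩, z1, z2, z3⟩,
    ⟨s, E.sa, u1, h1, ⟨E.o1u1, E.w1u1, E.su1⟩, E.xh1, E.wh1, E.sh1⟩,
    ⟨t, E.ta, u2, h2, ⟨E.o1u2, E.v1u2, E.tu2⟩, E.xh2, E.vh2, E.th2⟩⟩, ?_⟩
  rintro ⟨b', hb', g', r', ⟨i1', i2', i3'⟩, i4', i5', i6'⟩
  have k1 : g' = r := ll E.w1v1 i1' i2' i4 i5
  subst k1
  have k2 : a ≠ g' := fun h => E.w1a (h ▸ i1')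
  have k3 : b = b' := pp k2 hb i6 hb' i3'
  exact E.op ⟨b, hb, g, r', ⟨i1, i2, i3⟩, i4', i5', k3 ▸ i6'⟩

theorem rc2 {c_ s_ t_ w_ v_ : P} {l_ m_ k_ g1_ h1_ g2_ h2_ f_ : L} {C_ : P}
    {p0_ p1_ p2_ u1_ u2_ j_ q0_ : L}
    (F : DE a c_ s_ t_ o x w_ w' v_ v' l_ m_ k_ g1_ h1_ g2_ h2_ f_ C_ o1 w1 v1 C2
      p0_ p1_ p2_ u1_ u2_ j_ q0_) : C = C_ ∧ w = w_ ∧ v = v_ := by
  have i1 : l = l_ := ll E.ox E.ol E.xl F.ol F.xl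
  subst i1
  have i2 : c = c_ := pp E.al E.ca E.cl F.ca F.cl
  subst i2
  have nc : c ≠ C2 := fun h => E.C2a (h ▸ E.ca)
  have i3 : j = j_ := ll nc E.cj E.C2j F.cj F.C2j
  subst i3
  have i4 : p0 = p0_ := ll E.oo1 E.op0 E.o1p0 F.op0 F.o1p0
  subst i4
  have np : p0 ≠ j := fun h => E.oj (h ▸ E.op0)
  have i5 : C = C_ := pp np E.Cp0 E.Cj F.Cp0 F.Cj
  have i6 : u1 = u1_ := ll E.o1w1 E.o1u1 E.w1u1 F.o1u1 F.w1u1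
  have i7 : u2 = u2_ := ll E.o1v1 E.o1u2 E.v1u2 F.o1u2 F.v1u2
  subst i6 i7
  have i8 : s = s_ := pp E.u1a E.sa E.su1 F.sa F.su1
  have i9 : t = t_ := pp E.u2a E.ta E.tu2 F.ta F.tu2
  subst i8 i9
  have i10 : g1 = g1_ := ll E.toDf.so E.sg1 E.og1 F.sg1 F.og1
  have i11 : g2 = g2_ := ll E.toDf.to_ E.tg2 E.og2 F.tg2 F.og2
  have i12 : m = m_ := ll E.toDf.cw' E.cm E.wm' F.cm F.wm'
  have i13 : k = k_ := ll E.toDf.cv' E.ck E.vk' F.ck F.vk'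
  subst i10 i11 i12 i13
  have n1 : g1 ≠ m := fun h => E.toDf.om (h ▸ E.og1)
  have n2 : g2 ≠ k := fun h => E.toDf.ok (h ▸ E.og2)
  exact ⟨i5, pp n1 E.wg1 E.wm F.wg1 F.wm, pp n2 E.vg2 E.vk F.vg2 F.vk⟩

theorem rc3 {a_ : L} {c_ t_ v_ v'_ : P} {l_ m_ k_ g1_ h1_ g2_ h2_ f_ : L} {C_ v1_ C2_ : P}
    {p0_ p1_ p2_ u1_ u2_ q0_ : L}
    (F : DE a_ c_ s t_ o x w w' v_ v'_ l_ m_ k_ g1_ h1_ g2_ h2_ f_ C_ o1 w1 v1_ C2_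
      p0_ p1_ p2_ u1_ u2_ j q0_) : a = a_ ∧ C = C_ := by
  have i1 : l = l_ := ll E.ox E.ol E.xl F.ol F.xl
  subst i1
  have i2 : c = c_ := pp E.jl E.cj E.cl F.cj F.cl
  subst i2
  have i3 : a = a_ := ll E.toDf.cs E.ca E.sa F.ca F.sa
  have i4 : p0 = p0_ := ll E.oo1 E.op0 E.o1p0 F.op0 F.o1p0
  subst i4
  have np : p0 ≠ j := fun h => E.oj (h ▸ E.op0)
  exact ⟨i3, pp np E.Cp0 E.Cj F.Cp0 F.Cj⟩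

theorem rc4 {a_ : L} {c_ s_ w_ w'_ : P} {l_ m_ k_ g1_ h1_ g2_ h2_ f_ : L} {C_ w1_ C2_ : P}
    {p0_ p1_ p2_ u1_ u2_ q0_ : L}
    (F : DE a_ c_ s_ t o x w_ w'_ v v' l_ m_ k_ g1_ h1_ g2_ h2_ f_ C_ o1 w1_ v1 C2_
      p0_ p1_ p2_ u1_ u2_ j q0_) : a = a_ ∧ C = C_ := by
  have i1 : l = l_ := ll E.ox E.ol E.xl F.ol F.xl
  subst i1
  have i2 : c = c_ := pp E.jl E.cj E.cl F.cj F.cl
  subst i2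
  have i3 : a = a_ := ll E.toDf.ct E.ca E.ta F.ca F.ta
  have i4 : p0 = p0_ := ll E.oo1 E.op0 E.o1p0 F.op0 F.o1p0
  subst i4
  have np : p0 ≠ j := fun h => E.oj (h ▸ E.op0)
  exact ⟨i3, pp np E.Cp0 E.Cj F.Cp0 F.Cj⟩

end DE

/-- the auxiliary data exist -/
theorem Df.ext {a : L} {c s t o x w w' v v' : P} {l m k g1 h1 g2 h2 f : L} {C o1 : P} {p0 : L}
    (H : Df a c s t o x w w' v v' l m k g1 h1 g2 h2) (wf : w ∈ f) (vf : v ∈ f)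
    (n1 : o1 ∉ a ∧ o1 ∉ l ∧ o1 ∉ g1 ∧ o1 ∉ g2 ∧ o1 ∉ h1 ∧ o1 ∉ h2)
    (op0 : o ∈ p0) (o1p0 : o1 ∈ p0)
    (n2 : C ∈ p0 ∧ C ≠ o ∧ C ≠ o1 ∧ C ∉ a ∧ C ∉ f ∧ C ∉ m ∧ C ∉ k) :
    ∃ (w1 v1 C2 : P) (p1 p2 u1 u2 j q0 : L),
      DE a c s t o x w w' v v' l m k g1 h1 g2 h2 f C o1 w1 v1 C2 p0 p1 p2 u1 u2 j q0 := by
  obtain ⟨o1a, o1l, o1g1, o1g2, o1h1, o1h2⟩ := n1
  obtain ⟨Cp0, Co, Co1, Ca, Cf, Cm, Ck⟩ := n2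
  have oo1 : o ≠ o1 := fun h => o1l (h ▸ H.ol)
  have nl : ∀ r : L, o ∈ r → o1 ∉ r → C ∉ r := by
    intro r hr hr' h
    have : r = p0 := ll Co.symm hr h op0 Cp0
    exact hr' (this ▸ o1p0)
  have Cl := nl l H.ol o1l
  have Cg1 := nl g1 H.og1 o1g1
  have Cg2 := nl g2 H.og2 o1g2
  have jn : ∀ p q : P, p ≠ q → ∃ r : L, p ∈ r ∧ q ∈ r :=
    fun p q h => ⟨_, HasLines.mkLine_ax (L := L) h⟩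
  have mt : ∀ r z : L, r ≠ z → ∃ p : P, p ∈ r ∧ p ∈ z :=
    fun r z h => ⟨_, HasPoints.mkPoint_ax (P := P) h⟩
  obtain ⟨p1, Cp1, wp1⟩ := jn C w (fun h => Cm (h ▸ H.wm))
  obtain ⟨p2, Cp2, vp2⟩ := jn C v (fun h => Ck (h ▸ H.vk))
  obtain ⟨u1, su1, o1u1⟩ := jn s o1 (fun h => o1a (h ▸ H.sa))
  obtain ⟨u2, tu2, o1u2⟩ := jn t o1 (fun h => o1a (h ▸ H.ta))
  obtain ⟨j, cj, Cj⟩ := jn c C (fun h => Ca (h ▸ H.ca))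
  obtain ⟨q0, xq0, o1q0⟩ := jn x o1 (fun h => o1h1 (h ▸ H.xh1))
  have jl : j ≠ l := fun h => Cl (h ▸ Cj)
  have xj : x ∉ j := fun h => jl (ll H.cx cj h H.cl H.xl)
  have q0j : q0 ≠ j := fun h => xj (h ▸ xq0)
  have pu1 : p1 ≠ u1 := by
    intro h
    have h1 : p1 = p0 := ll Co1 Cp1 (h ▸ o1u1) Cp0 o1p0
    have h2 : p1 = g1 := ll H.ow (h1 ▸ op0) wp1 H.og1 H.wg1
    exact Cg1 (h2 ▸ Cp1)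
  have pu2 : p2 ≠ u2 := by
    intro h
    have h1 : p2 = p0 := ll Co1 Cp2 (h ▸ o1u2) Cp0 o1p0
    have h2 : p2 = g2 := ll H.ov (h1 ▸ op0) vp2 H.og2 H.vg2
    exact Cg2 (h2 ▸ Cp2)
  obtain ⟨w1, w1p1, w1u1⟩ := mt p1 u1 pu1
  obtain ⟨v1, v1p2, v1u2⟩ := mt p2 u2 pu2
  obtain ⟨C2, C2q0, C2j⟩ := mt q0 j q0j
  exact ⟨w1, v1, C2, p1, p2, u1, u2, j, q0, ⟨H, wf, vf, Ca, Cl, Cg1, Cg2, Cf, Cm, Ck, Cp0, op0,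
    o1p0, Co1, oo1, o1a, o1h1, o1h2, Cp1, wp1, Cp2, vp2, su1, o1u1, tu2, o1u2, w1p1, w1u1, v1p2,
    v1u2, cj, Cj, xq0, o1q0, C2q0, C2j⟩⟩

end

end Pool.Agent.V11100.AD
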