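import Mathlib
import Pool.Agent.V11100.AD.Assoc

set_option autoImplicit false
set_option linter.unusedSectionVars false

/-!
# Minor Desargues configurations in general position suffice
-/

namespace Pool.Agent.V11100.AD

open Finset Classical

namespace Aff

variable {X A M : Type} (P : Aff X A M) [Fintype X]

/-- a minor Desargues configuration that does not close -/
def BD (o x w v : X) : Prop := P.off o x w ∧ P.off o x v ∧ P.Bad (P.t o x) w v

/-- `w'` is not on `ov` and `v` is not on `xw'` -/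
def nd (o x w v : X) : Prop :=
  P.ln (P.dir o v) (P.t o x w) ≠ P.ln (P.dir o v) o ∧ P.ln (P.dir o w) v ≠ P.ln (P.dir o w) x

theorem BD.ne {P : Aff X A M} {o x w v : X} (h : P.BD o x w v) : x ≠ o := by
  intro hc
  obtain ⟨_, _, D, h1, h2⟩ := h
  rw [hc, P.t_self] at h2
  exact h2 h1

theorem BD.wv {P : Aff X A M} {o x w v : X} (h : P.BD o x w v) :
    P.ln (P.dir o x) w ≠ P.ln (P.dir o x) v := by
  intro hc
  obtain ⟨h1, h2, D, h3, h4⟩ := h
  have hxx : P.ln (P.dir o x) x = P.ln (P.dir o x) o := (P.dir_spec o x).symm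
  have hne : w ≠ v := fun h => h4 (by rw [h])
  have e1 := P.dir_unique hne hc
  have e2 := P.dir_unique hne h3
  rw [e2, ← e1] at h4
  apply h4
  rw [P.t_line hxx, P.t_line hxx, hc]

/-- the conditions on the auxiliary point -/
def gen (o x w v z : X) : Prop :=
  (P.ln (P.dir o x) z ≠ P.ln (P.dir o x) o ∧ P.ln (P.dir o x) z ≠ P.ln (P.dir o x) w ∧
    P.ln (P.dir o x) z ≠ P.ln (P.dir o x) v) ∧
  (P.ln (P.dir o (P.t o x w)) z ≠ P.ln (P.dir o (P.t o x w)) o ∧
    P.ln (P.dir o w) z ≠ P.ln (P.dir o w) x ∧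
    P.ln (P.dir (P.t o x w) v) z ≠ P.ln (P.dir (P.t o x w) v) v) ∧
  (P.ln (P.dir o v) (P.t o x z) ≠ P.ln (P.dir o v) o ∧
    P.ln (P.dir x v) (P.t o x z) ≠ P.ln (P.dir x v) x ∧
    P.ln (P.dir (P.t o x w) v) (P.t o x z) ≠ P.ln (P.dir (P.t o x w) v) v)

theorem dir_z {o x z : X} (hx : x ≠ o) (hz : P.off o x z) :
    P.dir o x = P.dir z (P.t o x z) := by
  have hxx : P.ln (P.dir o x) x = P.ln (P.dir o x) o := (P.dir_spec o x).symm
  refine P.dir_unique ?_ (P.t_line hxx z).symm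
  intro h
  have h1 := P.t_sep (x' := o) hxx rfl hx hz
  rw [P.t_self] at h1
  exact h1 h.symm

theorem t_base {o x w z : X} (hx : x ≠ o) (hz : P.off o x z)
    (hwz : P.ln (P.dir o x) z ≠ P.ln (P.dir o x) w) (hb : ¬ P.Bad (P.t o x) w z) :
    P.t z (P.t o x z) w = P.t o x w := by
  have hxx : P.ln (P.dir o x) x = P.ln (P.dir o x) o := (P.dir_spec o x).symm
  have h1 : P.ln (P.dir o x) (P.t o x z) = P.ln (P.dir o x) z := P.t_line hxx z
  have h2 := P.t_spec h1 (w := w) (fun h => hwz h.symm)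
  have h3 := P.t_line h1 w
  refine P.un _ _ (P.dir_ne (o := z) (w := w) (fun h => hwz h.symm)) _ _ ?_ ?_
  · rw [h3, P.t_line hxx]
  · rw [h2]
    exact (P.not_bad hb (P.dir_spec z w).symm).symm

theorem three {o x w v z : X} (h : P.BD o x w v) (g : P.gen o x w v z) :
    (P.BD o x w z ∧ P.nd o x w z) ∨ (P.BD o x z v ∧ P.nd o x z v) ∨
      (P.BD z (P.t o x z) w v ∧ P.nd z (P.t o x z) w v) := by
  obtain ⟨⟨z1, z2, z2'⟩, ⟨z3, z4, z7⟩, z5, z6, z8⟩ := g
  have hx := h.ne
  have hxx : P.ln (P.dir o x) x = P.ln (P.dir o x) o := (P.dir_spec o x).symm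
  have hwv := h.wv
  obtain ⟨hw, hv, hbad⟩ := h
  have hw'o : P.t o x w ≠ o := by
    intro hc
    apply hw
    rw [← P.t_line hxx w, hc]
  have hw'v : P.t o x w ≠ v := by
    intro hc
    apply hwv
    rw [← P.t_line hxx w, hc]
  have hxv : x ≠ v := by
    intro hc
    apply hv
    rw [← hc, hxx]
  by_contra hcon
  push Not at hcon
  obtain ⟨c1, c2, c3⟩ := hcon
  have n1 : P.nd o x w z := ⟨P.off_symm hw'o z3, z4⟩
  have b1 : ¬ P.Bad (P.t o x) w z := fun hb => c1 ⟨hw, z1, hb⟩ n1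
  have hzz := P.t_spec hxx z1
  have n2 : P.nd o x z v := by
    refine ⟨z5, fun hc => ?_⟩
    have e := P.dir_unique hxv hc.symm
    rw [e] at hzz
    exact z6 hzz
  have b2 : ¬ P.Bad (P.t o x) z v := fun hb => c2 ⟨z1, hv, hb⟩ n2
  have b2' : ¬ P.Bad (P.t o x) v z := by
    rintro ⟨D, h1, h2⟩
    exact b2 ⟨D, h1.symm, fun h => h2 h.symm⟩
  have e1 := P.t_base hx z1 z2 b1
  have e2 := P.t_base hx z1 z2' b2'
  have ed := P.dir_z hx z1
  have hBD : P.BD z (P.t o x z) w v := by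
    refine ⟨?_, ?_, ?_⟩
    · unfold off; rw [← ed]; exact fun h => z2 h.symm
    · unfold off; rw [← ed]; exact fun h => z2' h.symm
    · obtain ⟨D, h1, h2⟩ := hbad
      exact ⟨D, h1, by rw [e1, e2]; exact h2⟩
  refine c3 hBD ⟨?_, ?_⟩
  · rw [e1]
    intro hc
    have h1 := P.dir_spec z v
    have e := P.dir_unique hw'v (hc.trans h1)
    rw [e] at h1
    exact z7 h1
  · intro hc
    have h1 : P.ln (P.dir z w) (P.t o x w) = P.ln (P.dir z w) (P.t o x z) :=
      P.not_bad b1 (P.dir_spec z w).symm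
    have e := P.dir_unique hw'v (h1.trans hc.symm)
    rw [e] at hc
    exact z8 hc.symm

variable [Finite A]

theorem card_ne {n : ℕ} (hn : P.Lines n) (f : Equiv.Perm X) (D : A) (y : X) :
    (univ.filter fun z => ¬ P.ln D (f z) ≠ P.ln D y).card = n := by
  rw [← hn D y]
  refine card_bij (fun z _ => f z) ?_ ?_ ?_
  · intro z hz
    simpa using hz
  · intro a _ b _ h
    exact f.injective h
  · intro b hb
    refine ⟨f.symm b, by simpa using hb, by simp⟩

theorem card_gen {n : ℕ} (hn : P.Lines n) (hX : Fintype.card X = n ^ 2) (o x w v : X) :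
    n ^ 2 ≤ (univ.filter fun z => P.gen o x w v z).card + 9 * n := by
  have e := card_filter_add_card_filter_not (s := (univ : Finset X))
    (fun z => P.gen o x w v z)
  rw [card_univ, hX] at e
  have h : (univ.filter fun z => ¬ P.gen o x w v z).card ≤ 9 * n := by
    have hsub : (univ.filter fun z => ¬ P.gen o x w v z) ⊆
        (univ.filter fun z => ¬ P.ln (P.dir o x) ((1 : Equiv.Perm X) z) ≠ P.ln (P.dir o x) o) ∪
        (univ.filter fun z => ¬ P.ln (P.dir o x) ((1 : Equiv.Perm X) z) ≠ P.ln (P.dir o x) w) ∪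
        (univ.filter fun z => ¬ P.ln (P.dir o x) ((1 : Equiv.Perm X) z) ≠ P.ln (P.dir o x) v) ∪
        (univ.filter fun z => ¬ P.ln (P.dir o (P.t o x w)) ((1 : Equiv.Perm X) z) ≠
          P.ln (P.dir o (P.t o x w)) o) ∪
        (univ.filter fun z => ¬ P.ln (P.dir o w) ((1 : Equiv.Perm X) z) ≠ P.ln (P.dir o w) x) ∪
        (univ.filter fun z => ¬ P.ln (P.dir (P.t o x w) v) ((1 : Equiv.Perm X) z) ≠
          P.ln (P.dir (P.t o x w) v) v) ∪
        (univ.filter fun z => ¬ P.ln (P.dir o v) (P.t o x z) ≠ P.ln (P.dir o v) o) ∪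
        (univ.filter fun z => ¬ P.ln (P.dir x v) (P.t o x z) ≠ P.ln (P.dir x v) x) ∪
        (univ.filter fun z => ¬ P.ln (P.dir (P.t o x w) v) (P.t o x z) ≠
          P.ln (P.dir (P.t o x w) v) v) := by
      intro z hz
      rw [mem_filter] at hz
      simp only [mem_union, mem_filter, mem_univ, true_and, Equiv.Perm.one_apply]
      by_contra hc
      push Not at hc
      apply hz.2
      unfold gen
      tauto
    refine (card_le_card hsub).trans ?_
    refine (card_union_le _ _).trans ?_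
    have k := fun f D y => P.card_ne hn f D y
    refine le_trans (Nat.add_le_add_right ((card_union_le _ _).trans (Nat.add_le_add_right
      ((card_union_le _ _).trans (Nat.add_le_add_right ((card_union_le _ _).trans
      (Nat.add_le_add_right ((card_union_le _ _).trans (Nat.add_le_add_right
      ((card_union_le _ _).trans (Nat.add_le_add_right ((card_union_le _ _).trans
      (Nat.add_le_add_right (card_union_le _ _) _)) _)) _)) _)) _)) _)) _) ?_
    rw [k, k, k, k, k, k, k, k, k]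
    omega
  omega

theorem bound {n : ℕ} (hn : P.Lines n) (hX : Fintype.card X = n ^ 2) (h18 : 18 ≤ n) :
    (univ.filter fun q : (X × X) × X × X => P.BD q.1.1 q.1.2 q.2.1 q.2.2).card ≤
      6 * (univ.filter fun q : (X × X) × X × X => P.BD q.1.1 q.1.2 q.2.1 q.2.2 ∧
        P.nd q.1.1 q.1.2 q.2.1 q.2.2).card := by
  set B := univ.filter fun q : (X × X) × X × X => P.BD q.1.1 q.1.2 q.2.1 q.2.2 with hB
  set N := univ.filter fun q : (X × X) × X × X => P.BD q.1.1 q.1.2 q.2.1 q.2.2 ∧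
        P.nd q.1.1 q.1.2 q.2.1 q.2.2 with hN
  let G := univ.filter fun r : ((X × X) × X × X) × X =>
    P.BD r.1.1.1 r.1.1.2 r.1.2.1 r.1.2.2 ∧ P.gen r.1.1.1 r.1.1.2 r.1.2.1 r.1.2.2 r.2
  have hG : G.card = ∑ q ∈ B, (univ.filter fun z => P.gen q.1.1 q.1.2 q.2.1 q.2.2 z).card := by
    have := sum_card (fun (q : (X × X) × X × X) z => P.BD q.1.1 q.1.2 q.2.1 q.2.2 ∧
      P.gen q.1.1 q.1.2 q.2.1 q.2.2 z)
    rw [← this, hB, sum_filter]
    refine sum_congr rfl fun q _ => ?_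
    by_cases hq : P.BD q.1.1 q.1.2 q.2.1 q.2.2
    · simp [hq]
    · simp [hq]
  have hG1 : B.card * n ^ 2 ≤ G.card + B.card * (9 * n) := by
    rw [hG, ← smul_eq_mul, ← smul_eq_mul, ← sum_const, ← sum_const, ← sum_add_distrib]
    exact sum_le_sum fun q _ => P.card_gen hn hX _ _ _ _
  let G1 := G.filter fun r => P.BD r.1.1.1 r.1.1.2 r.1.2.1 r.2 ∧ P.nd r.1.1.1 r.1.1.2 r.1.2.1 r.2
  let G2 := G.filter fun r => P.BD r.1.1.1 r.1.1.2 r.2 r.1.2.2 ∧ P.nd r.1.1.1 r.1.1.2 r.2 r.1.2.2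
  let G3 := G.filter fun r => P.BD r.2 (P.t r.1.1.1 r.1.1.2 r.2) r.1.2.1 r.1.2.2 ∧
    P.nd r.2 (P.t r.1.1.1 r.1.1.2 r.2) r.1.2.1 r.1.2.2
  have hsub : G ⊆ G1 ∪ G2 ∪ G3 := by
    intro r hr
    have hr' := (mem_filter.1 hr).2
    rcases P.three hr'.1 hr'.2 with h | h | h
    · exact mem_union_left _ (mem_union_left _ (mem_filter.2 ⟨hr, h⟩))
    · exact mem_union_left _ (mem_union_right _ (mem_filter.2 ⟨hr, h⟩))
    · exact mem_union_right _ (mem_filter.2 ⟨hr, h⟩)
  have hNX : (N ×ˢ (univ : Finset X)).card = N.card * n ^ 2 := by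
    rw [card_product, card_univ, hX]
  have c1 : G1.card ≤ N.card * n ^ 2 := by
    rw [← hNX]
    refine card_le_card_of_injOn (fun r => ((r.1.1, r.1.2.1, r.2), r.1.2.2)) ?_ ?_
    · intro r hr
      have := (mem_filter.1 hr).2
      simp only [coe_product, Set.mem_prod, mem_coe, mem_univ, and_true]
      rw [hN, mem_filter]
      exact ⟨mem_univ _, this⟩
    · rintro ⟨⟨q, a, b⟩, z⟩ _ ⟨⟨q', a', b'⟩, z'⟩ _ h
      simp only [Prod.mk.injEq] at h
      obtain ⟨⟨h1, h2, h3⟩, h4⟩ := h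
      rw [h1, h2, h3, h4]
  have c2 : G2.card ≤ N.card * n ^ 2 := by
    rw [← hNX]
    refine card_le_card_of_injOn (fun r => ((r.1.1, r.2, r.1.2.2), r.1.2.1)) ?_ ?_
    · intro r hr
      have := (mem_filter.1 hr).2
      simp only [coe_product, Set.mem_prod, mem_coe, mem_univ, and_true]
      rw [hN, mem_filter]
      exact ⟨mem_univ _, this⟩
    · rintro ⟨⟨q, a, b⟩, z⟩ _ ⟨⟨q', a', b'⟩, z'⟩ _ h
      simp only [Prod.mk.injEq] at h
      obtain ⟨⟨h1, h2, h3⟩, h4⟩ := h
      rw [h1, h2, h3, h4]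
  have c3 : G3.card ≤ N.card * n ^ 2 := by
    rw [← hNX]
    refine card_le_card_of_injOn (fun r => (((r.2, P.t r.1.1.1 r.1.1.2 r.2), r.1.2), r.1.1.1))
      ?_ ?_
    · intro r hr
      have := (mem_filter.1 hr).2
      simp only [coe_product, Set.mem_prod, mem_coe, mem_univ, and_true]
      rw [hN, mem_filter]
      exact ⟨mem_univ _, this⟩
    · rintro ⟨⟨⟨o, x⟩, q⟩, z⟩ hr ⟨⟨⟨o', x'⟩, q'⟩, z'⟩ hr' h
      simp only [Prod.mk.injEq] at h
      obtain ⟨⟨⟨h1, h2⟩, h3⟩, h4⟩ := h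
      subst h1 h3 h4
      have k1 := (mem_filter.1 (mem_filter.1 hr).1).2
      have k2 := (mem_filter.1 (mem_filter.1 hr').1).2
      simp only at k1 k2
      have d1 := P.dir_z k1.1.ne k1.2.1.1
      have d2 := P.dir_z k2.1.ne k2.2.1.1
      rw [h2, ← d2] at d1
      have hxx : P.ln (P.dir o x) x = P.ln (P.dir o x) o := (P.dir_spec o x).symm
      have hxx' : P.ln (P.dir o x) x' = P.ln (P.dir o x) o := by
        rw [d1]; exact (P.dir_spec o x').symm
      have : x = x' := by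
        by_contra hne
        exact P.t_sep hxx hxx' hne k1.2.1.1 h2
      rw [this]
  have hGc : G.card ≤ 3 * (N.card * n ^ 2) := by
    refine (card_le_card hsub).trans ((card_union_le _ _).trans ?_)
    have := card_union_le G1 G2
    omega
  have h9 : 2 * (9 * n) ≤ n ^ 2 := by nlinarith
  have hpos : 0 < n ^ 2 := by positivity
  have hfin : B.card * n ^ 2 ≤ (6 * N.card) * n ^ 2 := by
    have e2 : B.card * (2 * (9 * n)) ≤ B.card * n ^ 2 := Nat.mul_le_mul_left _ h9
    nlinarith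
  exact Nat.le_of_mul_le_mul_right hfin hpos

theorem sum_fail {n : ℕ} (hn : P.Lines n) (hX : Fintype.card X = n ^ 2) (h18 : 18 ≤ n) :
    ∑ o, ∑ x, P.fail o x ≤
      6 * (univ.filter fun q : (X × X) × X × X => P.BD q.1.1 q.1.2 q.2.1 q.2.2 ∧
        P.nd q.1.1 q.1.2 q.2.1 q.2.2).card := by
  refine le_trans (le_of_eq ?_) (P.bound hn hX h18)
  have := sum_card (fun (q : X × X) (p : X × X) => P.BD q.1 q.2 p.1 p.2)
  rw [← this, Fintype.sum_prod_type]
  refine sum_congr rfl fun o _ => sum_congr rfl fun x _ => ?_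
  unfold fail
  refine congrArg card ?_
  ext p
  simp only [mem_filter, mem_univ, true_and, BD]

end Aff

end Pool.Agent.V11100.AD
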