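import Mathlib
import Pool.Agent.V11100.AD.Desa
import Pool.Agent.V11100.AD.Gen
import Pool.Agent.V11100.AD.Final

set_option autoImplicit false
set_option linter.unusedSectionVars false

/-!
# Planes in which most Desargues configurations close
-/

namespace Pool.Agent.V11100.AD

open Configuration Configuration.ProjectivePlane Finset Classical

section
variable {P L : Type} [Membership P L] [ProjectivePlane P L] [Fintype P] [Finite L]

theorem df_exists {a : L} {o x w v : {p : P // p ∉ a}} (h : (aff a).BD o x w v) :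
    ∃ (c s t w' v' : P) (l m k g1 h1 g2 h2 f : L),
      Df a c s t o.1 x.1 w.1 w' v.1 v' l m k g1 h1 g2 h2 ∧ w.1 ∈ f ∧ v.1 ∈ f := by
  have hxx : (aff a).ln ((aff a).dir o x) x = (aff a).ln ((aff a).dir o x) o :=
    ((aff a).dir_spec o x).symm
  have hC : Df a ((aff a).dir o x).1 ((aff a).dir o w).1 ((aff a).dir o v).1 o.1 x.1 w.1
      ((aff a).t o x w).1 v.1 ((aff a).t o x v).1 (join a ((aff a).dir o x) o)
      (join a ((aff a).dir o x) w) (join a ((aff a).dir o x) v) (join a ((aff a).dir o w) o)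
      (join a ((aff a).dir o w) x) (join a ((aff a).dir o v) o) (join a ((aff a).dir o v) x) := by
    refine ⟨((aff a).dir o x).2, ((aff a).dir o w).2, ((aff a).dir o v).2, o.2, x.2, w.2,
      ((aff a).t o x w).2, v.2, ((aff a).t o x v).2, join_l _ _ _, join_r _ _ _,
      join_eq_iff.1 hxx.symm, join_l _ _ _, join_r _ _ _,
      join_eq_iff.1 ((aff a).t_line hxx w).symm, join_l _ _ _, join_r _ _ _,
      join_eq_iff.1 ((aff a).t_line hxx v).symm, fun e => h.1 e.symm, fun e => h.2.1 e.symm,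
      h.wv, fun e => h.ne (Subtype.ext e).symm, join_r _ _ _,
      join_eq_iff.1 ((aff a).dir_spec o w), join_l _ _ _, join_r _ _ _,
      join_eq_iff.1 ((aff a).t_spec hxx h.1).symm, join_l _ _ _, join_r _ _ _,
      join_eq_iff.1 ((aff a).dir_spec o v), join_l _ _ _, join_r _ _ _,
      join_eq_iff.1 ((aff a).t_spec hxx h.2.1).symm, join_l _ _ _, ?_⟩
    rintro ⟨b, hb, g, r, ⟨i1, i2, i3⟩, i4, i5, i6⟩
    obtain ⟨_, _, D, h3, h4⟩ := h
    have hwv : w ≠ v := by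
      intro e
      rw [e] at h4
      exact h4 rfl
    have e1 : (aff a).ln ⟨b, hb⟩ w = (aff a).ln ⟨b, hb⟩ v :=
      (join_eq (D := ⟨b, hb⟩) i3 i1).trans (join_eq (D := ⟨b, hb⟩) i3 i2).symm
    have e2 : (aff a).ln ⟨b, hb⟩ ((aff a).t o x w) = (aff a).ln ⟨b, hb⟩ ((aff a).t o x v) :=
      (join_eq (D := ⟨b, hb⟩) i6 i4).trans (join_eq (D := ⟨b, hb⟩) i6 i5).symm
    rw [(aff a).dir_unique hwv h3, ← (aff a).dir_unique hwv e1] at h4
    exact h4 e2
  obtain ⟨f, wf, vf⟩ : ∃ f : L, w.1 ∈ f ∧ v.1 ∈ f := ⟨_, HasLines.mkLine_ax (L := L) hC.wv⟩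
  exact ⟨_, _, _, _, _, _, _, _, _, _, _, _, f, hC, wf, vf⟩

omit [Fintype P] [Finite L] in
theorem rc2' {a : L} {c s t o x w w' v v' : P} {l m k g1 h1 g2 h2 f : L} {C o1 w1 v1 C2 : P}
    {p0 p1 p2 u1 u2 j q0 : L}
    (E : DE a c s t o x w w' v v' l m k g1 h1 g2 h2 f C o1 w1 v1 C2 p0 p1 p2 u1 u2 j q0)
    {a_ : L} {c_ s_ t_ w_ v_ : P} {l_ m_ k_ g1_ h1_ g2_ h2_ f_ : L} {C_ : P}
    {p0_ p1_ p2_ u1_ u2_ j_ q0_ : L} (ha : a = a_)
    (F : DE a_ c_ s_ t_ o x w_ w' v_ v' l_ m_ k_ g1_ h1_ g2_ h2_ f_ C_ o1 w1 v1 C2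
      p0_ p1_ p2_ u1_ u2_ j_ q0_) : C = C_ ∧ w = w_ ∧ v = v_ := by
  subst ha
  exact E.rc2 F

theorem card_line (a : L) : (univ.filter fun p : P => p ∈ a).card = order P L + 1 := by
  rw [← card_on (P := P) a]
  exact (Fintype.card_subtype _).symm

theorem card_two {g h : L} (n : g ≠ h) : (univ.filter fun p : P => p ∈ g ∧ p ∈ h).card ≤ 1 := by
  rw [card_le_one]
  intro p hp q hq
  simp only [mem_filter, mem_univ, true_and] at hp hq
  exact pp n hp.1 hp.2 hq.1 hq.2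

/-- the auxiliary pairs `(o1, C)` of a configuration -/
def Aux (a : L) (o x w v : P) (q : P × P) : Prop :=
  ∃ (c s t w' v' : P) (l m k g1 h1 g2 h2 f : L) (w1 v1 C2 : P) (p0 p1 p2 u1 u2 j q0 : L),
    DE a c s t o x w w' v v' l m k g1 h1 g2 h2 f q.2 q.1 w1 v1 C2 p0 p1 p2 u1 u2 j q0

theorem aux_card {a : L} {o x w v : {p : P // p ∉ a}} (h : (aff a).BD o x w v)
    (hn : 100 ≤ order P L) :
    order P L ^ 3 ≤ 2 * (univ.filter fun q : P × P => Aux a o.1 x.1 w.1 v.1 q).card := by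
  set n := order P L with hno
  obtain ⟨c, s, t, w', v', l, m, k, g1, h1, g2, h2, f, H, wf, vf⟩ := df_exists h
  let G : P → Prop := fun o1 => o1 ∉ a ∧ o1 ∉ l ∧ o1 ∉ g1 ∧ o1 ∉ g2 ∧ o1 ∉ h1 ∧ o1 ∉ h2
  let S : P → P → Prop := fun o1 C => ∃ p0 : L, (o.1 ∈ p0 ∧ o1 ∈ p0) ∧
    (C ∈ p0 ∧ C ≠ o.1 ∧ C ≠ o1 ∧ C ∉ a ∧ C ∉ f ∧ C ∉ m ∧ C ∉ k)
  have hsub : (univ.filter fun q : P × P => G q.1 ∧ S q.1 q.2) ⊆
      (univ.filter fun q : P × P => Aux a o.1 x.1 w.1 v.1 q) := by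
    intro q hq
    simp only [mem_filter, mem_univ, true_and] at hq ⊢
    obtain ⟨hG, p0, ⟨i1, i2⟩, hC⟩ := hq
    obtain ⟨w1, v1, C2, p1, p2, u1, u2, j, q0, hE⟩ := H.ext wf vf hG i1 i2 hC
    exact ⟨c, s, t, w', v', l, m, k, g1, h1, g2, h2, f, w1, v1, C2, p0, p1, p2, u1, u2, j, q0, hE⟩
  have hS : ∀ o1, G o1 → n ≤ (univ.filter fun C => G o1 ∧ S o1 C).card + 5 := by
    intro o1 hG
    have hoo : o.1 ≠ o1 := fun e => hG.2.1 (e ▸ H.ol)
    obtain ⟨p0, q1, q2⟩ : ∃ p0 : L, o.1 ∈ p0 ∧ o1 ∈ p0 := ⟨_, HasLines.mkLine_ax (L := L) hoo⟩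
    have hs : (univ.filter fun C : P => C ∈ p0) ⊆
        (univ.filter fun C => G o1 ∧ S o1 C) ∪ {o.1} ∪ {o1} ∪
        (univ.filter fun C : P => C ∈ p0 ∧ C ∈ a) ∪ (univ.filter fun C : P => C ∈ p0 ∧ C ∈ f) ∪
        (univ.filter fun C : P => C ∈ p0 ∧ C ∈ m) ∪ (univ.filter fun C : P => C ∈ p0 ∧ C ∈ k) := by
      intro C hC
      simp only [mem_filter, mem_univ, true_and] at hC
      simp only [mem_union, mem_filter, mem_univ, true_and, mem_singleton]
      by_contra hcon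
      push Not at hcon
      obtain ⟨⟨⟨⟨⟨⟨k1, k2⟩, k3⟩, k4⟩, k5⟩, k6⟩, k7⟩ := hcon
      exact k1 hG ⟨p0, ⟨q1, q2⟩, hC, k2, k3, k4 hC, k5 hC, k6 hC, k7 hC⟩
    have c1 : p0 ≠ a := fun e => H.oa (e ▸ q1)
    have c2 : p0 ≠ f := fun e => H.of2 wf vf (e ▸ q1)
    have c3 : p0 ≠ m := fun e => H.om (e ▸ q1)
    have c4 : p0 ≠ k := fun e => H.ok (e ▸ q1)
    have hc := card_le_card hs
    rw [card_line] at hc
    have d1 := card_two (P := P) c1
    have d2 := card_two (P := P) c2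
    have d3 := card_two (P := P) c3
    have d4 := card_two (P := P) c4
    have u1 := card_union_le ((univ.filter fun C => G o1 ∧ S o1 C) ∪ {o.1} ∪ {o1} ∪
        (univ.filter fun C : P => C ∈ p0 ∧ C ∈ a) ∪ (univ.filter fun C : P => C ∈ p0 ∧ C ∈ f) ∪
        (univ.filter fun C : P => C ∈ p0 ∧ C ∈ m)) (univ.filter fun C : P => C ∈ p0 ∧ C ∈ k)
    have u2 := card_union_le ((univ.filter fun C => G o1 ∧ S o1 C) ∪ {o.1} ∪ {o1} ∪
        (univ.filter fun C : P => C ∈ p0 ∧ C ∈ a) ∪ (univ.filter fun C : P => C ∈ p0 ∧ C ∈ f))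
        (univ.filter fun C : P => C ∈ p0 ∧ C ∈ m)
    have u3 := card_union_le ((univ.filter fun C => G o1 ∧ S o1 C) ∪ {o.1} ∪ {o1} ∪
        (univ.filter fun C : P => C ∈ p0 ∧ C ∈ a)) (univ.filter fun C : P => C ∈ p0 ∧ C ∈ f)
    have u4 := card_union_le ((univ.filter fun C => G o1 ∧ S o1 C) ∪ {o.1} ∪ {o1})
        (univ.filter fun C : P => C ∈ p0 ∧ C ∈ a)
    have u5 := card_union_le ((univ.filter fun C => G o1 ∧ S o1 C) ∪ {o.1}) {o1}
    have u6 := card_union_le (univ.filter fun C => G o1 ∧ S o1 C) {o.1}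
    rw [card_singleton] at u5 u6
    omega
  have hGc : n ^ 2 + n + 1 ≤ (univ.filter fun o1 => G o1).card + 6 * (n + 1) := by
    have hs : (univ : Finset P) ⊆ (univ.filter fun o1 => G o1) ∪
        (univ.filter fun p : P => p ∈ a) ∪ (univ.filter fun p : P => p ∈ l) ∪
        (univ.filter fun p : P => p ∈ g1) ∪ (univ.filter fun p : P => p ∈ g2) ∪
        (univ.filter fun p : P => p ∈ h1) ∪ (univ.filter fun p : P => p ∈ h2) := by
      intro p _
      simp only [mem_union, mem_filter, mem_univ, true_and]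
      by_contra hcon
      push Not at hcon
      obtain ⟨⟨⟨⟨⟨⟨k1, k2⟩, k3⟩, k4⟩, k5⟩, k6⟩, k7⟩ := hcon
      exact k1 ⟨k2, k3, k4, k5, k6, k7⟩
    have hc := card_le_card hs
    have hP : (univ : Finset P).card = n ^ 2 + n + 1 := card_points P L
    rw [hP] at hc
    have u1 := card_union_le ((univ.filter fun o1 => G o1) ∪
        (univ.filter fun p : P => p ∈ a) ∪ (univ.filter fun p : P => p ∈ l) ∪
        (univ.filter fun p : P => p ∈ g1) ∪ (univ.filter fun p : P => p ∈ g2) ∪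
        (univ.filter fun p : P => p ∈ h1)) (univ.filter fun p : P => p ∈ h2)
    have u2 := card_union_le ((univ.filter fun o1 => G o1) ∪
        (univ.filter fun p : P => p ∈ a) ∪ (univ.filter fun p : P => p ∈ l) ∪
        (univ.filter fun p : P => p ∈ g1) ∪ (univ.filter fun p : P => p ∈ g2))
        (univ.filter fun p : P => p ∈ h1)
    have u3 := card_union_le ((univ.filter fun o1 => G o1) ∪
        (univ.filter fun p : P => p ∈ a) ∪ (univ.filter fun p : P => p ∈ l) ∪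
        (univ.filter fun p : P => p ∈ g1)) (univ.filter fun p : P => p ∈ g2)
    have u4 := card_union_le ((univ.filter fun o1 => G o1) ∪
        (univ.filter fun p : P => p ∈ a) ∪ (univ.filter fun p : P => p ∈ l))
        (univ.filter fun p : P => p ∈ g1)
    have u5 := card_union_le ((univ.filter fun o1 => G o1) ∪
        (univ.filter fun p : P => p ∈ a)) (univ.filter fun p : P => p ∈ l)
    have u6 := card_union_le (univ.filter fun o1 => G o1) (univ.filter fun p : P => p ∈ a)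
    rw [card_line] at u1 u2 u3 u4 u5 u6
    omega
  have hcard : (univ.filter fun o1 => G o1).card * (n - 5) ≤
      (univ.filter fun q : P × P => G q.1 ∧ S q.1 q.2).card := by
    rw [← Aff.sum_card (fun o1 C => G o1 ∧ S o1 C), ← smul_eq_mul, ← sum_const]
    refine le_trans (sum_le_sum fun o1 ho1 => ?_) (sum_le_sum_of_subset (subset_univ
      (univ.filter fun o1 => G o1)))
    have := hS o1 (mem_filter.1 ho1).2
    omega
  have hfin := hcard.trans (card_le_card hsub)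
  have e1 : 3 * n ≤ 4 * (n - 5) := by omega
  have e2 : 3 * n ^ 2 ≤ 4 * (univ.filter fun o1 => G o1).card := by nlinarith
  have e3 := Nat.mul_le_mul e2 e1
  nlinarith

/-- the minor configurations that do not close, with all axes -/
def Rt (P L : Type) [Membership P L] [ProjectivePlane P L] [Fintype P] [Finite L] : Type :=
  {r : (a : L) × (({p : P // p ∉ a} × {p : P // p ∉ a}) × {p : P // p ∉ a} × {p : P // p ∉ a}) //
    (aff r.1).BD r.2.1.1 r.2.1.2 r.2.2.1 r.2.2.2}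

theorem Rt_ext {r r' : Rt P L} (h0 : r.1.1 = r'.1.1) (h1 : r.1.2.1.1.1 = r'.1.2.1.1.1)
    (h2 : r.1.2.1.2.1 = r'.1.2.1.2.1) (h3 : r.1.2.2.1.1 = r'.1.2.2.1.1)
    (h4 : r.1.2.2.2.1 = r'.1.2.2.2.1) : r = r' := by
  obtain ⟨⟨a, ⟨⟨o, ho⟩, ⟨x, hx⟩⟩, ⟨w, hw⟩, ⟨v, hv⟩⟩, hr⟩ := r
  obtain ⟨⟨a', ⟨⟨o', ho'⟩, ⟨x', hx'⟩⟩, ⟨w', hw'⟩, ⟨v', hv'⟩⟩, hr'⟩ := r'
  simp only at h0 h1 h2 h3 h4
  subst h0 h1 h2 h3 h4
  rfl

noncomputable instance : Fintype (Rt P L) := by
  have : Finite (Rt P L) := by unfold Rt; infer_instance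
  exact Fintype.ofFinite _

abbrev Tp (P L : Type) : Type := L × P × (P × P) × (P × P) × (P × P)

noncomputable instance : Fintype (Tp P L) := by
  have : Finite (Tp P L) := by unfold Tp; infer_instance
  exact Fintype.ofFinite _

def isO (q : Tp P L) : Prop :=
  OGD q.1 q.2.1 q.2.2.1.1 q.2.2.1.2 q.2.2.2.1.1 q.2.2.2.1.2 q.2.2.2.2.1 q.2.2.2.2.2

theorem Rt_le (hn : 100 ≤ order P L) : order P L ^ 3 * Fintype.card (Rt P L) ≤
    8 * ((univ.filter fun q : Tp P L => isO q).card *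
      (order P L ^ 2 + order P L + 1)) := by
  set n := order P L with hno
  let G : Finset (Rt P L × P × P) := univ.filter fun z =>
    Aux z.1.1.1 z.1.1.2.1.1.1 z.1.1.2.1.2.1 z.1.1.2.2.1.1 z.1.1.2.2.2.1 z.2
  have hG : n ^ 3 * Fintype.card (Rt P L) ≤ 2 * G.card := by
    have h1 := Aff.sum_card (fun (r : Rt P L) (q : P × P) =>
      Aux r.1.1 r.1.2.1.1.1 r.1.2.1.2.1 r.1.2.2.1.1 r.1.2.2.2.1 q)
    show n ^ 3 * Fintype.card (Rt P L) ≤ 2 * (univ.filter fun z : Rt P L × P × P =>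
      Aux z.1.1.1 z.1.1.2.1.1.1 z.1.1.2.1.2.1 z.1.1.2.2.1.1 z.1.1.2.2.2.1 z.2).card
    rw [← h1, mul_sum, mul_comm, ← card_univ, ← smul_eq_mul, ← sum_const]
    exact sum_le_sum fun r _ => aux_card r.2 hn
  have hex : ∀ z : {z // z ∈ G}, ∃ (c s t w' v' : P) (l m k g1 h1 g2 h2 f : L) (w1 v1 C2 : P)
      (p0 p1 p2 u1 u2 j q0 : L),
      DE z.1.1.1.1 c s t z.1.1.1.2.1.1.1 z.1.1.1.2.1.2.1 z.1.1.1.2.2.1.1 w' z.1.1.1.2.2.2.1 v'
        l m k g1 h1 g2 h2 f z.1.2.2 z.1.2.1 w1 v1 C2 p0 p1 p2 u1 u2 j q0 :=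
    fun z => (mem_filter.1 z.2).2
  choose c s t w' v' l m k g1 h1 g2 h2 f w1 v1 C2 p0 p1 p2 u1 u2 j q0 hE using hex
  let f1 : {z // z ∈ G} → Tp P L := fun z => (z.1.1.1.1, z.1.2.2, (z.1.1.1.2.1.1.1, z.1.2.1),
    (z.1.1.1.2.2.1.1, w1 z), (z.1.1.1.2.2.2.1, v1 z))
  let f2 : {z // z ∈ G} → Tp P L := fun z => (z.1.1.1.1, C2 z, (z.1.2.1, z.1.1.1.2.1.2.1),
    (w1 z, w' z), (v1 z, v' z))
  let f3 : {z // z ∈ G} → Tp P L := fun z => (j z, s z, (z.1.1.1.2.1.1.1, z.1.1.1.2.2.1.1),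
    (z.1.1.1.2.1.2.1, w' z), (z.1.2.1, w1 z))
  let f4 : {z // z ∈ G} → Tp P L := fun z => (j z, t z, (z.1.1.1.2.1.1.1, z.1.1.1.2.2.2.1),
    (z.1.1.1.2.1.2.1, v' z), (z.1.2.1, v1 z))
  set OG : Finset (Tp P L) := univ.filter fun q : Tp P L => isO q with hOG
  have hcov : (univ : Finset {z // z ∈ G}) ⊆ (univ.filter fun z => isO (f1 z)) ∪
      (univ.filter fun z => isO (f2 z)) ∪ (univ.filter fun z => isO (f3 z)) ∪
      (univ.filter fun z => isO (f4 z)) := by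
    intro z _
    simp only [mem_union, mem_filter, mem_univ, true_and]
    by_contra hcon
    push Not at hcon
    obtain ⟨⟨⟨n1, n2⟩, n3⟩, n4⟩ := hcon
    exact n2 ((hE z).open2 n1 n3 n4)
  have hP : Fintype.card P = n ^ 2 + n + 1 := card_points P L
  have hOP : (OG ×ˢ (univ : Finset P)).card = OG.card * (n ^ 2 + n + 1) := by
    rw [card_product, card_univ, hP]
  have k1 : (univ.filter fun z => isO (f1 z)).card ≤ OG.card * (n ^ 2 + n + 1) := by
    rw [← hOP]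
    refine card_le_card_of_injOn (fun z => (f1 z, z.1.1.1.2.1.2.1)) ?_ ?_
    · intro z hz
      simp only [coe_product, Set.mem_prod, mem_coe, mem_univ, and_true, hOG, mem_filter, true_and]
      exact (mem_filter.1 hz).2
    · intro z _ z' _ h
      simp only [f1, Prod.mk.injEq] at h
      obtain ⟨⟨i1, i2, ⟨i3, i4⟩, ⟨i5, i6⟩, i7, i8⟩, i9⟩ := h
      exact Subtype.ext (Prod.ext (Rt_ext i1 i3 i9 i5 i7) (Prod.ext i4 i2))
  have k2 : (univ.filter fun z => isO (f2 z)).card ≤ OG.card * (n ^ 2 + n + 1) := by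
    rw [← hOP]
    refine card_le_card_of_injOn (fun z => (f2 z, z.1.1.1.2.1.1.1)) ?_ ?_
    · intro z hz
      simp only [coe_product, Set.mem_prod, mem_coe, mem_univ, and_true, hOG, mem_filter, true_and]
      exact (mem_filter.1 hz).2
    · intro z _ z' _ h
      simp only [f2, Prod.mk.injEq] at h
      obtain ⟨⟨i1, i2, ⟨i3, i4⟩, ⟨i5, i6⟩, i7, i8⟩, i9⟩ := h
      have F := hE z'
      rw [← i2, ← i3, ← i4, ← i5, ← i6, ← i7, ← i8, ← i9] at F
      obtain ⟨j1, j2, j3⟩ := rc2' (hE z) i1 F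
      exact Subtype.ext (Prod.ext (Rt_ext i1 i9 i4 j2 j3) (Prod.ext i3 j1))
  have k3 : (univ.filter fun z => isO (f3 z)).card ≤ OG.card * (n ^ 2 + n + 1) := by
    rw [← hOP]
    refine card_le_card_of_injOn (fun z => (f3 z, z.1.1.1.2.2.2.1)) ?_ ?_
    · intro z hz
      simp only [coe_product, Set.mem_prod, mem_coe, mem_univ, and_true, hOG, mem_filter, true_and]
      exact (mem_filter.1 hz).2
    · intro z _ z' _ h
      simp only [f3, Prod.mk.injEq] at h
      obtain ⟨⟨i1, i2, ⟨i3, i4⟩, ⟨i5, i6⟩, i7, i8⟩, i9⟩ := h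
      have F := hE z'
      rw [← i1, ← i2, ← i3, ← i4, ← i5, ← i6, ← i7, ← i8] at F
      obtain ⟨j1, j2⟩ := (hE z).rc3 F
      exact Subtype.ext (Prod.ext (Rt_ext j1 i3 i5 i4 i9) (Prod.ext i7 j2))
  have k4 : (univ.filter fun z => isO (f4 z)).card ≤ OG.card * (n ^ 2 + n + 1) := by
    rw [← hOP]
    refine card_le_card_of_injOn (fun z => (f4 z, z.1.1.1.2.2.1.1)) ?_ ?_
    · intro z hz
      simp only [coe_product, Set.mem_prod, mem_coe, mem_univ, and_true, hOG, mem_filter, true_and]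
      exact (mem_filter.1 hz).2
    · intro z _ z' _ h
      simp only [f4, Prod.mk.injEq] at h
      obtain ⟨⟨i1, i2, ⟨i3, i4⟩, ⟨i5, i6⟩, i7, i8⟩, i9⟩ := h
      have F := hE z'
      rw [← i1, ← i2, ← i3, ← i4, ← i5, ← i6, ← i7, ← i8] at F
      obtain ⟨j1, j2⟩ := (hE z).rc4 F
      exact Subtype.ext (Prod.ext (Rt_ext j1 i3 i5 i9 i4) (Prod.ext i7 j2))
  have hc := card_le_card hcov
  have hu : (univ : Finset {z // z ∈ G}).card = G.card := by
    rw [card_univ, Fintype.card_coe]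
  rw [hu] at hc
  have v1' := card_union_le ((univ.filter fun z => isO (f1 z)) ∪
      (univ.filter fun z => isO (f2 z)) ∪ (univ.filter fun z => isO (f3 z)))
      (univ.filter fun z => isO (f4 z))
  have v2' := card_union_le ((univ.filter fun z => isO (f1 z)) ∪
      (univ.filter fun z => isO (f2 z))) (univ.filter fun z => isO (f3 z))
  have v3' := card_union_le (univ.filter fun z => isO (f1 z)) (univ.filter fun z => isO (f2 z))
  omega

theorem card_Rt [Fintype L] : Fintype.card (Rt P L) =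
    ∑ a : L, ∑ o, ∑ x, (aff (P := P) a).fail o x := by
  rw [← Nat.card_eq_fintype_card]
  unfold Rt
  rw [Nat.card_eq_fintype_card, Fintype.card_subtype]
  have h : ∀ a : L, ∑ o, ∑ x, (aff (P := P) a).fail o x =
      (univ.filter fun q : ({p : P // p ∉ a} × {p : P // p ∉ a}) ×
      {p : P // p ∉ a} × {p : P // p ∉ a} => (aff a).BD q.1.1 q.1.2 q.2.1 q.2.2).card := by
    intro a
    have := Aff.sum_card (fun (q : {p : P // p ∉ a} × {p : P // p ∉ a})
      (p : {p : P // p ∉ a} × {p : P // p ∉ a}) => (aff a).BD q.1 q.2 p.1 p.2)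
    rw [← this, Fintype.sum_prod_type]
    refine sum_congr rfl fun o _ => sum_congr rfl fun x _ => ?_
    unfold Aff.fail
    refine congrArg card ?_
    ext p
    simp only [mem_filter, mem_univ, true_and, Aff.BD]
  rw [sum_congr rfl fun a _ => h a, ← card_sigma]
  refine congrArg card ?_
  ext r
  simp only [mem_filter, mem_univ, true_and, mem_sigma]

theorem desargues_main [Fintype L] (h : 1000 ≤ order P L)
    (hF : 80000 * (univ.filter fun q : Tp P L => isO q).card < order P L ^ 10) :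
    IsPrimePow (order P L) := by
  set n := order P L with hn
  by_contra hne
  have hall : ∀ a : L, ∀ o : {p : P // p ∉ a}, n ^ 5 ≤ 10 ^ 4 * ∑ x, (aff a).fail o x := by
    intro a o
    by_contra hc
    exact hne ((aff a).affine_main (lines a) (card_off a) (card_on a) h o
      (le_of_lt (not_le.1 hc)))
  have hsum : ∀ a : L, n ^ 2 * n ^ 5 ≤ 10 ^ 4 * ∑ o, ∑ x, (aff (P := P) a).fail o x := by
    intro a
    rw [mul_sum]
    have hc : Fintype.card {p : P // p ∉ a} = n ^ 2 := card_off a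
    rw [← hc, ← card_univ, ← smul_eq_mul, ← sum_const]
    exact sum_le_sum fun o _ => hall a o
  have hL : Fintype.card L = n ^ 2 + n + 1 := card_lines P L
  have htot : (n ^ 2 + n + 1) * (n ^ 2 * n ^ 5) ≤ 10 ^ 4 * Fintype.card (Rt P L) := by
    rw [card_Rt, mul_sum, ← hL, ← card_univ, ← smul_eq_mul, ← sum_const]
    exact sum_le_sum fun a _ => hsum a
  have h3 := Rt_le (P := P) (L := L) (by omega)
  rw [← hn] at h3
  have h4 : n ^ 10 * (n ^ 2 + n + 1) ≤ (80000 * (univ.filter fun q : Tp P L => isO q).card) *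
      (n ^ 2 + n + 1) := by
    calc n ^ 10 * (n ^ 2 + n + 1) = n ^ 3 * ((n ^ 2 + n + 1) * (n ^ 2 * n ^ 5)) := by ring
      _ ≤ n ^ 3 * (10 ^ 4 * Fintype.card (Rt P L)) := Nat.mul_le_mul_left _ htot
      _ = 10 ^ 4 * (n ^ 3 * Fintype.card (Rt P L)) := by ring
      _ ≤ 10 ^ 4 * (8 * ((univ.filter fun q : Tp P L => isO q).card * (n ^ 2 + n + 1))) :=
        Nat.mul_le_mul_left _ h3
      _ = _ := by ring
  have h5 := Nat.le_of_mul_le_mul_right h4 (by positivity)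
  omega

end

end Pool.Agent.V11100.AD
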