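import Mathlib

set_option autoImplicit false

/-!
# Steiner systems `S(k ^ 2 + k + 1, k + 1, 2)` are projective planes
-/

namespace Pool.Agent.V11100.AD

open Finset Configuration

section
variable {V : Type} [DecidableEq V]

/-- the blocks as lines -/
def Ln (B : Finset (Finset V)) : Type := {b // b ∈ B}

instance (B : Finset (Finset V)) : Membership V (Ln B) := ⟨fun l p => p ∈ l.1⟩

theorem mem_Ln {B : Finset (Finset V)} {l : Ln B} {p : V} : p ∈ l ↔ p ∈ l.1 := Iff.rfl

instance (B : Finset (Finset V)) : Finite (Ln B) := by unfold Ln; infer_instance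

variable [Fintype V] {B : Finset (Finset V)} {k : ℕ}

structure SP (B : Finset (Finset V)) (k : ℕ) : Prop where
  size : ∀ b ∈ B, b.card = k + 1
  two : ∀ R : Finset V, R.card = 2 → ∃! b, b ∈ B ∧ R ⊆ b
  crd : Fintype.card V = k ^ 2 + k + 1
  hk : 3 ≤ k

namespace SP
variable (H : SP B k)
include H

theorem ex {p q : V} (h : p ≠ q) : ∃ b ∈ B, p ∈ b ∧ q ∈ b := by
  obtain ⟨b, ⟨hb, hs⟩, _⟩ := H.two {p, q} (card_pair h)
  exact ⟨b, hb, hs (by simp), hs (by simp)⟩

theorem un {p q : V} (h : p ≠ q) {b b' : Finset V} (hb : b ∈ B) (hb' : b' ∈ B) (h1 : p ∈ b)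
    (h2 : q ∈ b) (h3 : p ∈ b') (h4 : q ∈ b') : b = b' := by
  obtain ⟨c, _, hc⟩ := H.two {p, q} (card_pair h)
  have e1 := hc b ⟨hb, by intro z hz; simp only [mem_insert, mem_singleton] at hz; rcases hz with rfl | rfl <;> assumption⟩
  have e2 := hc b' ⟨hb', by intro z hz; simp only [mem_insert, mem_singleton] at hz; rcases hz with rfl | rfl <;> assumption⟩
  rw [e1, e2]

theorem deg (p : V) : (B.filter fun b => p ∈ b).card = k + 1 := by
  have h1 : (univ.erase p : Finset V) = (B.filter fun b => p ∈ b).biUnion fun b => b.erase p := by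
    ext q
    simp only [mem_erase, mem_univ, and_true, mem_biUnion, mem_filter]
    constructor
    · intro hq
      obtain ⟨b, hb, h2, h3⟩ := H.ex hq
      exact ⟨b, ⟨hb, h3⟩, hq, h2⟩
    · rintro ⟨b, _, hq, _⟩
      exact hq
  have h2 := congrArg card h1
  rw [card_erase_of_mem (mem_univ p), card_univ, H.crd, card_biUnion] at h2
  · have h3 : ∀ b ∈ B.filter (fun b => p ∈ b), (b.erase p).card = k := by
      intro b hb
      rw [mem_filter] at hb
      rw [card_erase_of_mem hb.2, H.size b hb.1]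
      rfl
    rw [sum_congr rfl h3, sum_const, smul_eq_mul] at h2
    have h4 : (k + 1) * k = (B.filter fun b => p ∈ b).card * k := by
      rw [← h2]; simp only [Nat.add_sub_cancel]; ring
    have hk : 0 < k := by have := H.hk; omega
    exact (Nat.eq_of_mul_eq_mul_right hk h4).symm
  · intro b hb b' hb' hne
    rw [Function.onFun, disjoint_left]
    intro q hq hq'
    rw [mem_coe, mem_filter] at hb hb'
    rw [mem_erase] at hq hq'
    exact hne (H.un hq.1 hb.1 hb'.1 hq.2 hb.2 hq'.2 hb'.2)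

theorem meet {b b' : Finset V} (hb : b ∈ B) (hb' : b' ∈ B) (_hne : b ≠ b') :
    ∃ p, p ∈ b ∧ p ∈ b' := by
  by_contra hcon
  push Not at hcon
  have hb'c := H.size b' hb'
  obtain ⟨p, hp⟩ : b'.Nonempty := by rw [← card_pos]; omega
  have hpb : p ∉ b := fun h => hcon p h hp
  have hsub : b.image (fun x => if h : x ≠ p then (H.ex h).choose else ∅) ⊆
      (B.filter fun b => p ∈ b).erase b' := by
    intro c hc
    rw [mem_image] at hc
    obtain ⟨x, hx, rfl⟩ := hc
    have hxp : x ≠ p := fun h => hpb (h ▸ hx)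
    rw [dif_pos hxp]
    obtain ⟨h1, h2, h3⟩ := (H.ex hxp).choose_spec
    rw [mem_erase, mem_filter]
    refine ⟨fun h => hcon x hx (h ▸ h2), h1, h3⟩
  have hinj : Set.InjOn (fun x => if h : x ≠ p then (H.ex h).choose else ∅) (b : Set V) := by
    intro x hx y hy hxy
    have hxp : x ≠ p := fun h => hpb (h ▸ hx)
    have hyp : y ≠ p := fun h => hpb (h ▸ hy)
    simp only at hxy
    rw [dif_pos hxp, dif_pos hyp] at hxy
    obtain ⟨h1, h2, h3⟩ := (H.ex hxp).choose_spec
    obtain ⟨h4, h5, h6⟩ := (H.ex hyp).choose_spec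
    by_contra hne'
    rw [← hxy] at h5
    have := H.un hne' h1 hb h2 h5 hx hy
    exact hpb (this ▸ h3)
  have hc := card_le_card hsub
  rw [card_image_of_injOn hinj, H.size b hb, card_erase_of_mem (mem_filter.2 ⟨hb', hp⟩),
    H.deg p] at hc
  omega

theorem through_avoid (p q r : V) (hq : q ≠ p) (hr : r ≠ p) : ∃ b ∈ B, p ∈ b ∧ q ∉ b ∧ r ∉ b := by
  by_contra hcon
  push Not at hcon
  have hsub : (B.filter fun b => p ∈ b) ⊆ (B.filter fun b => p ∈ b ∧ q ∈ b) ∪
      (B.filter fun b => p ∈ b ∧ r ∈ b) := by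
    intro b hb
    rw [mem_filter] at hb
    rw [mem_union, mem_filter, mem_filter]
    by_cases h : q ∈ b
    · exact Or.inl ⟨hb.1, hb.2, h⟩
    · exact Or.inr ⟨hb.1, hb.2, hcon b hb.1 hb.2 h⟩
  have h1 : (B.filter fun b => p ∈ b ∧ q ∈ b).card ≤ 1 := by
    rw [card_le_one]
    intro b hb b' hb'
    rw [mem_filter] at hb hb'
    exact H.un hq.symm hb.1 hb'.1 hb.2.1 hb.2.2 hb'.2.1 hb'.2.2
  have h2 : (B.filter fun b => p ∈ b ∧ r ∈ b).card ≤ 1 := by
    rw [card_le_one]
    intro b hb b' hb'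
    rw [mem_filter] at hb hb'
    exact H.un hr.symm hb.1 hb'.1 hb.2.1 hb.2.2 hb'.2.1 hb'.2.2
  have hc := card_le_card hsub
  rw [H.deg p] at hc
  have := card_union_le (B.filter fun b => p ∈ b ∧ q ∈ b) (B.filter fun b => p ∈ b ∧ r ∈ b)
  have := H.hk
  omega

theorem off (b : Finset V) (hb : b ∈ B) (b' : Finset V) (hb' : b' ∈ B) : ∃ p, p ∉ b ∧ p ∉ b' := by
  by_contra hcon
  push Not at hcon
  have h1 : (univ : Finset V) ⊆ b ∪ b' := by
    intro p _
    rw [mem_union]
    by_cases h : p ∈ b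
    · exact Or.inl h
    · exact Or.inr (hcon p h)
  have h2 := card_le_card h1
  rw [card_univ, H.crd] at h2
  have h3 := card_union_le b b'
  rw [H.size b hb, H.size b' hb'] at h3
  have := H.hk
  nlinarith

/-- the projective plane -/
@[reducible]
noncomputable def plane : ProjectivePlane V (Ln B) where
  exists_point := fun l => by
    obtain ⟨p, hp, _⟩ := H.off l.1 l.2 l.1 l.2
    exact ⟨p, hp⟩
  exists_line := fun p => by
    have : ∃ q : V, q ≠ p := by
      by_contra hcon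
      push Not at hcon
      have h1 : Fintype.card V ≤ 1 := Fintype.card_le_one_iff.2 fun a b => by
        rw [hcon a, hcon b]
      rw [H.crd] at h1
      have := H.hk
      nlinarith
    obtain ⟨q, hq⟩ := this
    obtain ⟨b, hb, _, h2, _⟩ := H.through_avoid q p p hq.symm hq.symm
    exact ⟨⟨b, hb⟩, h2⟩
  eq_or_eq := fun {p q l m} h1 h2 h3 h4 => by
    by_cases h : p = q
    · exact Or.inl h
    · exact Or.inr (Subtype.ext (H.un h l.2 m.2 h1 h2 h3 h4))
  mkPoint := fun {l m} h => (H.meet l.2 m.2 (fun e => h (Subtype.ext e))).choose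
  mkPoint_ax := fun {l m} h => (H.meet l.2 m.2 (fun e => h (Subtype.ext e))).choose_spec
  mkLine := fun {p q} h => ⟨(H.ex h).choose, (H.ex h).choose_spec.1⟩
  mkLine_ax := fun {p q} h => (H.ex h).choose_spec.2
  exists_config := by
    have hV : 0 < Fintype.card V := by rw [H.crd]; positivity
    obtain ⟨p2⟩ : Nonempty V := Fintype.card_pos_iff.1 hV
    have h1 : 1 < (B.filter fun b => p2 ∈ b).card := by
      rw [H.deg p2]; have := H.hk; omega
    obtain ⟨l2, hl2, l3, hl3, h23⟩ := one_lt_card.1 h1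
    rw [mem_filter] at hl2 hl3
    have h4 : 1 < l2.card := by rw [H.size l2 hl2.1]; have := H.hk; omega
    obtain ⟨p3, h5, h6⟩ := exists_mem_ne h4 p2
    have h7 : p3 ∉ l3 := fun h => h23 (H.un h6 hl2.1 hl3.1 h5 hl2.2 h hl3.2)
    obtain ⟨p1, h8, h9⟩ := H.off l2 hl2.1 l3 hl3.1
    have h10 : p2 ≠ p1 := fun h => h8 (h ▸ hl2.2)
    have h11 : p3 ≠ p1 := fun h => h8 (h ▸ h5)
    obtain ⟨l1, hl1, _, h12, h13⟩ := H.through_avoid p1 p2 p3 h10 h11
    exact ⟨p1, p2, p3, ⟨l1, hl1⟩, ⟨l2, hl2.1⟩, ⟨l3, hl3.1⟩, h8, h9, h12, hl2.2, hl3.2, h13, h5, h7⟩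

theorem order_eq : @ProjectivePlane.order V (Ln B) _ H.plane = k := by
  letI := H.plane
  have h1 := ProjectivePlane.card_points V (Ln B)
  rw [H.crd] at h1
  rcases Nat.lt_trichotomy (ProjectivePlane.order V (Ln B)) k with h | h | h
  · nlinarith
  · exact h
  · nlinarith

end SP

end

end Pool.Agent.V11100.AD
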